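import Pool.Agent.K4H57.CI.Defs
import Pool.Agent.R920.CH.Main

/-!
# Signed families of points
-/

set_option autoImplicit false

open Polynomial

namespace Pool.Agent.K4H57.CI

open Pool.Agent.R920.CH

/-- Weighted sums of the values of all polynomials of small degree. -/
lemma all_poly {α : Type*} (s : Multiset α) (w v : α → ℂ) (M : ℕ)
    (hs : ∀ t < M, (s.map fun y => w y * (descPochhammer ℂ t).eval (v y)).sum = 0) :
    ∀ d, d ≤ M → ∀ g : ℂ[X], g.natDegree < d → (s.map fun y => w y * g.eval (v y)).sum = 0 := by
  intro d
  induction d with
  | zero =>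
    intro _ g hg
    exact absurd hg (Nat.not_lt_zero _)
  | succ d ih =>
    intro hd g hg
    set q : ℂ[X] := C (g.coeff d) * descPochhammer ℂ d with hq
    have hc : q.coeff d = g.coeff d := by
      rw [hq, coeff_C_mul]
      have h1 : (descPochhammer ℂ d).coeff d = 1 := by
        have h2 := monic_descPochhammer ℂ d
        rwa [Monic, leadingCoeff, descPochhammer_natDegree] at h2
      rw [h1, mul_one]
    have h3 : (s.map fun y => w y * (g - q).eval (v y)).sum = 0 := by
      rcases Nat.eq_zero_or_pos d with hd0 | hd0
      · have h4 : g - q = 0 := by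
          rw [hd0] at hg hc
          have hg0 : g.natDegree = 0 := by omega
          have hq0 : q.natDegree = 0 := by
            rw [hq, hd0]
            simp
          rw [eq_C_of_natDegree_eq_zero hg0, eq_C_of_natDegree_eq_zero hq0, hc, sub_self]
        rw [h4]
        simp
      · apply ih (Nat.le_of_succ_le hd)
        have h5 : (g - q).natDegree ≤ d := by
          refine (natDegree_sub_le _ _).trans (max_le (Nat.le_of_lt_succ hg) ?_)
          rw [hq]
          refine (natDegree_C_mul_le _ _).trans ?_
          rw [descPochhammer_natDegree]
        have h6 : (g - q).coeff d = 0 := by rw [coeff_sub, hc, sub_self]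
        rcases Nat.lt_or_ge (g - q).natDegree d with h7 | h7
        · exact h7
        · exfalso
          have h8 : (g - q).natDegree = d := le_antisymm h5 h7
          have h9 : (g - q).leadingCoeff = 0 := by rw [leadingCoeff, h8, h6]
          rw [leadingCoeff_eq_zero] at h9
          rw [h9, natDegree_zero] at h8
          omega
    have h4 : (s.map fun y => w y * q.eval (v y)).sum = 0 := by
      have h5 : (fun y => w y * q.eval (v y)) =
          fun y => g.coeff d * (w y * (descPochhammer ℂ d).eval (v y)) := by
        funext y
        rw [hq, eval_mul, eval_C]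
        ring
      rw [h5, Multiset.sum_map_mul_left, hs d (Nat.lt_of_succ_le hd), mul_zero]
    have h5 : (fun y => w y * g.eval (v y)) =
        fun y => w y * (g - q).eval (v y) + w y * q.eval (v y) := by
      funext y
      rw [eval_sub]
      ring
    rw [h5, Multiset.sum_map_add, h3, h4, add_zero]

/-- The sums of the weights over the members with a given value. -/
lemma signed_core {α : Type*} (s : Multiset α) (w v : α → ℂ)
    (hs : ∀ t < Multiset.card s,
      (s.map fun y => w y * (descPochhammer ℂ t).eval (v y)).sum = 0) (x : ℂ) :
    ((s.filter fun y => v y = x).map w).sum = 0 := by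
  classical
  by_cases hx : ∃ y ∈ s, v y = x
  · set T : Finset ℂ := (s.map v).toFinset with hT
    have hxT : x ∈ T := by
      obtain ⟨y, hy, hyx⟩ := hx
      rw [hT, Multiset.mem_toFinset, Multiset.mem_map]
      exact ⟨y, hy, hyx⟩
    set g : ℂ[X] := ∏ z ∈ T.erase x, (X - C z) with hg
    have hdeg : g.natDegree < Multiset.card s := by
      rw [hg, natDegree_finsetProd_X_sub_C_eq_card, Finset.card_erase_of_mem hxT]
      have h1 := Multiset.toFinset_card_le (s.map v)
      rw [Multiset.card_map, ← hT] at h1
      have h2 : 0 < T.card := Finset.card_pos.2 ⟨x, hxT⟩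
      omega
    have h1 := all_poly s w v _ hs _ le_rfl g hdeg
    have h0 : g.eval x ≠ 0 := by
      rw [hg, eval_prod, Finset.prod_ne_zero_iff]
      intro z hz
      rw [eval_sub, eval_X, eval_C, sub_ne_zero]
      exact (Finset.ne_of_mem_erase hz).symm
    have h2 : (s.map fun y => w y * g.eval (v y)).sum =
        ((s.filter fun y => v y = x).map w).sum * g.eval x := by
      rw [← Multiset.filter_add_not (fun y => v y = x) s, Multiset.map_add, Multiset.sum_add]
      have e1 : ((s.filter fun y => v y = x).map fun y => w y * g.eval (v y)).sum =
          ((s.filter fun y => v y = x).map w).sum * g.eval x := by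
        rw [← Multiset.sum_map_mul_right]
        refine congrArg Multiset.sum (Multiset.map_congr rfl fun y hy => ?_)
        rw [(Multiset.mem_filter.1 hy).2]
      have e2 : ((s.filter fun y => ¬ v y = x).map fun y => w y * g.eval (v y)).sum = 0 := by
        rw [Multiset.sum_eq_zero]
        intro u hu
        obtain ⟨y, hy, rfl⟩ := Multiset.mem_map.1 hu
        obtain ⟨hys, hyx⟩ := Multiset.mem_filter.1 hy
        have : g.eval (v y) = 0 := by
          rw [hg, eval_prod]
          refine Finset.prod_eq_zero (i := v y) (Finset.mem_erase.2 ⟨hyx, ?_⟩) ?_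
          · rw [hT, Multiset.mem_toFinset]
            exact Multiset.mem_map_of_mem _ hys
          · rw [eval_sub, eval_X, eval_C, sub_self]
        rw [this, mul_zero]
      rw [e1, e2, add_zero, Multiset.filter_add_not]
    rw [h2] at h1
    exact (mul_eq_zero.1 h1).resolve_right h0
  · have : s.filter (fun y => v y = x) = 0 := by
      rw [Multiset.filter_eq_nil]
      intro y hy hyx
      exact hx ⟨y, hy, hyx⟩
    rw [this]
    simp

end Pool.Agent.K4H57.CI
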