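import Pool.Agent.Y350.CT.REC
import Pool.Agent.Y274.CT.ExiCnt
import Pool.Agent.X22.CC2

/-!
# Cubic characters: factorizations in the Eisenstein integers
-/

set_option autoImplicit false

namespace Pool.Agent.K4H57.CI

open Pool.Agent.Y692.QS
open Pool.Agent.Y715.T.Rec (cs nn la la_sq)
open Pool.Agent.Y715.T.RecG (Pq cs_spec cs_of cs_congr cs_mul cs_one cs_neg cs_pow cs_zero_iff
  cs_neg_one)
open Pool.Agent.Y715.T.RecC (unit_form exists_prim star_prime star_dvd nr_nn)
open Pool.Agent.Y350.CT (pq_star cs_star unit_one)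

lemma rec' {π ρ : Ei} (h : Pq π) (h' : Pq ρ) (hn : ¬ ρ ∣ π) : cs ρ π = cs π ρ :=
  Pool.Agent.Y350.CT.rec π ρ h h' hn

lemma nr_la : nr la = 3 := by decide

lemma star_la : star la = -la := by decide

lemma la_ne : la ≠ 0 := by decide

lemma assoc_la {ρ : Ei} (hρ : Prime ρ) (h : ρ ∣ 3) : ∃ v : Ei, IsUnit v ∧ ρ = v * la := by
  have h1 : ρ ∣ la * la := by
    rw [la_sq]
    exact (dvd_neg).2 h
  have h2 : ρ ∣ la := by
    rcases hρ.dvd_or_dvd h1 with h | h <;> exact h
  obtain ⟨c, hc⟩ := h2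
  have h3 : nr ρ * nr c = 3 := by rw [← nr_mul, ← hc, nr_la]
  have h4 : nr ρ ≠ 1 := fun h => hρ.not_isUnit (isUnit_iff.2 h)
  have h5 := nr_nonneg ρ
  have h6 := nr_nonneg c
  have h7 : nr c = 1 := by
    have h8 : nr ρ ∣ 3 := ⟨_, h3.symm⟩
    have h9 : nr ρ ≤ 3 := Int.le_of_dvd (by norm_num) h8
    interval_cases h : nr ρ <;> omega
  obtain ⟨c', hc'⟩ := (isUnit_iff.2 h7).exists_right_inv
  refine ⟨c', IsUnit.of_mul_eq_one c (by rw [mul_comm]; exact hc'), ?_⟩
  rw [hc]
  linear_combination -ρ * hc'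

/-- The factorization in units, powers of `√-3` and primary primes. -/
lemma factorize (α : Ei) (h0 : α ≠ 0) : ∃ (u : Ei) (j : ℕ) (L : Multiset Ei),
    IsUnit u ∧ (∀ ρ ∈ L, Pq ρ) ∧ α = u * la ^ j * L.prod := by
  induction α using UniqueFactorizationMonoid.induction_on_prime with
  | h₁ => exact absurd rfl h0
  | h₂ v hv => exact ⟨v, 0, 0, hv, by simp, by simp⟩
  | h₃ β ρ hβ hρ ih =>
    obtain ⟨u, j, L, hu, hL, hβe⟩ := ih hβ
    by_cases h3 : ρ ∣ 3
    · obtain ⟨v, hv, hρv⟩ := assoc_la hρ h3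
      refine ⟨v * u, j + 1, L, hv.mul hu, hL, ?_⟩
      rw [hβe, hρv]
      ring
    · obtain ⟨v, hv, hv3⟩ := exists_prim hρ h3
      obtain ⟨v', hv'⟩ := hv.exists_right_inv
      have hvp : Prime (v * ρ) := by
        obtain ⟨v'', rfl⟩ := hv
        exact (Associated.prime_iff ⟨v'', mul_comm _ _⟩).1 hρ
      refine ⟨v' * u, j, (v * ρ) ::ₘ L,
        (IsUnit.of_mul_eq_one v (by rw [mul_comm]; exact hv')).mul hu, ?_, ?_⟩
      · intro τ hτ
        rcases Multiset.mem_cons.1 hτ with rfl | hτ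
        · exact ⟨hvp, hv3⟩
        · exact hL τ hτ
      · rw [Multiset.prod_cons, hβe]
        linear_combination -(ρ * (u * la ^ j * L.prod)) * hv'

lemma nr_pq {ρ : Ei} (h : Pq ρ) : nr ρ = 3 * nn ρ + 1 := by
  have h1 := nr_nn h.prime h.norm
  have h2 := nr_nonneg ρ
  omega

/-- The norm of a product of primary primes. -/
lemma nr_prod (L : Multiset Ei) (hL : ∀ ρ ∈ L, Pq ρ) :
    ∃ t : ℤ, nr L.prod = 1 + 3 * ((L.map nn).sum : ℕ) + 9 * t := by
  induction L using Multiset.induction_on with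
  | empty => exact ⟨0, by rw [Multiset.prod_zero, nr_one]; simp⟩
  | cons a L ih =>
    obtain ⟨t, ht⟩ := ih fun ρ hρ => hL ρ (Multiset.mem_cons_of_mem hρ)
    refine ⟨(nn a : ℤ) * ((L.map nn).sum : ℕ) + t + 3 * nn a * t, ?_⟩
    rw [Multiset.prod_cons, nr_mul, ht, nr_pq (hL a (Multiset.mem_cons_self a L)),
      Multiset.map_cons, Multiset.sum_cons]
    push_cast
    ring

lemma nr_prod_three (L : Multiset Ei) (hL : ∀ ρ ∈ L, Pq ρ) : ¬ (3 : ℤ) ∣ nr L.prod := by
  obtain ⟨t, ht⟩ := nr_prod L hL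
  omega

lemma prod_three (L : Multiset Ei) (hL : ∀ ρ ∈ L, Pq ρ) : (3 : Ei) ∣ L.prod - 1 := by
  induction L using Multiset.induction_on with
  | empty => simp
  | cons a L ih =>
    have h1 := ih fun ρ hρ => hL ρ (Multiset.mem_cons_of_mem hρ)
    have h2 := (hL a (Multiset.mem_cons_self a L)).three
    rw [Multiset.prod_cons]
    have e : a * L.prod - 1 = (a - 1) * L.prod + (L.prod - 1) := by ring
    rw [e]
    exact dvd_add (Dvd.dvd.mul_right h2 _) h1

/-- Uniqueness of the factorization. -/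
lemma pq_unique (L₁ L₂ : Multiset Ei) (h₁ : ∀ ρ ∈ L₁, Pq ρ) (h₂ : ∀ ρ ∈ L₂, Pq ρ)
    (h : Associated L₁.prod L₂.prod) : L₁ = L₂ := by
  have h3 := UniqueFactorizationMonoid.factors_unique
    (fun x hx => (h₁ x hx).prime.irreducible) (fun x hx => (h₂ x hx).prime.irreducible) h
  have h4 : Multiset.Rel Eq L₁ L₂ := h3.mono fun a ha b hb hab =>
    Pool.Agent.Y350.CT.eq_of_dvd (h₂ b hb) (h₁ a ha) hab.dvd
  exact Multiset.rel_eq.1 h4

lemma map_star_pq {L : Multiset Ei} (hL : ∀ ρ ∈ L, Pq ρ) : ∀ ρ ∈ L.map star, Pq ρ := by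
  intro ρ hρ
  obtain ⟨τ, hτ, rfl⟩ := Multiset.mem_map.1 hρ
  exact pq_star (hL τ hτ)

lemma star_prod (L : Multiset Ei) : star L.prod = (L.map star).prod := by
  induction L using Multiset.induction_on with
  | empty => simp
  | cons a L ih => rw [Multiset.prod_cons, Multiset.map_cons, Multiset.prod_cons, star_mul', ih]

lemma isUnit_star {u : Ei} (hu : IsUnit u) : IsUnit (star u) := by
  rw [isUnit_iff] at hu ⊢
  rw [nr_star, hu]

lemma pow_three_eq {a b : ℕ} {A B : ℤ} (hA : ¬ (3 : ℤ) ∣ A) (hB : ¬ (3 : ℤ) ∣ B)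
    (h : 3 ^ a * A = 3 ^ b * B) : a = b := by
  rcases lt_trichotomy a b with hab | hab | hab
  · exfalso
    obtain ⟨d, rfl⟩ := Nat.exists_eq_add_of_lt hab
    apply hA
    have h1 : (3 : ℤ) ^ a * A = 3 ^ a * (3 * (3 ^ d * B)) := by
      rw [h]
      ring
    exact ⟨_, mul_left_cancel₀ (by positivity) h1⟩
  · exact hab
  · exfalso
    obtain ⟨d, rfl⟩ := Nat.exists_eq_add_of_lt hab
    apply hB
    have h1 : (3 : ℤ) ^ b * B = 3 ^ b * (3 * (3 ^ d * A)) := by
      rw [← h]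
      ring
    exact ⟨_, mul_left_cancel₀ (by positivity) h1⟩

lemma nr_pow (x : Ei) (n : ℕ) : nr (x ^ n) = nr x ^ n := by
  induction n with
  | zero => rw [pow_zero, pow_zero, nr_one]
  | succ n ih => rw [pow_succ, nr_mul, ih, pow_succ]

/-- The exponents if the norm is a cube. -/
lemma norm_cube {α u : Ei} {j : ℕ} {L : Multiset Ei} (hu : IsUnit u) (hL : ∀ ρ ∈ L, Pq ρ)
    (hα : α = u * la ^ j * L.prod) {n : ℤ} (hn0 : n ≠ 0) (hn : nr α = n ^ 3) :
    3 ∣ j ∧ ∀ ρ, 3 ∣ L.count ρ + L.count (star ρ) := by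
  classical
  have hn0' : (n : Ei) ≠ 0 := by
    intro h
    have h1 := congrArg nr h
    rw [nr_int] at h1
    have h2 : nr (0 : Ei) = 0 := by decide
    rw [h2] at h1
    exact hn0 (pow_eq_zero_iff (two_ne_zero) |>.1 h1)
  obtain ⟨u', j', L', hu', hL', hn'⟩ := factorize (n : Ei) hn0'
  have hLs := map_star_pq hL
  have hLL : ∀ ρ ∈ L + L.map star, Pq ρ := by
    intro ρ hρ
    rcases Multiset.mem_add.1 hρ with h | h
    · exact hL ρ h
    · exact hLs ρ h
  have hL3 : ∀ ρ ∈ 3 • L', Pq ρ := fun ρ hρ => hL' ρ (Multiset.mem_of_mem_nsmul hρ)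
  have key : (u * star u * (-1) ^ j) * la ^ (2 * j) * (L + L.map star).prod =
      u' ^ 3 * la ^ (3 * j') * (3 • L').prod := by
    have h1 : α * star α = (n : Ei) ^ 3 := by
      rw [mul_star, hn]
      push_cast
      ring
    rw [hn', hα, star_mul', star_mul', star_pow, star_la, star_prod] at h1
    rw [Multiset.prod_add, Multiset.prod_nsmul]
    have e1 : la ^ (2 * j) = la ^ j * la ^ j := by rw [← pow_add]; congr 1; ring
    have e2 : (-la) ^ j = (-1) ^ j * la ^ j := by rw [← mul_pow, neg_one_mul]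
    have e3 : la ^ (3 * j') = (la ^ j') ^ 3 := by rw [← pow_mul]; congr 1; ring
    rw [e1, e3]
    rw [e2] at h1
    linear_combination h1
  have hnr := congrArg nr key
  have hu1 := isUnit_iff.1 hu
  have hu1' := isUnit_iff.1 hu'
  have hnrm1 : nr ((-1 : Ei) ^ j) = 1 := by
    rw [nr_pow, nr_neg, nr_one, one_pow]
  simp only [nr_mul] at hnr
  rw [nr_pow la, nr_pow la, nr_pow u', nr_star, hu1, hu1', hnrm1, nr_la, one_pow, one_mul,
    one_mul, one_mul, one_mul] at hnr
  have h23 : 2 * j = 3 * j' := pow_three_eq (nr_prod_three _ hLL) (nr_prod_three _ hL3) hnr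
  refine ⟨by omega, ?_⟩
  rw [h23] at key
  have h4 : (u * star u * (-1) ^ j) * (L + L.map star).prod = u' ^ 3 * (3 • L').prod := by
    have h5 : la ^ (3 * j') ≠ 0 := pow_ne_zero _ la_ne
    apply mul_left_cancel₀ h5
    linear_combination key
  have h5 : Associated (L + L.map star).prod (3 • L').prod := by
    have hv : IsUnit (u * star u * (-1) ^ j) := (hu.mul (isUnit_star hu)).mul (isUnit_one.neg.pow _)
    have hv' : IsUnit (u' ^ 3) := hu'.pow 3
    have a1 : Associated ((u * star u * (-1) ^ j) * (L + L.map star).prod)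
      (L + L.map star).prod := (associated_unit_mul_left _ _ hv)
    have a2 : Associated (u' ^ 3 * (3 • L').prod) (3 • L').prod :=
      associated_unit_mul_left _ _ hv'
    rw [h4] at a1
    exact a1.symm.trans a2
  have h6 := pq_unique _ _ hLL hL3 h5
  intro ρ
  have h7 := congrArg (Multiset.count ρ) h6
  rw [Multiset.count_add, Multiset.count_nsmul] at h7
  have h8 : (L.map star).count ρ = L.count (star ρ) := by
    have h9 := Multiset.count_map_eq_count' (star : Ei → Ei) L star_injective (star ρ)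
    rwa [star_star] at h9
  rw [h8] at h7
  exact ⟨_, h7⟩

/-- The exponent of the cubic symbol of `w`. -/
def k9 (m : ℕ) : ZMod 3 := (((m ^ 2 - 1) / 3 : ℕ) : ZMod 3)

lemma cs_w {ρ : Ei} (h : Pq ρ) : cs ρ w = (nn ρ : ZMod 3) := by
  apply cs_of h.prime h.norm
  have h1 : (w : Ei) ^ nn ρ = w ^ ((nn ρ : ℕ) : ZMod 3).val := by
    rw [ZMod.val_natCast]
    exact pow_eq_pow_mod _ w_cube
  rw [h1, sub_self]
  exact dvd_zero _

/-- The primary primes over a rational prime. -/
lemma over_prime {p : ℕ} (hp : p.Prime) (hp3 : p ≠ 3) : ∃ L : Multiset Ei,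
    (∀ ρ ∈ L, Pq ρ ∧ ρ ∣ (p : Ei)) ∧ (L.prod = p ∨ L.prod = -(p : Ei)) ∧ L.map star = L ∧
      (((L.map nn).sum : ℕ) : ZMod 3) = k9 p := by
  have hp0 : (p : Ei) ≠ 0 := Pool.Agent.X22.CC.nat_ne hp.ne_zero
  have h3p : ¬ 3 ∣ p := fun h => hp3 ((Nat.prime_dvd_prime_iff_eq Nat.prime_three hp).1 h).symm
  obtain ⟨u, j, L, hu, hL, hpe⟩ := factorize (p : Ei) hp0
  have hnr := congrArg nr hpe
  rw [nr_nat, nr_mul, nr_mul, nr_pow, nr_la, isUnit_iff.1 hu, one_mul] at hnr
  have hj : j = 0 := by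
    by_contra hj
    have h1 : (3 : ℤ) ∣ (p : ℤ) ^ 2 := by
      rw [hnr]
      exact Dvd.dvd.mul_right (dvd_pow_self 3 hj) _
    have h2 : (3 : ℤ) ∣ p := Int.Prime.dvd_pow' (by norm_num) h1
    exact h3p (by exact_mod_cast h2)
  subst hj
  rw [pow_zero, mul_one] at hpe
  rw [pow_zero, one_mul] at hnr
  obtain ⟨v, hv⟩ := hu.exists_left_inv
  have hvu : IsUnit v := IsUnit.of_mul_eq_one u hv
  have hLp : L.prod = v * p := by
    rw [hpe]
    linear_combination -L.prod * hv
  have h3L := prod_three L hL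
  refine ⟨L, fun ρ hρ => ⟨hL ρ hρ, ?_⟩, ?_, ?_, ?_⟩
  · rw [hpe]
    exact Dvd.dvd.mul_left (Multiset.dvd_prod hρ) _
  · -- the unit is plus or minus one
    have hcase : p % 3 = 1 ∨ p % 3 = 2 := by omega
    rcases hcase with h1 | h1
    · left
      have h2 : (3 : Ei) ∣ v - 1 := by
        have e : v - 1 = (L.prod - 1) - v * ((p : Ei) - 1) := by rw [hLp]; ring
        rw [e]
        refine dvd_sub h3L (Dvd.dvd.mul_left ?_ _)
        refine ⟨((p / 3 : ℕ) : Ei), ?_⟩
        have e1 : p = 3 * (p / 3) + 1 := by omega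
        have e2 := congrArg (fun z : ℕ => (z : Ei)) e1
        push_cast at e2
        linear_combination e2
      rw [hLp, unit_one hvu h2, one_mul]
    · right
      have h2 : (3 : Ei) ∣ (-v) - 1 := by
        have e : (-v) - 1 = (L.prod - 1) - v * ((p : Ei) + 1) := by rw [hLp]; ring
        rw [e]
        refine dvd_sub h3L (Dvd.dvd.mul_left ?_ _)
        refine ⟨((p / 3 + 1 : ℕ) : Ei), ?_⟩
        have e1 : p + 1 = 3 * (p / 3 + 1) := by omega
        have e2 := congrArg (fun z : ℕ => (z : Ei)) e1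
        push_cast at e2
        rw [e2]
        push_cast
        ring
      have h3 := unit_one hvu.neg h2
      have h4 : v = -1 := by rw [← h3]; ring
      rw [hLp, h4]
      ring
  · apply pq_unique _ _ (map_star_pq hL) hL
    rw [← star_prod, hLp, star_mul']
    have e : star (p : Ei) = p := by
      ext
      · rw [star_re]; simp
      · rw [star_im]; simp
    rw [e]
    exact (associated_unit_mul_left _ _ (isUnit_star hvu)).trans
      (associated_unit_mul_left _ _ hvu).symm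
  · obtain ⟨t, ht⟩ := nr_prod L hL
    rw [← hnr] at ht
    have h1 : 1 ≤ p ^ 2 := Nat.one_le_pow _ _ hp.pos
    have h2 : (((p ^ 2 - 1 : ℕ) : ℤ)) = 3 * (((L.map nn).sum : ℕ) + 3 * t) := by
      rw [Nat.cast_sub h1]
      push_cast
      push_cast at ht
      linarith
    have h3 : ((((p ^ 2 - 1) / 3 : ℕ) : ℤ)) = ((L.map nn).sum : ℕ) + 3 * t := by
      generalize p ^ 2 - 1 = q at h2 ⊢
      generalize (L.map nn).sum = z at h2 ⊢
      omega
    have h4 := congrArg (fun z : ℤ => (z : ZMod 3)) h3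
    unfold k9
    simp only [Int.cast_natCast, Int.cast_add, Int.cast_mul] at h4
    rw [h4]
    have h5 : ((3 : ℤ) : ZMod 3) = 0 := by decide
    rw [h5]
    ring

end Pool.Agent.K4H57.CI
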