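import Pool.Agent.K4H57.CI.CubA

/-!
# Cubic characters: reciprocity and the construction of Dirichlet characters
-/

set_option autoImplicit false

namespace Pool.Agent.K4H57.CI

open Pool.Agent.Y692.QS
open Pool.Agent.Y715.T.Rec (cs nn la la_sq)
open Pool.Agent.Y715.T.RecG (Pq cs_spec cs_of cs_congr cs_mul cs_one cs_neg cs_pow cs_zero_iff
  cs_neg_one)
open Pool.Agent.Y715.T.RecC (unit_form exists_prim star_prime star_dvd nr_nn)
open Pool.Agent.Y350.CT (pq_star cs_star unit_one)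

lemma unit_nd {ρ u : Ei} (hρ : Prime ρ) (hu : IsUnit u) : ¬ ρ ∣ u := fun h =>
  hρ.not_isUnit (isUnit_of_dvd_unit h hu)

lemma la_nd {ρ : Ei} (h : ¬ ρ ∣ 3) : ¬ ρ ∣ la := by
  intro h1
  apply h
  have e : (3 : Ei) = -(la * la) := by rw [la_sq]; ring
  rw [e]
  exact (dvd_neg).2 (Dvd.dvd.mul_right h1 _)

lemma prod_nd {ρ : Ei} (hρ : Prime ρ) (L : Multiset Ei) (hL : ∀ τ ∈ L, ¬ ρ ∣ τ) :
    ¬ ρ ∣ L.prod := by
  intro h
  obtain ⟨τ, hτ, h1⟩ := hρ.exists_mem_multiset_dvd h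
  exact hL τ hτ h1

lemma cs_mprod {ρ : Ei} (hρ : Prime ρ) (h3 : ¬ ρ ∣ 3) (L : Multiset Ei)
    (hL : ∀ τ ∈ L, ¬ ρ ∣ τ) : cs ρ L.prod = (L.map fun τ => cs ρ τ).sum := by
  induction L using Multiset.induction_on with
  | empty => rw [Multiset.prod_zero, cs_one hρ h3]; simp
  | cons a L ih =>
    have h1 : ∀ τ ∈ L, ¬ ρ ∣ τ := fun τ hτ => hL τ (Multiset.mem_cons_of_mem hτ)
    rw [Multiset.prod_cons, cs_mul hρ h3 (hL a (Multiset.mem_cons_self a L)) (prod_nd hρ L h1),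
      ih h1, Multiset.map_cons, Multiset.sum_cons]

/-- The sum of the symbols of `√-3` at the primes over a rational prime. -/
lemma sum_la {L : Multiset Ei} (hL : ∀ ρ ∈ L, Pq ρ) (hs : L.map star = L) :
    (L.map fun ρ => cs ρ la).sum = 0 := by
  have h1 : (L.map fun ρ => cs ρ la).sum = (L.map fun ρ => cs (star ρ) la).sum := by
    conv_lhs => rw [← hs, Multiset.map_map]
    rfl
  have h2 : (L.map fun ρ => cs (star ρ) la).sum = (L.map fun ρ => - cs ρ la).sum := by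
    refine congrArg Multiset.sum (Multiset.map_congr rfl fun ρ hρ => ?_)
    have h3 := cs_star (hL ρ hρ) (la_nd (hL ρ hρ).norm)
    rw [star_la, cs_neg (pq_star (hL ρ hρ)).prime (pq_star (hL ρ hρ)).norm
      (la_nd (pq_star (hL ρ hρ)).norm)] at h3
    exact h3
  rw [h2, Multiset.sum_map_neg] at h1
  generalize (L.map fun ρ => cs ρ la).sum = c at h1
  revert c
  decide

/-- Reciprocity for rational primes. -/
lemma recip_sum {α u : Ei} {j : ℕ} {L : Multiset Ei} {a : ZMod 3}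
    (hu : u = w ^ a.val ∨ u = -w ^ a.val) (hL : ∀ ρ ∈ L, Pq ρ)
    (hα : α = u * la ^ j * L.prod) {p : ℕ} {Lp : Multiset Ei}
    (hp : ∀ ρ ∈ Lp, Pq ρ ∧ ρ ∣ (p : Ei)) (hprod : Lp.prod = p ∨ Lp.prod = -(p : Ei))
    (hstar : Lp.map star = Lp) (hk : (((Lp.map nn).sum : ℕ) : ZMod 3) = k9 p)
    (hc : ∀ ρ ∈ Lp, ¬ ρ ∣ α) : (Lp.map fun ρ => cs ρ α).sum =
      a * k9 p + (L.map fun ρ => cs ρ (p : Ei)).sum := by
  have hwu : ∀ n : ℕ, IsUnit (w ^ n : Ei) := fun n =>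
    (isUnit_iff.2 (by decide : nr w = 1)).pow n
  have huu : IsUnit u := by
    rcases hu with h | h
    · rw [h]; exact hwu _
    · rw [h]; exact (hwu _).neg
  have hdvd : ∀ ρ' ∈ Lp, ∀ ρ ∈ L, ¬ ρ' ∣ ρ := by
    intro ρ' hρ' ρ hρ h
    apply hc ρ' hρ'
    rw [hα]
    exact Dvd.dvd.mul_left (h.trans (Multiset.dvd_prod hρ)) _
  have hdvd' : ∀ ρ' ∈ Lp, ∀ ρ ∈ L, ¬ ρ ∣ ρ' := by
    intro ρ' hρ' ρ hρ h
    have h1 := Pool.Agent.Y350.CT.eq_of_dvd (hp ρ' hρ').1 (hL ρ hρ) h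
    exact hdvd ρ' hρ' ρ hρ (by rw [h1])
  have h1 : ∀ ρ' ∈ Lp, cs ρ' α = a * (nn ρ' : ZMod 3) + j * cs ρ' la +
      (L.map fun ρ => cs ρ ρ').sum := by
    intro ρ' hρ'
    obtain ⟨hP, _⟩ := hp ρ' hρ'
    have hw : ¬ ρ' ∣ w := unit_nd hP.prime (isUnit_iff.2 (by decide))
    have e1 : cs ρ' u = a * (nn ρ' : ZMod 3) := by
      have e2 : cs ρ' (w ^ a.val) = a * (nn ρ' : ZMod 3) := by
        rw [cs_pow hP.prime hP.norm hw, cs_w hP, ZMod.natCast_val, ZMod.cast_id]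
      rcases hu with h | h
      · rw [h, e2]
      · rw [h, cs_neg hP.prime hP.norm (unit_nd hP.prime (hwu _)), e2]
    have hlaj : ¬ ρ' ∣ la ^ j := fun h => la_nd hP.norm (hP.prime.dvd_of_dvd_pow h)
    have hnu : ¬ ρ' ∣ u := unit_nd hP.prime huu
    have hnul : ¬ ρ' ∣ u * la ^ j := fun h => by
      rcases hP.prime.dvd_or_dvd h with h | h
      · exact hnu h
      · exact hlaj h
    rw [hα, cs_mul hP.prime hP.norm hnul (prod_nd hP.prime L (hdvd ρ' hρ')),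
      cs_mul hP.prime hP.norm hnu hlaj, e1, cs_pow hP.prime hP.norm (la_nd hP.norm),
      cs_mprod hP.prime hP.norm L (hdvd ρ' hρ')]
    congr 1
    refine congrArg Multiset.sum (Multiset.map_congr rfl fun ρ hρ => ?_)
    exact rec' (hL ρ hρ) hP (hdvd ρ' hρ' ρ hρ)
  have h2 : (Lp.map fun ρ => cs ρ α).sum = (Lp.map fun ρ' => a * (nn ρ' : ZMod 3) +
      j * cs ρ' la + (L.map fun ρ => cs ρ ρ').sum).sum :=
    congrArg Multiset.sum (Multiset.map_congr rfl h1)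
  rw [h2, Multiset.sum_map_add, Multiset.sum_map_add, Multiset.sum_map_mul_left,
    Multiset.sum_map_mul_left, sum_la (fun ρ hρ => (hp ρ hρ).1) hstar, mul_zero, add_zero,
    Multiset.sum_map_sum_map]
  congr 1
  · congr 1
    rw [← hk, Nat.cast_multiset_sum, Multiset.map_map]
    rfl
  · refine congrArg Multiset.sum (Multiset.map_congr rfl fun ρ hρ => ?_)
    have hP := hL ρ hρ
    have h3 := cs_mprod hP.prime hP.norm Lp (fun ρ' hρ' => hdvd' ρ' hρ' ρ hρ)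
    rw [← h3]
    rcases hprod with h | h
    · rw [h]
    · have h4 : ¬ ρ ∣ (p : Ei) := by
        intro h5
        apply prod_nd hP.prime Lp (fun ρ' hρ' => hdvd' ρ' hρ' ρ hρ)
        rw [h]
        exact (dvd_neg).2 h5
      rw [h, cs_neg hP.prime hP.norm h4]

lemma k9_mul {m n : ℕ} (hm : ¬ 3 ∣ m) (hn : ¬ 3 ∣ n) : k9 (m * n) = k9 m + k9 n := by
  have key : ∀ m : ℕ, ¬ 3 ∣ m → ∃ x, m ^ 2 = 1 + 3 * x := by
    intro m hm
    have h1 : m % 3 = 1 ∨ m % 3 = 2 := by omega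
    have h2 : m ^ 2 % 3 = 1 := by
      rw [Nat.pow_mod]
      rcases h1 with h | h <;> rw [h]
    exact ⟨m ^ 2 / 3, by omega⟩
  obtain ⟨x, hx⟩ := key m hm
  obtain ⟨y, hy⟩ := key n hn
  have h1 : (m ^ 2 - 1) / 3 = x := by omega
  have h2 : (n ^ 2 - 1) / 3 = y := by omega
  have h3 : ((m * n) ^ 2 - 1) / 3 = x + y + 3 * (x * y) := by
    rw [mul_pow, hx, hy]
    have : (1 + 3 * x) * (1 + 3 * y) = 1 + 3 * (x + y + 3 * (x * y)) := by ring
    rw [this]
    omega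
  unfold k9
  rw [h1, h2, h3]
  push_cast
  have h5 : (3 : ZMod 3) = 0 := by decide
  rw [h5]
  ring

lemma k9_mod {m : ℕ} (hm : ¬ 3 ∣ m) : k9 m = k9 (m % 9) := by
  have h0 : m = 9 * (m / 9) + m % 9 := by omega
  have h1 : 1 ≤ (m % 9) ^ 2 := Nat.one_le_pow _ _ (by omega)
  have h2 : m ^ 2 = (m % 9) ^ 2 + 9 * (9 * (m / 9) ^ 2 + 2 * (m / 9) * (m % 9)) := by
    conv_lhs => rw [h0]
    ring
  have h3 : (m ^ 2 - 1) / 3 = ((m % 9) ^ 2 - 1) / 3 +
      3 * (9 * (m / 9) ^ 2 + 2 * (m / 9) * (m % 9)) := by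
    rw [h2]
    generalize (m % 9) ^ 2 = A at h1 ⊢
    generalize 9 * (m / 9) ^ 2 + 2 * (m / 9) * (m % 9) = B
    omega
  unfold k9
  rw [h3]
  push_cast
  have h5 : (3 : ZMod 3) = 0 := by decide
  rw [h5]
  ring

/-- The cube root of unity as a unit. -/
noncomputable def wU : ℂˣ where
  val := wC
  inv := wC ^ 2
  val_inv := by rw [← pow_succ', Pool.Agent.X22.CC.wC_cube]
  inv_val := by rw [← pow_succ, Pool.Agent.X22.CC.wC_cube]

/-- Dirichlet characters of order three from additive functions. -/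
lemma exists_char3 (M : ℕ) (hM : 2 ≤ M) (G : ℕ → ZMod 3)
    (hmul : ∀ a b : ℕ, a.Coprime M → b.Coprime M → G (a * b) = G a + G b)
    (hper : ∀ a b : ℕ, a.Coprime M → a ≡ b [MOD M] → G a = G b) :
    ∃ χ : DirichletCharacter ℂ M, (∀ m : ℕ, m.Coprime M → G m = 0 → χ (m : ZMod M) = 1) ∧
      ((∃ m : ℕ, m.Coprime M ∧ G m ≠ 0) → χ ≠ 1) := by
  have : NeZero M := ⟨by omega⟩
  have : Fact (1 < M) := ⟨by omega⟩
  have hcop : ∀ x : (ZMod M)ˣ, ((x : ZMod M).val).Coprime M := fun x => ZMod.val_coe_unit_coprime x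
  let f : (ZMod M)ˣ →* ℂˣ :=
    { toFun := fun x => wU ^ (G (x : ZMod M).val).val
      map_one' := by
        have h1 : G 1 = G 1 + G 1 := by
          have := hmul 1 1 (Nat.coprime_one_left M) (Nat.coprime_one_left M)
          rwa [mul_one] at this
        have h2 : G 1 = 0 := by
          generalize G 1 = c at h1
          revert c
          decide
        rw [Units.val_one, ZMod.val_one, h2, ZMod.val_zero, pow_zero]
      map_mul' := by
        intro x y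
        have h1 : G ((x * y : (ZMod M)ˣ) : ZMod M).val = G (x : ZMod M).val +
            G (y : ZMod M).val := by
          rw [← hmul _ _ (hcop x) (hcop y), Units.val_mul, ZMod.val_mul]
          refine (hper _ _ ?_ (Nat.mod_modEq _ _).symm).symm
          exact Nat.Coprime.mul_left (hcop x) (hcop y)
        rw [h1]
        apply Units.ext
        rw [Units.val_pow_eq_pow_val, Units.val_mul, Units.val_pow_eq_pow_val,
          Units.val_pow_eq_pow_val]
        exact Pool.Agent.X22.CC.wC_add _ _ }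
  have hval : ∀ m : ℕ, m.Coprime M → MulChar.ofUnitHom f (m : ZMod M) = wC ^ (G m).val := by
    intro m hm
    have h1 := MulChar.ofUnitHom_coe f (ZMod.unitOfCoprime m hm)
    rw [ZMod.coe_unitOfCoprime] at h1
    rw [h1]
    show ((wU ^ (G ((ZMod.unitOfCoprime m hm : (ZMod M)ˣ) : ZMod M).val).val : ℂˣ) : ℂ) = _
    rw [ZMod.coe_unitOfCoprime, ZMod.val_natCast, Units.val_pow_eq_pow_val,
      ← hper m (m % M) hm (Nat.mod_modEq _ _).symm]
    rfl
  refine ⟨MulChar.ofUnitHom f, ?_, ?_⟩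
  · intro m hm h0
    rw [hval m hm, h0, ZMod.val_zero, pow_zero]
  · rintro ⟨m, hm, h0⟩ h1
    have h2 := hval m hm
    rw [h1, MulChar.one_apply ((ZMod.isUnit_iff_coprime m M).2 hm)] at h2
    obtain ⟨n1, n2⟩ := Pool.Agent.X22.CC.wC_ne
    generalize G m = c at h0 h2
    have h3 : ∀ c : ZMod 3, c = 0 ∨ c = 1 ∨ c = 2 := by decide
    rcases h3 c with rfl | rfl | rfl
    · exact h0 rfl
    · rw [show (1 : ZMod 3).val = 1 from rfl, pow_one] at h2
      exact n1 h2.symm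
    · rw [show (2 : ZMod 3).val = 2 from rfl] at h2
      exact n2 h2.symm

end Pool.Agent.K4H57.CI
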