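import Pool.Agent.K4H57.CI.CubB

/-!
# Cubic characters: the main statement
-/

set_option autoImplicit false

namespace Pool.Agent.K4H57.CI

open Pool.Agent.Y692.QS
open Pool.Agent.Y715.T.Rec (cs nn la la_sq)
open Pool.Agent.Y715.T.RecG (Pq cs_spec cs_of cs_congr cs_mul cs_one cs_neg cs_pow cs_zero_iff
  cs_neg_one)
open Pool.Agent.Y715.T.RecC (unit_form exists_prim star_prime star_dvd nr_nn)
open Pool.Agent.Y350.CT (pq_star cs_star unit_one)

lemma star_nat (n : ℕ) : star (n : Ei) = n := by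
  ext
  · rw [star_re]; simp
  · rw [star_im]; simp

lemma nat_ne {n : ℕ} (hn : n ≠ 0) : (n : Ei) ≠ 0 := Pool.Agent.X22.CC.nat_ne hn

/-- A primary prime which is not equal to its conjugate lies over a split prime. -/
lemma split_norm {ρ : Ei} (h : Pq ρ) (hs : star ρ ≠ ρ) :
    ∃ q : ℕ, q.Prime ∧ q ≠ 3 ∧ nr ρ = q := by
  have h0 := nr_nonneg ρ
  have h1 : nr ρ ≠ 1 := fun h' => h.prime.not_isUnit (isUnit_iff.2 h')
  have h2 : nr ρ ≠ 0 := fun h' => h.prime.ne_zero (nr_zero_iff.1 h')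
  obtain ⟨q, hq, hqd⟩ := Nat.exists_prime_and_dvd (n := (nr ρ).natAbs) (by omega)
  have hqd' : (q : ℤ) ∣ nr ρ := Int.natCast_dvd.2 hqd
  have hq3 : q ≠ 3 := by
    rintro rfl
    have h3 := nr_pq h
    rw [h3] at hqd'
    push_cast at hqd'
    omega
  obtain ⟨L, hL, hprod, hst, -⟩ := over_prime hq hq3
  have hdvd : ∀ τ ∈ L, τ = ρ ∨ τ = star ρ := by
    intro τ hτ
    obtain ⟨hP, hd⟩ := hL τ hτ
    have h3 : τ ∣ ρ * star ρ := by
      rw [mul_star]
      refine hd.trans ?_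
      have h4 : (((q : ℤ) : Ei)) ∣ ((nr ρ : ℤ) : Ei) := int_dvd_int.2 hqd'
      simpa using h4
    rcases hP.prime.dvd_or_dvd h3 with h4 | h4
    · left
      exact Pool.Agent.Y350.CT.eq_of_dvd h hP h4
    · right
      exact Pool.Agent.Y350.CT.eq_of_dvd (pq_star h) hP h4
  have hnr : ∀ τ ∈ L, nr τ = nr ρ := by
    intro τ hτ
    rcases hdvd τ hτ with h3 | h3
    · rw [h3]
    · rw [h3, nr_star]
  have hq2 : nr L.prod = (q : ℤ) ^ 2 := by
    rcases hprod with h3 | h3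
    · rw [h3, nr_nat]
    · rw [h3, nr_neg, nr_nat]
  have hmul : ∀ L' : Multiset Ei, (∀ τ ∈ L', nr τ = nr ρ) →
      nr L'.prod = nr ρ ^ Multiset.card L' := by
    intro L' hL'
    induction L' using Multiset.induction_on with
    | empty => rw [Multiset.prod_zero, nr_one, Multiset.card_zero, pow_zero]
    | cons a L' ih =>
      rw [Multiset.prod_cons, nr_mul, ih fun τ hτ => hL' τ (Multiset.mem_cons_of_mem hτ),
        hL' a (Multiset.mem_cons_self a L'), Multiset.card_cons, pow_succ']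
  rw [hmul L hnr] at hq2
  -- the cardinality
  have hc0 : Multiset.card L ≠ 0 := by
    intro h3
    rw [h3, pow_zero] at hq2
    have h4 : (q : ℤ) ∣ 1 := by
      rw [hq2]
      exact dvd_pow_self _ two_ne_zero
    have h5 : q ∣ 1 := by exact_mod_cast h4
    exact hq.one_lt.ne' (Nat.dvd_one.1 h5)
  have hdiv : (nr ρ).natAbs ∣ q ^ 2 := by
    have h3 : nr ρ ∣ (q : ℤ) ^ 2 := by
      rw [← hq2]
      exact dvd_pow_self _ hc0
    have h4 := Int.natAbs_dvd_natAbs.2 h3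
    rwa [Int.natAbs_pow, Int.natAbs_natCast] at h4
  obtain ⟨i, hi, hi2⟩ := (Nat.dvd_prime_pow hq).1 hdiv
  have hnrq : nr ρ = (q : ℤ) ^ i := by
    have h3 : ((nr ρ).natAbs : ℤ) = ((q ^ i : ℕ) : ℤ) := by rw [hi2]
    rw [Int.natAbs_of_nonneg h0] at h3
    rw [h3]
    push_cast
    rfl
  have hi12 : i = 0 ∨ i = 1 ∨ i = 2 := by omega
  rcases hi12 with rfl | rfl | rfl
  · exact absurd (by rw [hnrq, pow_zero]) h1
  · exact ⟨q, hq, hq3, by rw [hnrq, pow_one]⟩
  · exfalso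
    rw [hnrq, ← pow_mul] at hq2
    have hc1 : Multiset.card L = 1 := by
      have h3 : q ^ (2 * Multiset.card L) = q ^ 2 := by exact_mod_cast hq2
      have h4 := Nat.pow_right_injective hq.two_le h3
      omega
    obtain ⟨τ, hτ⟩ := Multiset.card_eq_one.1 hc1
    rw [hτ, Multiset.map_singleton, Multiset.singleton_inj] at hst
    rcases hdvd τ (by rw [hτ]; exact Multiset.mem_singleton_self τ) with h3 | h3
    · rw [h3] at hst
      exact hs hst
    · rw [h3, star_star] at hst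
      exact hs hst.symm

/-- A rational number which is not a cube modulo a split prime. -/
lemma exists_noncube {ρ : Ei} (h : Pq ρ) {q : ℕ} (hq : q.Prime) (hn : nr ρ = q) :
    ∃ m : ℕ, ¬ q ∣ m ∧ ¬ ρ ∣ (m : Ei) ∧ cs ρ (m : Ei) ≠ 0 := by
  haveI : Fact q.Prime := ⟨hq⟩
  obtain ⟨x, hx0, hx1⟩ := Pool.Agent.X22.CC.exists_nontriv h.prime h.norm
  have hnd : ¬ ρ ∣ x := fun h' => hx0 (Pool.Agent.X22.CC.loc_zero h')
  have hcs : cs ρ x ≠ 0 := by
    intro h'
    apply hx1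
    rw [Pool.Agent.X22.CC.loc_ne hnd, h', ZMod.val_zero, pow_zero]
  have hd : ρ ∣ x - (((red hn x).val : ℕ) : Ei) := by
    rw [← red_zero hn, map_sub, map_natCast, ZMod.natCast_val, ZMod.cast_id, sub_self]
  have hnd2 : ¬ ρ ∣ (((red hn x).val : ℕ) : Ei) := by
    intro h'
    apply hnd
    have := dvd_add hd h'
    rwa [sub_add_cancel] at this
  refine ⟨(red hn x).val, ?_, hnd2, ?_⟩
  · intro h'
    apply hnd2
    have h1 : ρ ∣ ((q : ℕ) : Ei) := by
      have h2 : ρ ∣ ρ * star ρ := dvd_mul_right _ _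
      rw [mul_star, hn] at h2
      simpa using h2
    obtain ⟨c, hc⟩ := h'
    rw [hc, Nat.cast_mul]
    exact Dvd.dvd.mul_right h1 _
  · rw [← cs_congr h.prime h.norm hnd hd]
    exact hcs

end Pool.Agent.K4H57.CI
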