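import Pool.Agent.K4H57.CI.CubC

/-!
# Cubic characters: an element is a cube or there is a Dirichlet character
-/

set_option autoImplicit false

namespace Pool.Agent.K4H57.CI

open Pool.Agent.Y692.QS
open Pool.Agent.Y715.T.Rec (cs nn la la_sq)
open Pool.Agent.Y715.T.RecG (Pq cs_spec cs_of cs_congr cs_mul cs_one cs_neg cs_pow cs_zero_iff
  cs_neg_one)
open Pool.Agent.Y715.T.RecC (unit_form exists_prim star_prime star_dvd nr_nn)
open Pool.Agent.Y350.CT (pq_star cs_star unit_one)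

lemma int_dvd_natAbs {ρ : Ei} {s : ℤ} (h : ρ ∣ (s : Ei)) : ρ ∣ ((s.natAbs : ℕ) : Ei) := by
  rcases Int.natAbs_eq s with h1 | h1
  · rw [h1] at h
    simpa using h
  · rw [h1] at h
    have h2 : ρ ∣ -((s.natAbs : ℕ) : Ei) := by simpa using h
    exact (dvd_neg).1 h2

lemma nat_dvd_sub {ρ : Ei} {M a b : ℕ} (hM : ρ ∣ (M : Ei)) (h : a ≡ b [MOD M]) :
    ρ ∣ (a : Ei) - b := by
  have h1 : (M : ℤ) ∣ (b : ℤ) - a := (Nat.modEq_iff_dvd).1 h
  obtain ⟨c, hc⟩ := h1
  have h2 := congrArg (fun z : ℤ => (z : Ei)) hc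
  simp only [Int.cast_sub, Int.cast_natCast, Int.cast_mul] at h2
  have h3 : (a : Ei) - b = (M : Ei) * (-(c : Ei)) := by linear_combination -h2
  rw [h3]
  exact Dvd.dvd.mul_right hM _

open scoped Classical in
/-- **Cubes and characters.** If `α` has the norm `n ^ 3` and is not a cube, then there is a
nonprincipal Dirichlet character of the modulus `9 |s|`, `α - ᾱ = 3 s √-3`, which is `1` at all primes
such that `α` is a cube modulo the primes over them. -/
theorem cube_or_char {α : Ei} (h0 : α ≠ 0) {n : ℤ} (hn : nr α = n ^ 3) {s : ℤ} (hs0 : s ≠ 0)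
    (hs : α - star α = 3 * (s : Ei) * la) :
    (∃ γ, α = γ ^ 3) ∨ ∃ χ : DirichletCharacter ℂ (9 * s.natAbs), χ ≠ 1 ∧
      ∀ p : ℕ, p.Prime → p ≠ 3 → ¬ (p : ℤ) ∣ s → ¬ (p : ℤ) ∣ n →
        (∀ ρ : Ei, Prime ρ → ρ ∣ (p : Ei) → ∃ y, ρ ∣ α - y ^ 3) → χ (p : ZMod _) = 1 := by
  have hn0 : n ≠ 0 := by
    rintro rfl
    rw [zero_pow (by norm_num)] at hn
    exact h0 (nr_zero_iff.1 hn)
  obtain ⟨u, j, L, hu, hL, hα⟩ := factorize α h0
  obtain ⟨hj, hcount⟩ := norm_cube hu hL hα hn0 hn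
  obtain ⟨c, hc⟩ := unit_form hu
  by_cases hcube : ∃ γ, α = γ ^ 3
  · exact Or.inl hcube
  right
  set S : Finset Ei := L.toFinset.filter fun ρ => ¬ 3 ∣ L.count ρ with hS
  set e : Ei → ZMod 3 := fun ρ => (L.count ρ : ZMod 3) with he
  have hSP : ∀ ρ ∈ S, Pq ρ := by
    intro ρ hρ
    rw [hS, Finset.mem_filter, Multiset.mem_toFinset] at hρ
    exact hL ρ hρ.1
  have hSc : ∀ ρ ∈ S, ¬ 3 ∣ L.count ρ := by
    intro ρ hρ
    rw [hS, Finset.mem_filter] at hρ
    exact hρ.2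
  have hSs : ∀ ρ ∈ S, star ρ ∈ S := by
    intro ρ hρ
    have h1 := hSc ρ hρ
    have h2 := hcount ρ
    have h3 : ¬ 3 ∣ L.count (star ρ) := by omega
    rw [hS, Finset.mem_filter, Multiset.mem_toFinset]
    refine ⟨?_, h3⟩
    by_contra h4
    rw [Multiset.count_eq_zero_of_notMem h4] at h3
    exact h3 (dvd_zero 3)
  have hSne : ∀ ρ ∈ S, star ρ ≠ ρ := by
    intro ρ hρ h
    have h1 := hSc ρ hρ
    have h2 := hcount ρ
    rw [h] at h2
    omega
  have hdα : ∀ ρ ∈ L, ρ ∣ α := by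
    intro ρ hρ
    rw [hα]
    exact Dvd.dvd.mul_left (Multiset.dvd_prod hρ) _
  have hSd : ∀ ρ ∈ S, ρ ∣ ((s.natAbs : ℕ) : Ei) := by
    intro ρ hρ
    have hP := hSP ρ hρ
    have h1 : ρ ∣ α := hdα ρ (by
      rw [hS, Finset.mem_filter, Multiset.mem_toFinset] at hρ
      exact hρ.1)
    have h2 : ρ ∣ star α := by
      have h3 := hSs ρ hρ
      rw [hS, Finset.mem_filter, Multiset.mem_toFinset] at h3
      have h4 := star_dvd (hdα _ h3.1)
      rwa [star_star] at h4
    have h3 : ρ ∣ 3 * (s : Ei) * la := by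
      rw [← hs]
      exact dvd_sub h1 h2
    apply int_dvd_natAbs
    rcases hP.prime.dvd_or_dvd h3 with h4 | h4
    · rcases hP.prime.dvd_or_dvd h4 with h5 | h5
      · exact absurd h5 hP.norm
      · exact h5
    · exact absurd h4 (la_nd hP.norm)
  set M : ℕ := 9 * s.natAbs with hM
  have hsn : 0 < s.natAbs := Int.natAbs_pos.2 hs0
  have hM2 : 2 ≤ M := by omega
  have hSM : ∀ ρ ∈ S, ρ ∣ ((M : ℕ) : Ei) := by
    intro ρ hρ
    rw [hM, Nat.cast_mul]
    exact Dvd.dvd.mul_left (hSd ρ hρ) _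
  set G : ℕ → ZMod 3 := fun m => c * k9 m + ∑ ρ ∈ S, e ρ * cs ρ (m : Ei) with hG
  have h3M : 3 ∣ M := ⟨3 * s.natAbs, by rw [hM]; ring⟩
  have h9M : 9 ∣ M := ⟨s.natAbs, hM⟩
  have hcop3 : ∀ a : ℕ, a.Coprime M → ¬ 3 ∣ a := by
    intro a ha h
    have := Nat.dvd_gcd h h3M
    rw [ha] at this
    omega
  have hcopS : ∀ a : ℕ, a.Coprime M → ∀ ρ ∈ S, ¬ ρ ∣ (a : Ei) := by
    intro a ha ρ hρ h
    exact Pool.Agent.Y274.CT.coprime_dvd (hSP ρ hρ).prime ha h (hSM ρ hρ)
  have hmul : ∀ a b : ℕ, a.Coprime M → b.Coprime M → G (a * b) = G a + G b := by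
    intro a b ha hb
    rw [hG]
    show c * k9 (a * b) + ∑ ρ ∈ S, e ρ * cs ρ ((a * b : ℕ) : Ei) =
      (c * k9 a + ∑ ρ ∈ S, e ρ * cs ρ (a : Ei)) + (c * k9 b + ∑ ρ ∈ S, e ρ * cs ρ (b : Ei))
    rw [k9_mul (hcop3 a ha) (hcop3 b hb)]
    have h1 : ∑ ρ ∈ S, e ρ * cs ρ ((a * b : ℕ) : Ei) =
        ∑ ρ ∈ S, e ρ * cs ρ (a : Ei) + ∑ ρ ∈ S, e ρ * cs ρ (b : Ei) := by
      rw [← Finset.sum_add_distrib]
      refine Finset.sum_congr rfl fun ρ hρ => ?_
      rw [Nat.cast_mul, cs_mul (hSP ρ hρ).prime (hSP ρ hρ).norm (hcopS a ha ρ hρ)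
        (hcopS b hb ρ hρ), mul_add]
    rw [h1]
    ring
  have hper : ∀ a b : ℕ, a.Coprime M → a ≡ b [MOD M] → G a = G b := by
    intro a b ha hab
    rw [hG]
    show c * k9 a + ∑ ρ ∈ S, e ρ * cs ρ (a : Ei) = c * k9 b + ∑ ρ ∈ S, e ρ * cs ρ (b : Ei)
    have h9 : a % 9 = b % 9 := hab.of_dvd h9M
    have h3 := hcop3 a ha
    have h1 : k9 a = k9 b := by
      rw [k9_mod h3, k9_mod (m := b) (by omega), h9]
    rw [h1]
    congr 1
    refine Finset.sum_congr rfl fun ρ hρ => ?_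
    rw [cs_congr (hSP ρ hρ).prime (hSP ρ hρ).norm (hcopS a ha ρ hρ) (nat_dvd_sub (hSM ρ hρ) hab)]
  obtain ⟨χ, hχ1, hχ2⟩ := exists_char3 M hM2 G hmul hper
  refine ⟨χ, hχ2 ?_, ?_⟩
  · -- the character is not principal
    rcases S.eq_empty_or_nonempty with hSe | ⟨ρ₀, hρ₀⟩
    · have hc0 : c ≠ 0 := by
        rintro rfl
        apply hcube
        have hcnt : ∀ ρ ∈ L.toFinset, 3 ∣ L.count ρ := by
          intro ρ hρ
          by_contra h1
          have h2 : ρ ∈ S := by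
            rw [hS, Finset.mem_filter]
            exact ⟨hρ, h1⟩
          rw [hSe] at h2
          exact absurd h2 (Finset.notMem_empty ρ)
        have hprod : L.prod = (∏ ρ ∈ L.toFinset, ρ ^ (L.count ρ / 3)) ^ 3 := by
          rw [Finset.prod_multiset_count, ← Finset.prod_pow]
          refine Finset.prod_congr rfl fun ρ hρ => ?_
          rw [← pow_mul, Nat.div_mul_cancel (hcnt ρ hρ)]
        obtain ⟨j', rfl⟩ := hj
        rw [ZMod.val_zero, pow_zero] at hc
        rcases hc with h | h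
        · refine ⟨la ^ j' * ∏ ρ ∈ L.toFinset, ρ ^ (L.count ρ / 3), ?_⟩
          rw [hα, hprod, h, pow_mul]
          ring
        · refine ⟨-(la ^ j' * ∏ ρ ∈ L.toFinset, ρ ^ (L.count ρ / 3)), ?_⟩
          rw [hα, hprod, h, pow_mul]
          ring
      haveI : NeZero M := ⟨by omega⟩
      have h2u : Nat.Coprime 2 9 := by norm_num
      obtain ⟨x, hx⟩ := ZMod.unitsMap_surjective h9M (ZMod.unitOfCoprime 2 h2u)
      have hxc := ZMod.val_coe_unit_coprime x
      refine ⟨(x : ZMod M).val, hxc, ?_⟩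
      have h1 : (x : ZMod M).val % 9 = 2 := by
        have h2 := congrArg (fun z : (ZMod 9)ˣ => (z : ZMod 9)) hx
        simp only [ZMod.unitsMap_val, ZMod.coe_unitOfCoprime] at h2
        have h3 : (((x : ZMod M).val : ℕ) : ZMod 9) = ((2 : ℕ) : ZMod 9) := by
          rw [← h2, ZMod.natCast_val]
        have h4 := (ZMod.natCast_eq_natCast_iff _ _ _).1 h3
        exact h4
      rw [hG]
      show c * k9 (x : ZMod M).val + ∑ ρ ∈ S, e ρ * cs ρ (((x : ZMod M).val : ℕ) : Ei) ≠ 0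
      rw [hSe, Finset.sum_empty, add_zero, k9_mod (by omega), h1]
      have h5 : k9 2 = 1 := by decide
      rw [h5, mul_one]
      exact hc0
    · have hP := hSP ρ₀ hρ₀
      obtain ⟨q, hq, hq3, hqn⟩ := split_norm hP (hSne ρ₀ hρ₀)
      obtain ⟨m₀, hm₀, hm₀d, hm₀c⟩ := exists_noncube hP hq hqn
      have hqe : (q : Ei) = ρ₀ * star ρ₀ := by
        rw [mul_star, hqn]
        simp
      set v : ℕ := M.factorization q with hv
      set M' : ℕ := M / q ^ v with hM'
      have hMM' : q ^ v * M' = M := Nat.ordProj_mul_ordCompl_eq_self M q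
      have hcopq : Nat.Coprime q M' := Nat.coprime_ordCompl hq (by omega)
      obtain ⟨m, hm1, hm2⟩ := Nat.chineseRemainder hcopq m₀ 1
      have hqm : ¬ q ∣ m := by
        intro h
        exact hm₀ ((hm1.dvd_iff dvd_rfl).1 h)
      have hmM : m.Coprime M := by
        rw [← hMM']
        refine Nat.Coprime.mul_right ?_ ?_
        · exact Nat.Coprime.pow_right _ ((Nat.Prime.coprime_iff_not_dvd hq).2 hqm).symm
        · have h1 : Nat.gcd m M' = Nat.gcd 1 M' := hm2.gcd_eq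
          rw [Nat.gcd_one_left] at h1
          exact h1
      refine ⟨m, hmM, ?_⟩
      have h9q : Nat.Coprime 9 (q ^ v) := by
        apply Nat.Coprime.pow_right
        have : Nat.Coprime 3 q := (Nat.coprime_primes Nat.prime_three hq).2 (Ne.symm hq3)
        exact Nat.Coprime.pow_left 2 this
      have h9M' : 9 ∣ M' := by
        apply h9q.dvd_of_dvd_mul_left
        rw [hMM']
        exact h9M
      have hk : k9 m = 0 := by
        have h1 : m % 9 = 1 := hm2.of_dvd h9M'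
        rw [k9_mod (by omega), h1]
        decide
      have hstar : star ρ₀ ≠ ρ₀ := hSne ρ₀ hρ₀
      have hsub : ({ρ₀, star ρ₀} : Finset Ei) ⊆ S := by
        intro τ hτ
        rw [Finset.mem_insert, Finset.mem_singleton] at hτ
        rcases hτ with rfl | rfl
        · exact hρ₀
        · exact hSs _ hρ₀
      have hzero : ∀ τ ∈ S, τ ∉ ({ρ₀, star ρ₀} : Finset Ei) → e τ * cs τ (m : Ei) = 0 := by
        intro τ hτ hτn
        have hPτ := hSP τ hτ
        have h1 : ¬ τ ∣ (q : Ei) := by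
          intro h
          apply hτn
          rw [Finset.mem_insert, Finset.mem_singleton]
          rw [hqe] at h
          rcases hPτ.prime.dvd_or_dvd h with h | h
          · left
            exact Pool.Agent.Y350.CT.eq_of_dvd hP hPτ h
          · right
            exact Pool.Agent.Y350.CT.eq_of_dvd (pq_star hP) hPτ h
        have h2 : τ ∣ ((M' : ℕ) : Ei) := by
          have h3 := hSM τ hτ
          rw [← hMM', Nat.cast_mul, Nat.cast_pow] at h3
          rcases hPτ.prime.dvd_or_dvd h3 with h4 | h4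
          · exact absurd (hPτ.prime.dvd_of_dvd_pow h4) h1
          · exact h4
        have h3 : τ ∣ (m : Ei) - ((1 : ℕ) : Ei) := nat_dvd_sub h2 hm2
        rw [Nat.cast_one] at h3
        rw [cs_congr hPτ.prime hPτ.norm (hcopS m hmM τ hτ) h3, cs_one hPτ.prime hPτ.norm, mul_zero]
      have hsum : ∑ ρ ∈ S, e ρ * cs ρ (m : Ei) = e ρ₀ * cs ρ₀ (m : Ei) +
          e (star ρ₀) * cs (star ρ₀) (m : Ei) := by
        rw [← Finset.sum_subset hsub hzero, Finset.sum_pair hstar.symm]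
      have hcs1 : cs ρ₀ (m : Ei) = cs ρ₀ (m₀ : Ei) := by
        apply cs_congr hP.prime hP.norm (hcopS m hmM ρ₀ hρ₀)
        apply nat_dvd_sub _ hm1
        rw [hqe]
        exact dvd_mul_right _ _
      have hcs2 : cs (star ρ₀) (m : Ei) = - cs ρ₀ (m : Ei) := by
        have := cs_star hP (hcopS m hmM ρ₀ hρ₀)
        rwa [star_nat] at this
      have he2 : e (star ρ₀) = - e ρ₀ := by
        obtain ⟨t, ht⟩ := hcount ρ₀
        have h1 := congrArg (fun z : ℕ => (z : ZMod 3)) ht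
        simp only [Nat.cast_add, Nat.cast_mul] at h1
        have h2 : ((3 : ℕ) : ZMod 3) = 0 := by decide
        rw [h2, zero_mul] at h1
        rw [he]
        show (L.count (star ρ₀) : ZMod 3) = -(L.count ρ₀ : ZMod 3)
        linear_combination h1
      have he0 : e ρ₀ ≠ 0 := by
        rw [he]
        show (L.count ρ₀ : ZMod 3) ≠ 0
        rw [Ne, ZMod.natCast_eq_zero_iff]
        exact hSc ρ₀ hρ₀
      rw [hG]
      show c * k9 m + ∑ ρ ∈ S, e ρ * cs ρ (m : Ei) ≠ 0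
      rw [hk, mul_zero, zero_add, hsum, hcs2, he2, hcs1]
      generalize e ρ₀ = x at he0
      generalize cs ρ₀ (m₀ : Ei) = y at hm₀c
      have key : ∀ x y : ZMod 3, x ≠ 0 → y ≠ 0 → x * y + -x * -y ≠ 0 := by decide
      exact key x y he0 hm₀c
  · -- the values at the primes
    intro p hp hp3 hps hpn hloc
    obtain ⟨Lp, hLp, hprod, hst, hk⟩ := over_prime hp hp3
    have hpM : p.Coprime M := by
      rw [Nat.Prime.coprime_iff_not_dvd hp, hM]
      intro h
      rcases (Nat.Prime.dvd_mul hp).1 h with h1 | h1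
      · have h2 : p ∣ 3 ^ 2 := by simpa using h1
        exact hp3 ((Nat.prime_dvd_prime_iff_eq hp Nat.prime_three).1 (hp.dvd_of_dvd_pow h2))
      · exact hps (Int.natCast_dvd.2 h1)
    apply hχ1 p hpM
    have hnd : ∀ ρ ∈ Lp, ¬ ρ ∣ α := by
      intro ρ hρ h
      obtain ⟨hP, hd⟩ := hLp ρ hρ
      have h1 : nr ρ ∣ n ^ 3 := by
        rw [← hn]
        exact Pool.Agent.X22.CC.nr_dvd h
      have h2 : nr ρ ∣ (p : ℤ) ^ 2 := by
        have h3 := Pool.Agent.X22.CC.nr_dvd hd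
        rwa [nr_nat] at h3
      have h3 : (nr ρ).natAbs ∣ p ^ 2 := by
        have h4 := Int.natAbs_dvd_natAbs.2 h2
        rwa [Int.natAbs_pow, Int.natAbs_natCast] at h4
      obtain ⟨i, hi, hi2⟩ := (Nat.dvd_prime_pow hp).1 h3
      have hi0 : i ≠ 0 := by
        rintro rfl
        rw [pow_zero] at hi2
        have h5 := nr_nonneg ρ
        exact hP.prime.not_isUnit (isUnit_iff.2 (by omega))
      have h6 : (p : ℤ) ∣ nr ρ := by
        rw [Int.natCast_dvd, hi2]
        exact dvd_pow_self p hi0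
      exact hpn (Int.Prime.dvd_pow' hp (h6.trans h1))
    have h1 := recip_sum hc hL hα hLp hprod hst hk hnd
    have h2 : (Lp.map fun ρ => cs ρ α).sum = 0 := by
      apply Multiset.sum_eq_zero
      intro x hx
      obtain ⟨ρ, hρ, rfl⟩ := Multiset.mem_map.1 hx
      obtain ⟨hP, hd⟩ := hLp ρ hρ
      rw [cs_zero_iff hP.prime hP.norm (hnd ρ hρ)]
      exact hloc ρ hP.prime hd
    have h3 : (L.map fun ρ => cs ρ (p : Ei)).sum = ∑ ρ ∈ S, e ρ * cs ρ (p : Ei) := by
      rw [Finset.sum_multiset_map_count, hS, Finset.sum_filter]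
      refine Finset.sum_congr rfl fun ρ _ => ?_
      rw [nsmul_eq_mul]
      split_ifs with h4
      · have h5 : (L.count ρ : ZMod 3) = 0 := (ZMod.natCast_eq_zero_iff _ _).2 h4
        rw [h5, zero_mul]
      · rfl
    rw [hG]
    show c * k9 p + ∑ ρ ∈ S, e ρ * cs ρ (p : Ei) = 0
    rw [← h3, ← h1, h2]

end Pool.Agent.K4H57.CI
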