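import Mathlib

set_option autoImplicit false

/-!
# The discriminant of a cubic polynomial
-/

namespace Pool.Agent.K4H57.CI

/-- The discriminant of `X³ - b X² + c X - d`. -/
def disc3 (b c d : ℤ) : ℤ :=
  b ^ 2 * c ^ 2 - 4 * c ^ 3 - 4 * b ^ 3 * d + 18 * b * c * d - 27 * d ^ 2

end Pool.Agent.K4H57.CI
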