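import Pool.Agent.R852.BC.Main

/-!
# Dirichlet characters of any order with value one at all small primes (Pólya-Vinogradov and the
method of Vinogradov)
-/

set_option autoImplicit false
set_option maxHeartbeats 4000000

open Finset Filter Pool.Agent.H471R4.BW Pool.Agent.R852.BC

namespace Pool.Agent.K4H57.CI

/-- A nonprincipal character modulo `M ≤ y ^ (2 √e - ε)` is not equal to `1` at all the primes at most
`y` which do not divide a given number of polynomial size. -/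
theorem vin (k : ℕ) (A ε : ℝ) (hε : 0 < ε) : ∀ᶠ y : ℕ in atTop,
    ∀ (M : ℕ) (χ : DirichletCharacter ℂ M) (B : ℤ), 2 ≤ M → χ ≠ 1 →
    (M : ℝ) ≤ (y : ℝ) ^ (2 * Real.exp (1 / 2) - ε) → B ≠ 0 → (|B| : ℝ) ≤ (y : ℝ) ^ A →
    (∀ p : ℕ, p.Prime → k < p → p ≤ y → ¬ (p : ℤ) ∣ B → χ (p : ZMod M) = 1) → False := by
  wlog hε1 : ε ≤ 1 generalizing ε
  · have h1 := this 1 one_pos le_rfl
    filter_upwards [h1, eventually_ge_atTop 1] with y hy hy1 M χ B hM hχ hMy hB0 hB hp
    refine hy M χ B hM hχ (hMy.trans ?_) hB0 hB hp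
    apply Real.rpow_le_rpow_of_exponent_le (by exact_mod_cast hy1)
    linarith
  wlog hA : 0 ≤ A generalizing A
  · filter_upwards [this 0 le_rfl, eventually_ge_atTop 1] with y hy hy1 M χ B hM hχ hMy hB0 hB hp
    refine hy M χ B hM hχ hMy hB0 (hB.trans ?_) hp
    apply Real.rpow_le_rpow_of_exponent_le (by exact_mod_cast hy1)
    linarith
  obtain ⟨he1, he2⟩ := exp_half_bounds
  set r := Real.exp (1 / 2) with hr
  set η : ℝ := ε / 8 with hη
  have hη0 : 0 < η := by positivity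
  obtain ⟨C, hC0, hfin⟩ := final_ineq
  set κ : ℝ := r - ε / 4 with hκ
  have hκ1 : 1 ≤ κ := by rw [hκ]; linarith
  have hκ2 : Real.log κ < 1 / 2 := by
    rw [Real.log_lt_iff_lt_exp (by linarith)]
    rw [hκ, ← hr]
    linarith
  set γ : ℝ := 1 / 2 - Real.log κ with hγ
  have hγ0 : 0 < γ := by rw [hγ]; linarith
  set β : ℝ := η / 8 with hβ
  have hβ0 : 0 < β := by positivity
  obtain ⟨C₁, hC₁0, hC₁⟩ := prod_rho_le (β / (1 + A)) (by positivity)
  set F : ℝ := ((max k 2).factorial : ℝ) with hF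
  have hF1 : 1 ≤ F := by
    rw [hF]
    exact_mod_cast Nat.factorial_pos _
  set C₂ : ℝ := C₁ * F ^ (β / (1 + A)) with hC₂
  have hC₂0 : 0 < C₂ := by positivity
  have tc : Tendsto (fun q : ℕ => (q : ℝ)) atTop atTop := tendsto_natCast_atTop_atTop
  have f1 : ∀ᶠ x : ℝ in atTop, C₂ ^ 2 * (4 * (1 + 4 * Real.log x)) ≤ γ ^ 2 * x ^ (3 * η / 4) := by
    have h1 := (isLittleO_log_rpow_atTop (show (0 : ℝ) < 3 * η / 4 by positivity)).def
      (show (0 : ℝ) < γ ^ 2 / (32 * C₂ ^ 2) by positivity)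
    have h2 : ∀ᶠ x : ℝ in atTop, 8 * C₂ ^ 2 / γ ^ 2 ≤ x ^ (3 * η / 4) :=
      (tendsto_rpow_atTop (by positivity : (0 : ℝ) < 3 * η / 4)).eventually_ge_atTop _
    filter_upwards [h1, h2, eventually_ge_atTop 1] with x hx hx2 hx1
    have h3 : 0 ≤ Real.log x := Real.log_nonneg hx1
    rw [Real.norm_eq_abs, Real.norm_eq_abs, abs_of_nonneg h3, abs_of_nonneg (by positivity)] at hx
    rw [div_le_iff₀ (by positivity)] at hx2
    have h4 : 32 * C₂ ^ 2 * Real.log x ≤ γ ^ 2 * x ^ (3 * η / 4) := by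
      calc 32 * C₂ ^ 2 * Real.log x ≤ 32 * C₂ ^ 2 * (γ ^ 2 / (32 * C₂ ^ 2) * x ^ (3 * η / 4)) := by
            gcongr
        _ = γ ^ 2 * x ^ (3 * η / 4) := by field_simp
    nlinarith
  have f5 : ∀ᶠ x : ℝ in atTop, 2 ≤ x ^ (ε / 8) :=
    (tendsto_rpow_atTop (by positivity : (0 : ℝ) < ε / 8)).eventually_ge_atTop _
  have f7 : ∀ᶠ x : ℝ in atTop, 2 * C / γ + 1 ≤ Real.log x :=
    Real.tendsto_log_atTop.eventually_ge_atTop _
  filter_upwards [tc.eventually f1, tc.eventually f5, tc.eventually f7, eventually_ge_atTop 16]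
    with y g1 g5 g7 hy16 M χ B hM2 hχ1 hMy hB0 hB hp
  have hyr : (16 : ℝ) ≤ y := by exact_mod_cast hy16
  have hy0 : (0 : ℝ) < y := by linarith
  have hy1 : (1 : ℝ) ≤ y := by linarith
  have hly : 0 < Real.log y := Real.log_pos (by linarith)
  have hCly : 2 * (C / Real.log y) < γ := by
    have h1 : 2 * C / γ < Real.log y := by linarith
    rw [div_lt_iff₀ hγ0] at h1
    rw [← mul_div_assoc, div_lt_iff₀ hly]
    linarith [mul_comm γ (Real.log y)]
  have hprod := exc_prod k y B hB0 χ (fun l h1 h2 h3 _ h4 => hp l h1 h2 h3 h4)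
  have hBr : ((B.natAbs : ℕ) : ℝ) = |(B : ℝ)| := by
    rw [Nat.cast_natAbs]
    push_cast
    rfl
  have hexcp : ∀ q ∈ exc χ y, q.Prime := by
    intro q hq
    unfold exc at hq
    exact (mem_filter.mp hq).2.1
  have hR : ∏ q ∈ exc χ y, rho q ≤ C₂ * (y : ℝ) ^ β := by
    refine (hC₁ (exc χ y) (F * (y : ℝ) ^ (1 + A)) hexcp ?_).trans ?_
    · calc ((∏ l ∈ exc χ y, l : ℕ) : ℝ) ≤ (((max k 2).factorial * B.natAbs : ℕ) : ℝ) := by
            exact_mod_cast hprod
        _ = F * |(B : ℝ)| := by rw [Nat.cast_mul, hBr]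
        _ ≤ F * (y : ℝ) ^ (1 + A) := by
            refine mul_le_mul_of_nonneg_left (hB.trans ?_) (by linarith)
            exact Real.rpow_le_rpow_of_exponent_le hy1 (by linarith)
    · rw [Real.mul_rpow (by linarith) (by positivity), ← Real.rpow_mul hy0.le, hC₂]
      have : (1 + A) * (β / (1 + A)) = β := by field_simp
      rw [this, ← mul_assoc]
  set R := ∏ q ∈ exc χ y, rho q with hRdef
  have hR0 : 0 ≤ R := prod_nonneg fun q hq => by
    have := rho_one_le (hexcp q hq)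
    linarith
  set m : ℝ := (M : ℝ) with hm
  have hm2 : 2 ≤ m := by
    rw [hm]
    exact_mod_cast hM2
  have hmpos : 0 < m := by linarith
  have hm1 : 1 ≤ m := by linarith
  set T : ℝ := 4 * √m * (1 + Real.log m) with hT
  have hlM : 0 ≤ Real.log m := Real.log_nonneg hm1
  have hT0 : 0 ≤ T := by positivity
  have hPV : ∀ Y : ℕ, ‖shortSum M χ Y‖ ≤ T := by
    intro Y
    exact Pool.Agent.H38R2.CG.PVh.sum_le M χ hM2 hχ1 Y
  have hsm1 : 1 ≤ √m := by
    rw [Real.one_le_sqrt]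
    exact hm1
  have hyη : 1 ≤ (y : ℝ) ^ η := Real.one_le_rpow hy1 hη0.le
  set X : ℕ := ⌈√m * (y : ℝ) ^ η⌉₊ with hX
  have hXl : √m * (y : ℝ) ^ η ≤ X := Nat.le_ceil _
  have hX1r : 1 ≤ √m * (y : ℝ) ^ η := one_le_mul_of_one_le_of_one_le hsm1 hyη
  have hXu : (X : ℝ) ≤ 2 * (√m * (y : ℝ) ^ η) := by
    have h1 : (X : ℝ) ≤ √m * (y : ℝ) ^ η + 1 := (Nat.ceil_lt_add_one (by positivity)).le
    linarith
  have hX1 : 1 ≤ X := by
    have : (1 : ℝ) ≤ X := hX1r.trans hXl
    exact_mod_cast this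
  have hXpos : (0 : ℝ) < X := by exact_mod_cast hX1
  have hbase : ∀ Y ≤ X, ‖shortSum M χ Y‖ ≤ 0 * Y + √T * √Y := by
    intro Y _
    rw [zero_mul, zero_add, ← Real.sqrt_mul hT0]
    apply Real.le_sqrt_of_sq_le
    have h1 := hPV Y
    have h2 := shortSum_triv χ Y
    rw [pow_two]
    exact mul_le_mul h1 h2 (norm_nonneg _) hT0
  have hGX := G_bound χ (exc χ y) hexcp X 0 (√T) le_rfl (Real.sqrt_nonneg _) hbase X le_rfl
  rw [← hRdef, zero_mul, zero_add] at hGX
  have hE : 2 * r - ε ≤ 4 := by linarith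
  have hlogm : Real.log m ≤ 4 * Real.log y := by
    have h1 : m ≤ (y : ℝ) ^ (4 : ℝ) :=
      hMy.trans (Real.rpow_le_rpow_of_exponent_le hy1 hE)
    have := Real.log_le_log hmpos h1
    rwa [Real.log_rpow hy0] at this
  have hθ : ‖G χ (exc χ y) X‖ ≤ γ * X := by
    refine hGX.trans ?_
    have h1 : R * √T ≤ γ * √X := by
      have h2 : (R * √T) ^ 2 ≤ (γ * √X) ^ 2 := by
        rw [mul_pow, mul_pow, Real.sq_sqrt hT0, Real.sq_sqrt hXpos.le]
        calc R ^ 2 * T ≤ (C₂ * (y : ℝ) ^ β) ^ 2 * (4 * √m * (1 + 4 * Real.log y)) := by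
              rw [hT]
              gcongr
          _ = √m * ((C₂ ^ 2 * (4 * (1 + 4 * Real.log y))) * ((y : ℝ) ^ β) ^ 2) := by ring
          _ ≤ √m * ((γ ^ 2 * (y : ℝ) ^ (3 * η / 4)) * ((y : ℝ) ^ β) ^ 2) := by gcongr
          _ = γ ^ 2 * (√m * (y : ℝ) ^ η) := by
              rw [← Real.rpow_natCast ((y : ℝ) ^ β), ← Real.rpow_mul hy0.le]
              have e1 : (y : ℝ) ^ η = (y : ℝ) ^ (3 * η / 4) * (y : ℝ) ^ (β * ((2 : ℕ) : ℝ)) := by
                rw [← Real.rpow_add hy0]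
                congr 1
                rw [hβ]
                push_cast
                ring
              rw [e1]
              ring
          _ ≤ γ ^ 2 * X := by gcongr
      exact le_of_sq_le_sq h2 (by positivity)
    calc R * (√T * √X) = (R * √T) * √X := by ring
      _ ≤ (γ * √X) * √X := mul_le_mul_of_nonneg_right h1 (Real.sqrt_nonneg _)
      _ = γ * X := by rw [mul_assoc, Real.mul_self_sqrt hXpos.le]
  have hlogX : Real.log X ≤ κ * Real.log y := by
    have h1 : (X : ℝ) ≤ (y : ℝ) ^ κ := by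
      have e1 : √m ≤ (y : ℝ) ^ (r - ε / 2) := by
        calc √m ≤ √((y : ℝ) ^ (2 * r - ε)) := Real.sqrt_le_sqrt hMy
          _ = (y : ℝ) ^ (r - ε / 2) := by
              rw [Real.sqrt_eq_rpow, ← Real.rpow_mul hy0.le]
              congr 1
              ring
      calc (X : ℝ) ≤ 2 * (√m * (y : ℝ) ^ η) := hXu
        _ ≤ (y : ℝ) ^ (ε / 8) * ((y : ℝ) ^ (r - ε / 2) * (y : ℝ) ^ η) := by gcongr
        _ = (y : ℝ) ^ κ := by
            rw [← Real.rpow_add hy0, ← Real.rpow_add hy0]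
            congr 1
            rw [hκ, hη]
            ring
    have := Real.log_le_log hXpos h1
    rwa [Real.log_rpow hy0] at this
  have := hfin M χ y X κ γ (by omega) hX1 hκ1 hlogX hθ
  linarith

end Pool.Agent.K4H57.CI
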