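import Pool.Agent.K4H57.CI.CubD
import Pool.Agent.K4H57.CI.Vin
import Pool.Agent.K4H57.CI.Disc

/-!
# Cubic polynomials which split modulo all small primes
-/

set_option autoImplicit false
set_option maxHeartbeats 4000000

open Filter

namespace Pool.Agent.K4H57.CI

open Pool.Agent.Y692.QS
open Pool.Agent.Y715.T.Rec (cs nn la la_sq)

/-- `X³ - b X² + c X - d` splits modulo `m`. -/
def SplitsMod (m b c d : ℤ) : Prop := ∃ x y z : ℤ, m ∣ b - (x + y + z) ∧
  m ∣ c - (x * y + x * z + y * z) ∧ m ∣ d - x * y * z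

/-- `X³ - b X² + c X - d` splits over the integers. -/
def Splits3 (b c d : ℤ) : Prop := ∃ x y z : ℤ, b = x + y + z ∧
  c = x * y + x * z + y * z ∧ d = x * y * z

lemma norm_id (b c d : ℤ) : (2 * b ^ 3 - 9 * b * c + 27 * d) ^ 2 + 27 * disc3 b c d =
    4 * (b ^ 2 - 3 * c) ^ 3 := by
  unfold disc3
  ring

/-- From a root of the depressed polynomial and the square root of the discriminant. -/
lemma splits_of_root (b c d s t : ℤ) (hD : disc3 b c d = s ^ 2)
    (ht : t ^ 3 - 3 * (b ^ 2 - 3 * c) * t - (2 * b ^ 3 - 9 * b * c + 27 * d) = 0) :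
    Splits3 b c d := by
  have h3 : (3 : ℤ) ∣ b + t := by
    have h1 : (3 : ℤ) ∣ t ^ 3 - 2 * b ^ 3 := by
      refine ⟨(b ^ 2 - 3 * c) * t - 3 * b * c + 9 * d, ?_⟩
      linear_combination ht
    have h2 : ∀ t b : ZMod 3, t ^ 3 - 2 * b ^ 3 = 0 → b + t = 0 := by decide
    have h4 : ((t ^ 3 - 2 * b ^ 3 : ℤ) : ZMod 3) = 0 := (ZMod.intCast_zmod_eq_zero_iff_dvd _ 3).2 h1
    have h5 := h2 (t : ZMod 3) (b : ZMod 3) (by push_cast at h4; exact h4)
    exact (ZMod.intCast_zmod_eq_zero_iff_dvd _ 3).1 (by push_cast; exact h5)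
  obtain ⟨x, hx⟩ := h3
  have ht' : t = 3 * x - b := by linarith
  have hroot : x ^ 3 - b * x ^ 2 + c * x - d = 0 := by
    rw [ht'] at ht
    have h1 : 27 * (x ^ 3 - b * x ^ 2 + c * x - d) = 0 := by linear_combination ht
    omega
  set b' : ℤ := b - x with hb'
  set c' : ℤ := c - x * b' with hc'
  have hd' : d = x * c' := by
    rw [hc', hb']
    linear_combination -hroot
  have hD' : (b' ^ 2 - 4 * c') * (x ^ 2 - b' * x + c') ^ 2 = s ^ 2 := by
    rw [← hD, disc3, hd', show b = x + b' by rw [hb']; ring, show c = x * b' + c' by rw [hc']; ring]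
    ring
  have hsq : ∃ f : ℤ, b' ^ 2 - 4 * c' = f ^ 2 := by
    by_cases hE : x ^ 2 - b' * x + c' = 0
    · exact ⟨2 * x - b', by linear_combination -4 * hE⟩
    · have h1 : (x ^ 2 - b' * x + c') ^ 2 ∣ s ^ 2 :=
        ⟨b' ^ 2 - 4 * c', by linear_combination -hD'⟩
      obtain ⟨f, hf⟩ := (Int.pow_dvd_pow_iff two_ne_zero).1 h1
      refine ⟨f, ?_⟩
      have h2 : (x ^ 2 - b' * x + c') ^ 2 ≠ 0 := pow_ne_zero 2 hE
      apply mul_left_cancel₀ h2
      rw [hf] at hD'
      linear_combination hD'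
  obtain ⟨f, hf⟩ := hsq
  have hpar : (2 : ℤ) ∣ b' + f := by
    have h1 : (2 : ℤ) ∣ b' ^ 2 - f ^ 2 := ⟨2 * c', by linear_combination hf⟩
    have h2 : ∀ b f : ZMod 2, b ^ 2 - f ^ 2 = 0 → b + f = 0 := by decide
    have h4 : ((b' ^ 2 - f ^ 2 : ℤ) : ZMod 2) = 0 := (ZMod.intCast_zmod_eq_zero_iff_dvd _ 2).2 h1
    have h5 := h2 (b' : ZMod 2) (f : ZMod 2) (by push_cast at h4; exact h4)
    exact (ZMod.intCast_zmod_eq_zero_iff_dvd _ 2).1 (by push_cast; exact h5)
  obtain ⟨y, hy⟩ := hpar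
  have hf' : f = 2 * y - b' := by linarith
  have hyc : c' = y * (b' - y) := by
    rw [hf'] at hf
    have : 4 * c' = 4 * (y * (b' - y)) := by linear_combination -hf
    omega
  refine ⟨x, y, b' - y, ?_, ?_, ?_⟩
  · rw [hb']; ring
  · rw [show c = x * b' + c' by rw [hc']; ring, hyc]
    ring
  · rw [hd', hyc]
    ring

lemma cube_re_im (x y z : ℤ) : 2 * (⟨x - z, y - z⟩ : Ei) ^ 3 =
    (((2 * (x + y + z) ^ 3 - 9 * (x + y + z) * (x * y + x * z + y * z) + 27 * (x * y * z) : ℤ)) :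
      Ei) + 3 * (((x - y) * (y - z) * (x - z) : ℤ) : Ei) * la := by
  have e2 : (2 : Ei) = ((2 : ℤ) : Ei) := by norm_num
  have e3 : (3 : Ei) = ((3 : ℤ) : Ei) := by norm_num
  have hla : la = (⟨1, 2⟩ : Ei) := rfl
  rw [e2, e3, hla]
  have hcast : ∀ n : ℤ, (n : Ei) = ⟨n, 0⟩ := by
    intro n
    ext
    · simp
    · simp
  rw [hcast, hcast, hcast, hcast]
  ext
  · rw [QuadraticAlgebra.re_add, mul_re, mul_re, mul_re, mul_im, pow_succ, pow_two, mul_re, mul_im,
      mul_re, mul_im]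
    simp only
    ring
  · rw [QuadraticAlgebra.im_add, mul_im, mul_im, mul_re, mul_im, pow_succ, pow_two, mul_re, mul_im,
      mul_re, mul_im]
    simp only
    ring

/-- The element with the real part `R / 2`. -/
lemma alpha_facts (R s n : ℤ) (h : R ^ 2 + 27 * s ^ 2 = 4 * n ^ 3) : ∃ α : Ei,
    2 * α = (R : Ei) + 3 * (s : Ei) * la ∧ nr α = n ^ 3 ∧ α - star α = 3 * (s : Ei) * la ∧
      2 * α.re - α.im = R := by
  have hpar : (2 : ℤ) ∣ R + 3 * s := by
    have h1 : (2 : ℤ) ∣ R ^ 2 + 27 * s ^ 2 := ⟨2 * n ^ 3, by rw [h]; ring⟩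
    have h2 : ∀ R s : ZMod 2, R ^ 2 + 27 * s ^ 2 = 0 → R + 3 * s = 0 := by decide
    have h4 : ((R ^ 2 + 27 * s ^ 2 : ℤ) : ZMod 2) = 0 :=
      (ZMod.intCast_zmod_eq_zero_iff_dvd _ 2).2 h1
    have h5 := h2 (R : ZMod 2) (s : ZMod 2) (by push_cast at h4; exact h4)
    exact (ZMod.intCast_zmod_eq_zero_iff_dvd _ 2).1 (by push_cast; exact h5)
  obtain ⟨a, ha⟩ := hpar
  have hR : R = 2 * a - 3 * s := by linarith
  have hcast : ∀ n : ℤ, (n : Ei) = ⟨n, 0⟩ := by
    intro n
    ext
    · simp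
    · simp
  have e2 : (2 : Ei) = ((2 : ℤ) : Ei) := by norm_num
  have e3 : (3 : Ei) = ((3 : ℤ) : Ei) := by norm_num
  have hla : la = (⟨1, 2⟩ : Ei) := rfl
  refine ⟨⟨a, 3 * s⟩, ?_, ?_, ?_, ?_⟩
  · rw [e2, e3, hla, hcast, hcast, hcast, hcast]
    ext
    · rw [QuadraticAlgebra.re_add, mul_re, mul_re, mul_re, mul_im]
      simp only
      rw [hR]
      ring
    · rw [QuadraticAlgebra.im_add, mul_im, mul_im, mul_re, mul_im]
      simp only
      ring
  · unfold nr
    simp only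
    have h1 : 4 * (a ^ 2 - a * (3 * s) + (3 * s) ^ 2) = 4 * n ^ 3 := by
      rw [← h, hR]
      ring
    omega
  · rw [e3, hla, hcast, hcast]
    ext
    · rw [QuadraticAlgebra.re_sub, star_re, mul_re, mul_re, mul_im]
      simp only
      ring
    · rw [QuadraticAlgebra.im_sub, star_im, mul_im, mul_re, mul_im]
      simp only
      ring
  · simp only
    rw [hR]

/-- A cube root gives a root of the depressed polynomial. -/
lemma root_of_cube {α γ : Ei} (h : α = γ ^ 3) {n R : ℤ} (hn : nr α = n ^ 3)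
    (hR : 2 * α.re - α.im = R) : ∃ t : ℤ, t ^ 3 - 3 * n * t - R = 0 := by
  have h1 : nr γ = n := by
    rw [h, nr_pow] at hn
    exact (Odd.strictMono_pow (by decide : Odd 3)).injective hn
  refine ⟨2 * γ.re - γ.im, ?_⟩
  have h2 : α.re = (γ ^ 3).re := by rw [h]
  have h3 : α.im = (γ ^ 3).im := by rw [h]
  rw [pow_succ, pow_two, mul_re, mul_re, mul_im] at h2
  rw [pow_succ, pow_two, mul_im, mul_re, mul_im] at h3
  rw [← hR, ← h1, h2, h3]
  unfold nr
  ring

/-- **Cubic polynomials which split modulo all small primes split.** -/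
theorem cubic_split (k : ℕ) (A ε : ℝ) (hε : 0 < ε) : ∀ᶠ y : ℕ in atTop, ∀ b c d B : ℤ,
    B ≠ 0 → (|B| : ℝ) ≤ (y : ℝ) ^ A → (|((b ^ 2 - 3 * c : ℤ) : ℝ)|) ≤ (y : ℝ) ^ A →
    (|((disc3 b c d : ℤ) : ℝ)|) ≤ (y : ℝ) ^ (4 * Real.exp (1 / 2) - ε) →
    (∀ p : ℕ, p.Prime → k < p → p ≤ y → ¬ (p : ℤ) ∣ B → SplitsMod p b c d) →
      Splits3 b c d := by
  wlog hε1 : ε ≤ 1 generalizing ε
  · have h1 := this 1 one_pos le_rfl
    filter_upwards [h1, eventually_ge_atTop 1] with y hy hy1 b c d B hB0 hB hn hD hp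
    refine hy b c d B hB0 hB hn (hD.trans ?_) hp
    apply Real.rpow_le_rpow_of_exponent_le (by exact_mod_cast hy1)
    linarith
  wlog hA : 0 ≤ A generalizing A
  · filter_upwards [this 0 le_rfl, eventually_ge_atTop 1] with y hy hy1 b c d B hB0 hB hn hD hp
    have h2 : (y : ℝ) ^ A ≤ (y : ℝ) ^ (0 : ℝ) := by
      apply Real.rpow_le_rpow_of_exponent_le (by exact_mod_cast hy1)
      linarith
    exact hy b c d B hB0 (hB.trans h2) (hn.trans h2) hD hp
  obtain ⟨he1, he2⟩ := Pool.Agent.R852.BC.exp_half_bounds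
  have hm2 := Pool.Agent.R852.BC.main2 k A ε hε
  have hv := vin (max k 3) (2 * A + 8) (ε / 4) (by positivity)
  have tc : Tendsto (fun q : ℕ => (q : ℝ)) atTop atTop := tendsto_natCast_atTop_atTop
  have f1 : ∀ᶠ x : ℝ in atTop, 9 ≤ x ^ (ε / 4) :=
    (tendsto_rpow_atTop (by positivity : (0 : ℝ) < ε / 4)).eventually_ge_atTop _
  filter_upwards [hm2, hv, tc.eventually f1, eventually_ge_atTop 3]
    with y hm2 hv f1 hy3 b c d B hB0 hB hn hD hp
  have hy3r : (3 : ℝ) ≤ y := by exact_mod_cast hy3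
  have hy0 : (0 : ℝ) < y := by linarith
  have hy1 : (1 : ℝ) ≤ y := by linarith
  set n : ℤ := b ^ 2 - 3 * c with hnd
  set R : ℤ := 2 * b ^ 3 - 9 * b * c + 27 * d with hR
  -- the discriminant is a square
  have hsq : IsSquare (disc3 b c d) := by
    refine hm2 (disc3 b c d) B hB0 hB hD ?_
    intro p hpp hkp hpy hpB
    obtain ⟨x, z, t, h1, h2, h3⟩ := hp p hpp hkp hpy hpB
    refine ⟨(x - z) * (z - t) * (x - t), ?_⟩
    obtain ⟨u1, hu1⟩ := h1
    obtain ⟨u2, hu2⟩ := h2
    obtain ⟨u3, hu3⟩ := h3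
    have e1 : b = x + z + t + p * u1 := by linarith
    have e2 : c = x * z + x * t + z * t + p * u2 := by linarith
    have e3 : d = x * z * t + p * u3 := by linarith
    have e4 : disc3 b c d - ((x - z) * (z - t) * (x - t)) ^ 2 =
      disc3 b c d - disc3 (x + z + t) (x * z + x * t + z * t) (x * z * t) := by
      unfold disc3
      ring
    rw [e4, ← Int.modEq_iff_dvd]
    have m1 : x + z + t ≡ b [ZMOD p] := (Int.modEq_iff_dvd).2 ⟨u1, by rw [e1]; ring⟩
    have m2 : x * z + x * t + z * t ≡ c [ZMOD p] := (Int.modEq_iff_dvd).2 ⟨u2, by rw [e2]; ring⟩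
    have m3 : x * z * t ≡ d [ZMOD p] := (Int.modEq_iff_dvd).2 ⟨u3, by rw [e3]; ring⟩
    unfold disc3
    exact ((((m1.pow 2).mul (m2.pow 2)).sub ((m2.pow 3).mul_left 4)).sub
      (((m1.pow 3).mul_left 4).mul m3)).add (((m1.mul_left 18).mul m2).mul m3) |>.sub
      ((m3.pow 2).mul_left 27)
  obtain ⟨s, hs⟩ := hsq
  rw [← pow_two] at hs
  have hid : R ^ 2 + 27 * s ^ 2 = 4 * n ^ 3 := by
    rw [← hs]
    exact norm_id b c d
  by_cases hs0 : s = 0
  · -- a double root
    rw [hs0] at hid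
    have h1 : R ^ 2 = 4 * n ^ 3 := by linarith
    by_cases hn0 : n = 0
    · have hR0 : R = 0 := by
        rw [hn0] at h1
        have : R ^ 2 = 0 := by rw [h1]; ring
        exact pow_eq_zero_iff two_ne_zero |>.1 this
      exact splits_of_root b c d s 0 hs (by rw [← hnd, ← hR, hn0, hR0]; ring)
    · have h2 : (2 * n) ^ 2 ∣ R ^ 2 := ⟨n, by rw [h1]; ring⟩
      obtain ⟨m, hm⟩ := (Int.pow_dvd_pow_iff two_ne_zero).1 h2
      have h3 : n = m ^ 2 := by
        have h4 : (2 * n) ^ 2 ≠ 0 := pow_ne_zero 2 (by omega)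
        apply mul_left_cancel₀ h4
        rw [hm] at h1
        linear_combination -h1
      exact splits_of_root b c d s (2 * m) hs (by rw [← hnd, ← hR, hm, h3]; ring)
  · obtain ⟨α, hα2, hαn, hαs, hαR⟩ := alpha_facts R s n hid
    have hα0 : α ≠ 0 := by
      rintro rfl
      rw [star_zero, sub_self] at hαs
      have h1 : (3 : Ei) * (s : Ei) * la ≠ 0 := by
        refine mul_ne_zero (mul_ne_zero (by decide) ?_) la_ne
        intro h
        have h2 := congrArg QuadraticAlgebra.re h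
        simp at h2
        exact hs0 h2
      exact h1 hαs.symm
    have hn0 : n ≠ 0 := by
      rintro h
      rw [h, zero_pow (by norm_num)] at hαn
      exact hα0 (nr_zero_iff.1 hαn)
    rcases cube_or_char hα0 hαn hs0 hαs with ⟨γ, hγ⟩ | ⟨χ, hχ1, hχ⟩
    · obtain ⟨t, ht⟩ := root_of_cube hγ hαn hαR
      exact splits_of_root b c d s t hs ht
    · exfalso
      have hsabs : ((s.natAbs : ℕ) : ℝ) = |(s : ℝ)| := by
        rw [Nat.cast_natAbs]
        push_cast
        rfl
      have hs1 : |(s : ℝ)| ≤ (y : ℝ) ^ (2 * Real.exp (1 / 2) - ε / 2) := by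
        have h1 : |(s : ℝ)| ^ 2 ≤ ((y : ℝ) ^ (2 * Real.exp (1 / 2) - ε / 2)) ^ 2 := by
          have h2 : (((disc3 b c d : ℤ) : ℝ)) = (s : ℝ) ^ 2 := by exact_mod_cast hs
          rw [h2, abs_of_nonneg (by positivity)] at hD
          rw [sq_abs, ← Real.rpow_natCast ((y : ℝ) ^ _), ← Real.rpow_mul hy0.le]
          refine hD.trans (le_of_eq ?_)
          congr 1
          push_cast
          ring
        exact le_of_sq_le_sq h1 (by positivity)
      refine hv (9 * s.natAbs) χ (3 * s * n * B) (by omega) hχ1 ?_ ?_ ?_ ?_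
      · push_cast
        rw [hsabs]
        calc 9 * |(s : ℝ)| ≤ (y : ℝ) ^ (ε / 4) * (y : ℝ) ^ (2 * Real.exp (1 / 2) - ε / 2) := by
              gcongr
          _ = (y : ℝ) ^ (2 * Real.exp (1 / 2) - ε / 4) := by
              rw [← Real.rpow_add hy0]
              congr 1
              ring
      · exact mul_ne_zero (mul_ne_zero (mul_ne_zero (by norm_num) hs0) hn0) hB0
      · push_cast
        rw [abs_mul, abs_mul, abs_mul]
        have h1 : |(3 : ℝ)| ≤ (y : ℝ) ^ (1 : ℝ) := by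
          rw [Real.rpow_one, abs_of_nonneg (by norm_num)]
          exact hy3r
        have h2 : |(s : ℝ)| ≤ (y : ℝ) ^ (7 : ℝ) :=
          hs1.trans (Real.rpow_le_rpow_of_exponent_le hy1 (by linarith))
        calc |(3 : ℝ)| * |(s : ℝ)| * |(n : ℝ)| * |(B : ℝ)|
            ≤ (y : ℝ) ^ (1 : ℝ) * (y : ℝ) ^ (7 : ℝ) * (y : ℝ) ^ A * (y : ℝ) ^ A := by gcongr
          _ = (y : ℝ) ^ (2 * A + 8) := by
              rw [← Real.rpow_add hy0, ← Real.rpow_add hy0, ← Real.rpow_add hy0]
              congr 1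
              ring
      · intro p hpp hkp hpy hpd
        have hk : k < p := lt_of_le_of_lt (le_max_left _ _) hkp
        have h3p : 3 < p := lt_of_le_of_lt (le_max_right _ _) hkp
        have hps : ¬ (p : ℤ) ∣ s := fun h => hpd (by
          have : 3 * s * n * B = s * (3 * n * B) := by ring
          rw [this]
          exact Dvd.dvd.mul_right h _)
        have hpn : ¬ (p : ℤ) ∣ n := fun h => hpd (by
          have : 3 * s * n * B = n * (3 * s * B) := by ring
          rw [this]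
          exact Dvd.dvd.mul_right h _)
        have hpB : ¬ (p : ℤ) ∣ B := fun h => hpd (Dvd.dvd.mul_left h _)
        apply hχ p hpp (by omega) hps hpn
        intro ρ hρ hρp
        obtain ⟨x1, x2, x3, h1, h2, h3⟩ := hp p hpp hk hpy hpB
        -- we may suppose that `s` is the product of the differences
        have key : ∀ x y z : ℤ, (p : ℤ) ∣ b - (x + y + z) →
            (p : ℤ) ∣ c - (x * y + x * z + y * z) → (p : ℤ) ∣ d - x * y * z →
            (p : ℤ) ∣ s - (x - y) * (y - z) * (x - z) → ∃ y, ρ ∣ α - y ^ 3 := by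
          intro x y z h1 h2 h3 h4
          refine ⟨⟨x - z, y - z⟩, ?_⟩
          have e1 := cube_re_im x y z
          have e2 : 2 * (α - (⟨x - z, y - z⟩ : Ei) ^ 3) =
              ((R - (2 * (x + y + z) ^ 3 - 9 * (x + y + z) * (x * y + x * z + y * z) +
                27 * (x * y * z)) : ℤ) : Ei) +
                3 * ((s - (x - y) * (y - z) * (x - z) : ℤ) : Ei) * la := by
            have h5 : 2 * (α - (⟨x - z, y - z⟩ : Ei) ^ 3) = 2 * α -
              2 * (⟨x - z, y - z⟩ : Ei) ^ 3 := by ring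
            rw [h5, hα2, e1]
            push_cast
            ring
          have d1 : (p : ℤ) ∣ R - (2 * (x + y + z) ^ 3 -
              9 * (x + y + z) * (x * y + x * z + y * z) + 27 * (x * y * z)) := by
            rw [hR, ← Int.modEq_iff_dvd]
            have m1 : x + y + z ≡ b [ZMOD p] := (Int.modEq_iff_dvd).2 h1
            have m2 : x * y + x * z + y * z ≡ c [ZMOD p] := (Int.modEq_iff_dvd).2 h2
            have m3 : x * y * z ≡ d [ZMOD p] := (Int.modEq_iff_dvd).2 h3
            exact (((m1.pow 3).mul_left 2).sub ((m1.mul_left 9).mul m2)).add (m3.mul_left 27)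
          have d3 : ρ ∣ 2 * (α - (⟨x - z, y - z⟩ : Ei) ^ 3) := by
            rw [e2]
            have hcst : ∀ m : ℤ, (p : ℤ) ∣ m → ρ ∣ (m : Ei) := by
              intro m hm
              refine hρp.trans ?_
              have h4 : (((p : ℤ) : Ei)) ∣ (m : Ei) := int_dvd_int.2 hm
              simpa using h4
            exact dvd_add (hcst _ d1) (Dvd.dvd.mul_right (Dvd.dvd.mul_left (hcst _ h4) _) _)
          rcases hρ.dvd_or_dvd d3 with h5 | h5
          · exfalso
            have h6 : Nat.Coprime 2 p := (Nat.coprime_primes Nat.prime_two hpp).2 (by omega)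
            exact Pool.Agent.Y274.CT.coprime_dvd hρ h6 (by exact_mod_cast h5) hρp
          · exact h5
        have hdd : (p : ℤ) ∣ (s - (x1 - x2) * (x2 - x3) * (x1 - x3)) *
            (s - (x1 - x3) * (x3 - x2) * (x1 - x2)) := by
          have m1 : x1 + x2 + x3 ≡ b [ZMOD p] := (Int.modEq_iff_dvd).2 h1
          have m2 : x1 * x2 + x1 * x3 + x2 * x3 ≡ c [ZMOD p] := (Int.modEq_iff_dvd).2 h2
          have m3 : x1 * x2 * x3 ≡ d [ZMOD p] := (Int.modEq_iff_dvd).2 h3
          have m4 : disc3 (x1 + x2 + x3) (x1 * x2 + x1 * x3 + x2 * x3) (x1 * x2 * x3) ≡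
              disc3 b c d [ZMOD p] := by
            unfold disc3
            exact ((((m1.pow 2).mul (m2.pow 2)).sub ((m2.pow 3).mul_left 4)).sub
              (((m1.pow 3).mul_left 4).mul m3)).add (((m1.mul_left 18).mul m2).mul m3) |>.sub
              ((m3.pow 2).mul_left 27)
          have h4 := (Int.modEq_iff_dvd).1 m4
          rw [hs] at h4
          have e5 : (s - (x1 - x2) * (x2 - x3) * (x1 - x3)) *
            (s - (x1 - x3) * (x3 - x2) * (x1 - x2)) = s ^ 2 -
              disc3 (x1 + x2 + x3) (x1 * x2 + x1 * x3 + x2 * x3) (x1 * x2 * x3) := by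
            unfold disc3
            ring
          rw [e5]
          exact h4
        rcases Int.Prime.dvd_mul' hpp hdd with h4 | h4
        · exact key x1 x2 x3 h1 h2 h3 h4
        · refine key x1 x3 x2 ?_ ?_ ?_ h4
          · have : b - (x1 + x3 + x2) = b - (x1 + x2 + x3) := by ring
            rwa [this]
          · have : c - (x1 * x3 + x1 * x2 + x3 * x2) = c - (x1 * x2 + x1 * x3 + x2 * x3) := by ring
            rwa [this]
          · have : d - x1 * x3 * x2 = d - x1 * x2 * x3 := by ring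
            rwa [this]

end Pool.Agent.K4H57.CI
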