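import Pool.Agent.R920.CH.Defs

/-!
# Smooth subvarieties of any codimension: the numerical conditions
-/

set_option autoImplicit false

open Polynomial

namespace Pool.Agent.K4H57.CI

open Pool.Agent.R920.CH

/-- The alternating sum `∑ (-1) ^ |S| f (a_S)` over all subfamilies `S` of the family of the complex
roots of `P` (with their multiplicities), where `a_S` is the sum of the members of `S`. -/
noncomputable def altSum (P : ℤ[X]) (f : ℚ[X]) : ℂ :=
  ((rootsOf P).powerset.map fun S => (-1) ^ Multiset.card S * aeval S.sum f).sum

/-- The Riemann-Roch conditions for a smooth subvariety `X` of `ℙ ^ N` of codimension `r` whose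
normal bundle has the Chern roots `a₁, …, a_r` (times the class of a hyperplane), the roots of the
polynomial `P`: for every integer-valued polynomial `f` of degree at most `N` the alternating sum of
the values `f (a_S)` is an integer. For `f = binom (m + N - x, N)` this sum is `χ (X, 𝒪_X (m))`. -/
def RiemannRochSub (N : ℕ) (P : ℤ[X]) : Prop :=
  ∀ f : ℚ[X], IsIntegerValued f → f.natDegree ≤ N → ∃ z : ℤ, altSum P f = z

/-- The polynomial `∑ (-1) ^ i c i (T - 1) ^ (r - i)`: if `c i` are the Chern classes of the bundle
`N_X (-1)` of rank `r`, then its roots are the Chern roots of `N_X`. -/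
noncomputable def chernPoly (r : ℕ) (c : ℕ → ℤ) : ℤ[X] :=
  ∑ i ∈ Finset.range (r + 1), C ((-1) ^ i * c i) * (X - 1) ^ (r - i)

end Pool.Agent.K4H57.CI
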