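import Pool.Agent.K4H57.CI.Int

/-!
# Smooth subvarieties of any codimension with small canonical class
-/

set_option autoImplicit false

open Polynomial

namespace Pool.Agent.K4H57.CI

open Pool.Agent.R920.CH

section poly

variable (r : ℕ) (c : ℕ → ℤ) (h0 : c 0 = 1)

include h0 in
lemma chernPoly_eq : chernPoly r c = (X - 1) ^ r +
    ∑ i ∈ Finset.range r, C ((-1) ^ (i + 1) * c (i + 1)) * (X - 1) ^ (r - (i + 1)) := by
  rw [chernPoly, Finset.sum_range_succ', add_comm]
  simp [h0]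

lemma natDegree_aux (k : ℕ) (z : ℤ) : (C z * (X - 1) ^ k : ℤ[X]).degree ≤ k := by
  have h1 : (C z * (X - 1) ^ k : ℤ[X]).natDegree ≤ k := by
    refine (natDegree_C_mul_le _ _).trans ?_
    refine natDegree_pow_le.trans ?_
    have h2 : (X - 1 : ℤ[X]).natDegree ≤ 1 := by
      have := natDegree_X_sub_C (1 : ℤ)
      rw [map_one] at this
      exact this.le
    calc k * (X - 1 : ℤ[X]).natDegree ≤ k * 1 := Nat.mul_le_mul_left _ h2
      _ = k := mul_one _
  exact degree_le_of_natDegree_le h1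

include h0 in
lemma chernPoly_monic : (chernPoly r c).Monic ∧ (chernPoly r c).natDegree = r := by
  have hm : ((X - 1 : ℤ[X]) ^ r).Monic := by
    have := (monic_X_sub_C (1 : ℤ)).pow r
    rwa [map_one] at this
  have hd : ((X - 1 : ℤ[X]) ^ r).degree = r := by
    have h1 : ((X - 1 : ℤ[X]) ^ r).natDegree = r := by
      have h2 := natDegree_X_sub_C (1 : ℤ)
      rw [map_one] at h2
      have h3 : (X - 1 : ℤ[X]).Monic := by
        have := monic_X_sub_C (1 : ℤ)
        rwa [map_one] at this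
      rw [h3.natDegree_pow, h2, mul_one]
    rw [degree_eq_natDegree hm.ne_zero, h1]
  have hlt : (∑ i ∈ Finset.range r,
      C ((-1) ^ (i + 1) * c (i + 1)) * (X - 1 : ℤ[X]) ^ (r - (i + 1))).degree < r := by
    rcases Nat.eq_zero_or_pos r with hr | hr
    · subst hr
      simp
    · refine (degree_sum_le _ _).trans_lt ?_
      rw [Finset.sup_lt_iff (by exact_mod_cast WithBot.bot_lt_coe r)]
      intro i hi
      rw [Finset.mem_range] at hi
      refine (natDegree_aux _ _).trans_lt ?_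
      exact_mod_cast (by omega : r - (i + 1) < r)
  rw [chernPoly_eq r c h0]
  constructor
  · exact hm.add_of_left (by rw [hd]; exact hlt)
  · have h1 : ((X - 1 : ℤ[X]) ^ r + ∑ i ∈ Finset.range r,
        C ((-1) ^ (i + 1) * c (i + 1)) * (X - 1 : ℤ[X]) ^ (r - (i + 1))).degree =
          ((r : ℕ) : WithBot ℕ) := by
      rw [degree_add_eq_left_of_degree_lt (by rw [hd]; exact hlt), hd]
    exact natDegree_eq_of_degree_eq_some h1

lemma aeval_chernPoly (x : ℂ) : aeval x (chernPoly r c) =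
    ∑ i ∈ Finset.range (r + 1), ((-1) ^ i * c i : ℂ) * (x - 1) ^ (r - i) := by
  rw [chernPoly, map_sum]
  refine Finset.sum_congr rfl fun i _ => ?_
  rw [map_mul, map_pow, map_sub, aeval_X, map_one, aeval_C]
  simp

include h0 in
lemma root_bound (hpos : ∀ i ≤ r, 0 ≤ c i) (hle : ∀ i ≤ r, c i ≤ c 1 ^ i) (h1r : 1 ≤ r) (x : ℂ)
    (hx : aeval x (chernPoly r c) = 0) : ‖x - 1‖ ≤ 2 * c 1 := by
  set y : ℂ := x - 1 with hy
  have he : (0 : ℝ) ≤ c 1 := by exact_mod_cast hpos 1 h1r
  by_contra hlt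
  push Not at hlt
  have hy0 : 0 < ‖y‖ := lt_of_le_of_lt (by positivity) hlt
  rw [aeval_chernPoly, Finset.sum_range_succ'] at hx
  rw [h0] at hx
  have h2 : y ^ r = - ∑ i ∈ Finset.range r,
      ((-1) ^ (i + 1) * c (i + 1) : ℂ) * y ^ (r - (i + 1)) := by
    rw [← hy] at hx
    simp only [pow_zero, Int.cast_one, one_mul, Nat.sub_zero] at hx
    linear_combination hx
  have h3 : ‖y‖ ^ r ≤ ∑ i ∈ Finset.range r, (c 1 : ℝ) ^ (i + 1) * ‖y‖ ^ (r - (i + 1)) := by
    rw [← norm_pow, h2, norm_neg]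
    refine (norm_sum_le _ _).trans (Finset.sum_le_sum fun i hi => ?_)
    rw [Finset.mem_range] at hi
    rw [norm_mul, norm_mul, norm_pow, norm_neg, norm_one, one_pow, one_mul, norm_pow]
    refine mul_le_mul_of_nonneg_right ?_ (by positivity)
    rw [Complex.norm_intCast]
    have h4 : |c (i + 1)| ≤ c 1 ^ (i + 1) := by
      rw [abs_of_nonneg (hpos _ (by omega))]
      exact hle _ (by omega)
    calc |(c (i + 1) : ℝ)| = ((|c (i + 1)| : ℤ) : ℝ) := by rw [Int.cast_abs]
      _ ≤ ((c 1 ^ (i + 1) : ℤ) : ℝ) := by exact_mod_cast h4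
      _ = (c 1 : ℝ) ^ (i + 1) := by push_cast; ring
  have h4 : ∀ i ∈ Finset.range r, (c 1 : ℝ) ^ (i + 1) * ‖y‖ ^ (r - (i + 1)) ≤
      ‖y‖ ^ r * (1 / 2) ^ (i + 1) := by
    intro i hi
    rw [Finset.mem_range] at hi
    have h5 : ‖y‖ ^ r = ‖y‖ ^ (i + 1) * ‖y‖ ^ (r - (i + 1)) := by
      rw [← pow_add]
      congr 1
      omega
    rw [h5]
    have h6 : (c 1 : ℝ) ^ (i + 1) ≤ (‖y‖ * (1 / 2)) ^ (i + 1) := by
      apply pow_le_pow_left₀ he
      linarith
    rw [mul_pow] at h6
    calc (c 1 : ℝ) ^ (i + 1) * ‖y‖ ^ (r - (i + 1))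
        ≤ (‖y‖ ^ (i + 1) * (1 / 2) ^ (i + 1)) * ‖y‖ ^ (r - (i + 1)) :=
          mul_le_mul_of_nonneg_right h6 (by positivity)
      _ = _ := by ring
  have h5 : ∑ i ∈ Finset.range r, ‖y‖ ^ r * (1 / 2 : ℝ) ^ (i + 1) < ‖y‖ ^ r := by
    rw [← Finset.mul_sum]
    have h6 : ∑ i ∈ Finset.range r, (1 / 2 : ℝ) ^ (i + 1) = 1 - (1 / 2) ^ r := by
      clear h4 h3 h2 hx hle hpos h1r
      induction r with
      | zero => simp
      | succ r ih =>
        rw [Finset.sum_range_succ, ih]
        ring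
    rw [h6]
    have h7 : (0 : ℝ) < (1 / 2) ^ r := by positivity
    have h8 : 0 < ‖y‖ ^ r := by positivity
    nlinarith
  exact lt_irrefl _ ((h3.trans (Finset.sum_le_sum h4)).trans_lt h5)

include h0 in
/-- There is no root which is an integer smaller than `1`. -/
lemma root_pos (hpos : ∀ i ≤ r, 0 ≤ c i) (x : ℤ) (hx : (chernPoly r c).eval x = 0) : 1 ≤ x := by
  by_contra hlt
  push Not at hlt
  have h1 : (chernPoly r c).eval x = ∑ i ∈ Finset.range (r + 1),
      ((-1) ^ i * c i) * (x - 1) ^ (r - i) := by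
    rw [chernPoly, eval_finsetSum]
    refine Finset.sum_congr rfl fun i _ => ?_
    simp
  have h2 : (-1) ^ r * (chernPoly r c).eval x =
      ∑ i ∈ Finset.range (r + 1), c i * (1 - x) ^ (r - i) := by
    rw [h1, Finset.mul_sum]
    refine Finset.sum_congr rfl fun i hi => ?_
    rw [Finset.mem_range] at hi
    have h3 : ((-1 : ℤ)) ^ r = (-1) ^ (r - i) * (-1) ^ i := by
      rw [← pow_add]
      congr 1
      omega
    have h4 : (x - 1) ^ (r - i) = (-1) ^ (r - i) * (1 - x) ^ (r - i) := by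
      rw [← mul_pow]
      congr 1
      ring
    have h5 : ((-1 : ℤ)) ^ i * (-1) ^ i = 1 := by rw [← mul_pow]; simp
    have h6 : ((-1 : ℤ)) ^ (r - i) * (-1) ^ (r - i) = 1 := by rw [← mul_pow]; simp
    rw [h3, h4]
    calc (-1) ^ (r - i) * (-1) ^ i * ((-1) ^ i * c i * ((-1) ^ (r - i) * (1 - x) ^ (r - i)))
        = ((-1 : ℤ) ^ i * (-1) ^ i) * ((-1) ^ (r - i) * (-1) ^ (r - i)) *
          (c i * (1 - x) ^ (r - i)) := by ring
      _ = _ := by rw [h5, h6]; ring
  rw [hx, mul_zero, Finset.sum_range_succ', h0] at h2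
  have h3 : 0 ≤ ∑ i ∈ Finset.range r, c (i + 1) * (1 - x) ^ (r - (i + 1)) := by
    refine Finset.sum_nonneg fun i hi => mul_nonneg (hpos _ ?_) (by
      have : 0 ≤ 1 - x := by linarith
      positivity)
    rw [Finset.mem_range] at hi
    omega
  have h4 : 0 < (1 - x) ^ (r - 0) := by
    have : 0 < 1 - x := by linarith
    positivity
  linarith

end poly

/-- The sums of subfamilies are near half of the total sum. -/
lemma norm_sub_half (s S : Multiset ℂ) (hS : S ∈ s.powerset) (B : ℝ)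
    (hB : ∀ a ∈ s, ‖a‖ ≤ B) : ‖S.sum - s.sum / 2‖ ≤ Multiset.card s * B / 2 := by
  rw [Multiset.mem_powerset] at hS
  obtain ⟨T, hT⟩ := Multiset.le_iff_exists_add.1 hS
  have h1 : S.sum - s.sum / 2 = (S.sum - T.sum) / 2 := by
    rw [hT, Multiset.sum_add]
    ring
  have h2 : ∀ U : Multiset ℂ, (∀ a ∈ U, ‖a‖ ≤ B) → ‖U.sum‖ ≤ Multiset.card U * B := by
    intro U hU
    have := sum_norm_le U id B hU
    rwa [Multiset.map_id] at this
  have h3 := h2 S fun a ha => hB a (Multiset.mem_of_le hS ha)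
  have h4 := h2 T fun a ha => hB a (by rw [hT]; exact Multiset.mem_add.2 (Or.inr ha))
  have h5 : (Multiset.card s : ℝ) = Multiset.card S + Multiset.card T := by
    rw [hT, Multiset.card_add]
    push_cast
    ring
  rw [h1, norm_div, Complex.norm_two, h5]
  have h6 := norm_sub_le S.sum T.sum
  linarith

/-- **Small canonical class, any codimension.** -/
theorem small_class (r N : ℕ) (hr : 1 ≤ r) (c : ℕ → ℤ) (h0 : c 0 = 1)
    (hpos : ∀ i ≤ r, 0 ≤ c i) (hle : ∀ i ≤ r, c i ≤ c 1 ^ i)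
    (hN : 61 * 2 ^ r + 10 * r * (c 1 + 1) ≤ (N : ℤ))
    (hRR : RiemannRochSub N (chernPoly r c)) :
    ∃ a : Multiset ℤ, (∀ x ∈ a, 1 ≤ x) ∧ Multiset.card a = r ∧
      chernPoly r c = (a.map fun x => X - C x).prod := by
  obtain ⟨hM, hD⟩ := chernPoly_monic r c h0
  have he : 0 ≤ c 1 := hpos 1 hr
  obtain ⟨e, hee⟩ := Int.eq_ofNat_of_zero_le he
  have hcard : Multiset.card (rootsOf (chernPoly r c)) = r := by
    rw [rootsOf, splits_iff_card_roots.1 (IsAlgClosed.splits _), hM.natDegree_map, hD]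
  have hroot : ∀ x ∈ rootsOf (chernPoly r c), aeval x (chernPoly r c) = 0 := by
    intro x hx
    rw [rootsOf, mem_roots (hM.map _).ne_zero, IsRoot, eval_map] at hx
    exact hx
  have hnorm : ∀ x ∈ rootsOf (chernPoly r c), ‖x‖ ≤ 2 * e + 1 := by
    intro x hx
    have h1 := root_bound r c h0 hpos hle hr x (hroot x hx)
    rw [hee] at h1
    have h2 : ‖x‖ ≤ ‖x - 1‖ + ‖(1 : ℂ)‖ := by
      calc ‖x‖ = ‖(x - 1) + 1‖ := by ring_nf
        _ ≤ _ := norm_add_le _ _
    rw [norm_one] at h2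
    push_cast at h1
    linarith
  have hne : ∀ x ∈ rootsOf (chernPoly r c), x ≠ 0 := by
    intro x hx h
    have h1 := hroot x hx
    rw [h] at h1
    have h2 : (chernPoly r c).eval 0 = 0 := by
      have h3 : aeval (0 : ℂ) (chernPoly r c) = (((chernPoly r c).eval 0 : ℤ) : ℂ) := by
        have h4 := Polynomial.aeval_algebraMap_apply ℂ (0 : ℤ) (chernPoly r c)
        rw [map_zero, Polynomial.coe_aeval_eq_eval] at h4
        rw [h4]
        simp
      rw [h3] at h1
      exact_mod_cast h1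
    have := root_pos r c h0 hpos 0 h2
    omega
  -- the sum of all roots
  obtain ⟨m, hm⟩ : ∃ m : ℤ, (rootsOf (chernPoly r c)).sum = m := by
    refine ⟨- (chernPoly r c).nextCoeff, ?_⟩
    have h1 := (IsAlgClosed.splits ((chernPoly r c).map (Int.castRingHom ℂ)))
    have h2 := h1.nextCoeff_eq_neg_sum_roots_of_monic (hM.map (Int.castRingHom ℂ))
    rw [nextCoeff_map (f := Int.castRingHom ℂ) Int.cast_injective] at h2
    rw [rootsOf]
    push_cast
    rw [eq_neg_iff_add_eq_zero, add_comm, ← eq_neg_iff_add_eq_zero, ← h2]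
    simp
  set c₀ : ℤ := m / 2 with hc₀
  have hhalf : ‖(m : ℂ) / 2 - c₀‖ ≤ 1 / 2 := by
    have h1 : m = 2 * c₀ + m % 2 := by omega
    have h2 : m % 2 = 0 ∨ m % 2 = 1 := by omega
    have h3 : (m : ℂ) / 2 - c₀ = ((m % 2 : ℤ) : ℂ) / 2 := by
      have h4 : (m : ℂ) = 2 * c₀ + ((m % 2 : ℤ) : ℂ) := by exact_mod_cast h1
      rw [h4]
      ring
    rw [h3]
    rcases h2 with h2 | h2 <;> rw [h2] <;> norm_num
  set R : ℕ := r * (e + 1) with hRdef
  have hRb : ∀ S ∈ (rootsOf (chernPoly r c)).powerset, ‖S.sum - c₀‖ ≤ R := by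
    intro S hS
    have h1 := norm_sub_half _ S hS (2 * e + 1) hnorm
    rw [hm, hcard] at h1
    have h2 : ‖S.sum - c₀‖ ≤ ‖S.sum - m / 2‖ + ‖(m : ℂ) / 2 - c₀‖ := by
      calc ‖S.sum - c₀‖ = ‖(S.sum - m / 2) + ((m : ℂ) / 2 - c₀)‖ := by ring_nf
        _ ≤ _ := norm_add_le _ _
    have h3 : (R : ℝ) = r * (e + 1) := by rw [hRdef]; push_cast; ring
    have h4 : (1 : ℝ) ≤ r := by exact_mod_cast hr
    have h5 : (0 : ℝ) ≤ e := by positivity
    rw [h3]
    nlinarith
  have hsupp := support_int (N := N) (h := 30 * 2 ^ r + 5 * R) (R := R) (chernPoly r c) hM hD hRR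
    (by omega) (by omega) (by
      have h1 : (61 * 2 ^ r + 10 * R : ℤ) ≤ N := by
        rw [hRdef]
        push_cast
        rw [hee] at hN
        push_cast at hN
        linarith
      have h2 : 61 * 2 ^ r + 10 * R ≤ N := by exact_mod_cast h1
      omega) c₀ hRb
  have hint := int_of_support (rootsOf (chernPoly r c)) hne hsupp
  obtain ⟨a, ha⟩ := splits_of (chernPoly r c) hM hint
  refine ⟨a, ?_, ?_, ha⟩
  · intro x hx
    apply root_pos r c h0 hpos
    rw [ha, eval_multiset_prod, Multiset.prod_eq_zero_iff, Multiset.map_map, Multiset.mem_map]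
    exact ⟨x, hx, by simp⟩
  · have h1 := congrArg natDegree ha
    rw [hD] at h1
    rw [h1]
    have h2 := natDegree_multiset_prod_X_sub_C_eq_card a
    exact h2.symm

/-- The Chern classes in terms of the roots. -/
lemma chern_eq (r : ℕ) (c : ℕ → ℤ) (a : Multiset ℤ) (ha : Multiset.card a = r)
    (h : chernPoly r c = (a.map fun x => X - C x).prod) (i : ℕ) (hi : i ≤ r) :
    c i = (a.map fun x => x - 1).esymm i := by
  have h1 : (chernPoly r c).comp (X + 1) = ∑ i ∈ Finset.range (r + 1),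
      C ((-1) ^ i * c i) * X ^ (r - i) := by
    rw [chernPoly, sum_comp]
    refine Finset.sum_congr rfl fun i _ => ?_
    rw [mul_comp, C_comp, pow_comp, sub_comp, X_comp, one_comp]
    congr 2
    ring
  have h2 : ((a.map fun x => X - C x).prod : ℤ[X]).comp (X + 1) =
      ((a.map fun x => x - 1).map fun x => X - C x).prod := by
    rw [multiset_prod_comp, Multiset.map_map, Multiset.map_map]
    refine congrArg Multiset.prod (Multiset.map_congr rfl fun x _ => ?_)
    show (X - C x : ℤ[X]).comp (X + 1) = X - C (x - 1)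
    rw [sub_comp, X_comp, C_comp, C_sub, C_1]
    ring
  have h3 := congrArg (fun p : ℤ[X] => p.coeff (r - i)) (h1.symm.trans ((congrArg
    (fun p : ℤ[X] => p.comp (X + 1)) h).trans h2))
  have h4 : Multiset.card (a.map fun x => x - 1) = r := by rw [Multiset.card_map, ha]
  have h5 := Multiset.prod_X_sub_C_coeff (a.map fun x => x - 1) (k := r - i) (by rw [h4]; omega)
  have h6 : (∑ i ∈ Finset.range (r + 1), C ((-1) ^ i * c i) * X ^ (r - i) : ℤ[X]).coeff (r - i) =
      (-1) ^ i * c i := by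
    rw [finsetSum_coeff, Finset.sum_eq_single i]
    · rw [coeff_C_mul, coeff_X_pow, if_pos rfl, mul_one]
    · intro j hj hji
      rw [Finset.mem_range] at hj
      rw [coeff_C_mul, coeff_X_pow, if_neg (by omega), mul_zero]
    · intro h
      exact absurd (Finset.mem_range.2 (by omega)) h
  have h7 : (-1) ^ i * c i = (-1) ^ (Multiset.card (a.map fun x => x - 1) - (r - i)) *
      (a.map fun x => x - 1).esymm (Multiset.card (a.map fun x => x - 1) - (r - i)) := by
    rw [← h5, ← h6]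
    exact h3
  rw [h4, show r - (r - i) = i by omega] at h7
  have h8 : ((-1 : ℤ)) ^ i * (-1) ^ i = 1 := by rw [← mul_pow]; simp
  calc c i = ((-1 : ℤ) ^ i * (-1) ^ i) * c i := by rw [h8, one_mul]
    _ = (-1) ^ i * ((-1) ^ i * c i) := by ring
    _ = ((-1 : ℤ) ^ i * (-1) ^ i) * (a.map fun x => x - 1).esymm i := by rw [h7]; ring
    _ = _ := by rw [h8, one_mul]

/-- The degree in terms of the roots. -/
lemma degree_eq (r : ℕ) (c : ℕ → ℤ) (a : Multiset ℤ) (ha : Multiset.card a = r)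
    (h : chernPoly r c = (a.map fun x => X - C x).prod) :
    ∑ i ∈ Finset.range (r + 1), c i = a.prod := by
  have h1 := congrArg (eval 0) h
  have h2 : (chernPoly r c).eval 0 = (-1) ^ r * ∑ i ∈ Finset.range (r + 1), c i := by
    rw [chernPoly, eval_finsetSum, Finset.mul_sum]
    refine Finset.sum_congr rfl fun i hi => ?_
    rw [Finset.mem_range] at hi
    rw [eval_mul, eval_C, eval_pow, eval_sub, eval_X, eval_one, zero_sub]
    have h3 : ((-1 : ℤ)) ^ r = (-1) ^ (r - i) * (-1) ^ i := by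
      rw [← pow_add]
      congr 1
      omega
    rw [h3]
    ring
  have h3 : (a.map fun x => X - C x).prod.eval 0 = (-1) ^ r * a.prod := by
    rw [eval_multiset_prod, Multiset.map_map, ← ha]
    clear h h1 h2 ha
    induction a using Multiset.induction_on with
    | empty => simp
    | cons x a ih =>
      rw [Multiset.map_cons, Multiset.prod_cons, ih, Multiset.prod_cons, Multiset.card_cons,
        pow_succ]
      simp
      ring
  rw [h2, h3] at h1
  have h4 : ((-1 : ℤ)) ^ r ≠ 0 := by positivity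
  exact mul_left_cancel₀ h4 h1

end Pool.Agent.K4H57.CI
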