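import Pool.Agent.K4H57.CI.Supp

/-!
# The Chern roots are integers if the support of the family of the sums is integral
-/

set_option autoImplicit false

open Polynomial

namespace Pool.Agent.K4H57.CI

open Pool.Agent.R920.CH

/-- Fibrewise summation. -/
lemma sum_fiber {α : Type*} (w v : α → ℂ) (H : ℂ → ℂ) (n : ℕ) : ∀ s : Multiset α,
    Multiset.card s = n →
    (∀ x, H x = 0 ∨ ((s.filter fun y => v y = x).map w).sum = 0) →
    (s.map fun y => w y * H (v y)).sum = 0 := by
  classical
  induction n using Nat.strong_induction_on with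
  | _ n ih =>
    intro s hs h
    rcases s.empty_or_exists_mem with h0 | ⟨y, hy⟩
    · rw [h0]
      simp
    · set x := v y with hx
      have hlt : Multiset.card (s.filter fun y => ¬ v y = x) < n := by
        have h1 := congrArg Multiset.card (Multiset.filter_add_not (fun y => v y = x) s)
        rw [Multiset.card_add, hs] at h1
        have h2 : 0 < Multiset.card (s.filter fun y => v y = x) := by
          rw [Multiset.card_pos_iff_exists_mem]
          exact ⟨y, Multiset.mem_filter.2 ⟨hy, rfl⟩⟩
        omega
      have h3 := ih _ hlt (s.filter fun y => ¬ v y = x) rfl (by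
        intro z
        rcases h z with h | h
        · exact Or.inl h
        · right
          rw [Multiset.filter_filter]
          by_cases hz : z = x
          · have : (s.filter fun a => v a = z ∧ ¬ v a = x) = 0 := by
              rw [Multiset.filter_eq_nil]
              intro a _ ha
              exact ha.2 (ha.1.trans hz)
            rw [this]
            simp
          · have : (s.filter fun a => v a = z ∧ ¬ v a = x) = s.filter fun a => v a = z := by
              refine Multiset.filter_congr fun a _ => ?_
              constructor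
              · exact fun h => h.1
              · exact fun h => ⟨h, fun h' => hz (h.symm.trans h')⟩
            rw [this]
            exact h)
      rw [← Multiset.filter_add_not (fun y => v y = x) s, Multiset.map_add, Multiset.sum_add, h3,
        add_zero]
      have h4 : ((s.filter fun y => v y = x).map fun y => w y * H (v y)).sum =
          ((s.filter fun y => v y = x).map w).sum * H x := by
        rw [← Multiset.sum_map_mul_right]
        refine congrArg Multiset.sum (Multiset.map_congr rfl fun a ha => ?_)
        rw [(Multiset.mem_filter.1 ha).2]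
      rw [h4]
      rcases h x with h | h
      · rw [h, mul_zero]
      · rw [h, zero_mul]

/-- The alternating sum of a multiplicative function. -/
lemma altSum_mul {R : Type*} [CommRing R] (G : ℂ → R) (h0 : G 0 = 1)
    (hG : ∀ a b, G (a + b) = G a * G b) (s : Multiset ℂ) :
    (s.powerset.map fun S => (-1) ^ Multiset.card S * G S.sum).sum =
      (s.map fun a => 1 - G a).prod := by
  induction s using Multiset.induction_on with
  | empty => simp [h0]
  | cons a s ih =>
    have h1 : (s.powerset.map ((fun S => (-1) ^ Multiset.card S * G S.sum) ∘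
        Multiset.cons a)).sum = (- G a) * (s.powerset.map fun S =>
          (-1) ^ Multiset.card S * G S.sum).sum := by
      rw [← Multiset.sum_map_mul_left]
      refine congrArg Multiset.sum (Multiset.map_congr rfl fun S _ => ?_)
      show (-1) ^ Multiset.card (a ::ₘ S) * G (a ::ₘ S).sum = _
      rw [Multiset.card_cons, Multiset.sum_cons, hG]
      ring
    rw [Multiset.powerset_cons, Multiset.map_add, Multiset.sum_add, Multiset.map_map, h1,
      Multiset.map_cons, Multiset.prod_cons, ← ih]
    ring

lemma coeff_zero_exp (a : ℂ) :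
    PowerSeries.coeff 0 (PowerSeries.rescale a (PowerSeries.exp ℂ)) = 1 := by
  rw [PowerSeries.coeff_rescale, PowerSeries.coeff_exp]
  simp

/-- The order of the product of the series `1 - χ(a) e^{a X}`. -/
lemma order_prod (χ : ℂ → ℂ) (s : Multiset ℂ) (hs : ∀ a ∈ s, a ≠ 0) :
    (s.map fun a => (1 : PowerSeries ℂ) -
        PowerSeries.C (χ a) * PowerSeries.rescale a (PowerSeries.exp ℂ)).prod ≠ 0 ∧
    (s.map fun a => (1 : PowerSeries ℂ) -
        PowerSeries.C (χ a) * PowerSeries.rescale a (PowerSeries.exp ℂ)).prod.order ≤
      (Multiset.card (s.filter fun a => χ a = 1) : ℕ∞) := by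
  classical
  induction s using Multiset.induction_on with
  | empty => simp
  | cons a s ih =>
    obtain ⟨ih1, ih2⟩ := ih fun b hb => hs b (Multiset.mem_cons_of_mem hb)
    rw [Multiset.map_cons, Multiset.prod_cons]
    set F : PowerSeries ℂ := (1 : PowerSeries ℂ) -
        PowerSeries.C (χ a) * PowerSeries.rescale a (PowerSeries.exp ℂ) with hF
    have c0 : PowerSeries.coeff 0 F = 1 - χ a := by
      rw [hF, map_sub, PowerSeries.coeff_C_mul, coeff_zero_exp, mul_one]
      simp
    have c1 : PowerSeries.coeff 1 F = - (χ a * a) := by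
      rw [hF, map_sub, PowerSeries.coeff_C_mul, PowerSeries.coeff_rescale, PowerSeries.coeff_exp]
      simp [PowerSeries.coeff_one]
    by_cases h1 : χ a = 1
    · have c2 : PowerSeries.coeff 1 F ≠ 0 := by
        rw [c1, h1, one_mul]
        exact neg_ne_zero.2 (hs a (Multiset.mem_cons_self a s))
      have hF0 : F ≠ 0 := by
        intro h
        rw [h] at c2
        simp at c2
      refine ⟨mul_ne_zero hF0 ih1, ?_⟩
      rw [PowerSeries.order_mul, Multiset.filter_cons_of_pos (p := fun a => χ a = 1) s h1, Multiset.card_cons,
        add_comm]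
      push_cast
      refine add_le_add ih2 ?_
      exact_mod_cast PowerSeries.order_le 1 c2
    · have c2 : PowerSeries.coeff 0 F ≠ 0 := by
        rw [c0, sub_ne_zero]
        exact fun h => h1 h.symm
      have hF0 : F ≠ 0 := by
        intro h
        rw [h] at c2
        simp at c2
      refine ⟨mul_ne_zero hF0 ih1, ?_⟩
      rw [PowerSeries.order_mul, Multiset.filter_cons_of_neg (p := fun a => χ a = 1) s h1]
      have h2 : F.order ≤ (0 : ℕ) := PowerSeries.order_le 0 c2
      have h3 : F.order = 0 := by
        rw [Nat.cast_zero] at h2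
        exact le_antisymm h2 (by simp)
      rw [h3, zero_add]
      exact ih2

/-- If the sums of the signs over all subfamilies with a given sum `x` vanish unless `x` is an
integer, then all members of the family are integers. -/
theorem int_of_support (s : Multiset ℂ) (hs : ∀ a ∈ s, a ≠ 0)
    (h : ∀ x : ℂ, (¬ ∃ a : ℤ, x = a) →
      ((s.powerset.filter fun S => S.sum = x).map fun S => (-1 : ℂ) ^ Multiset.card S).sum = 0) :
    ∀ x ∈ s, ∃ a : ℤ, x = a := by
  classical
  set χ : ℂ → ℂ := fun a => Complex.exp (2 * Real.pi * Complex.I * a) with hχ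
  have hχ0 : χ 0 = 1 := by rw [hχ]; simp
  have hχa : ∀ a b, χ (a + b) = χ a * χ b := by
    intro a b
    rw [hχ]
    show Complex.exp _ = Complex.exp _ * Complex.exp _
    rw [← Complex.exp_add]
    ring_nf
  have hχi : ∀ a : ℂ, χ a = 1 ↔ ∃ n : ℤ, a = n := by
    intro a
    rw [hχ]
    show Complex.exp _ = 1 ↔ _
    rw [Complex.exp_eq_one_iff]
    have h2 : (2 * Real.pi * Complex.I : ℂ) ≠ 0 := Complex.two_pi_I_ne_zero
    constructor
    · rintro ⟨n, hn⟩
      refine ⟨n, ?_⟩
      have : (2 * Real.pi * Complex.I : ℂ) * a = (2 * Real.pi * Complex.I : ℂ) * n := by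
        rw [hn]; ring
      exact mul_left_cancel₀ h2 this
    · rintro ⟨n, hn⟩
      exact ⟨n, by rw [hn]; ring⟩
  -- the two products
  have hprod : ∀ ψ : ℂ → ℂ, ψ 0 = 1 → (∀ a b, ψ (a + b) = ψ a * ψ b) → ∀ k : ℕ,
      PowerSeries.coeff k (s.map fun a => (1 : PowerSeries ℂ) -
        PowerSeries.C (ψ a) * PowerSeries.rescale a (PowerSeries.exp ℂ)).prod =
      (s.powerset.map fun S => (-1 : ℂ) ^ Multiset.card S *
        (ψ S.sum * S.sum ^ k * (k.factorial : ℂ)⁻¹)).sum := by
    intro ψ h0 hadd k
    rw [← altSum_mul (fun a => PowerSeries.C (ψ a) * PowerSeries.rescale a (PowerSeries.exp ℂ))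
      (by
        show PowerSeries.C (ψ 0) * PowerSeries.rescale 0 (PowerSeries.exp ℂ) = 1
        rw [h0, map_one, one_mul, PowerSeries.rescale_zero]
        simp) (by
        intro a b
        show PowerSeries.C (ψ (a + b)) * PowerSeries.rescale (a + b) (PowerSeries.exp ℂ) = _
        rw [hadd, ← PowerSeries.exp_mul_exp_eq_exp_add, map_mul]
        ring), map_multiset_sum, Multiset.map_map]
    congr 1
    refine Multiset.map_congr rfl fun S _ => ?_
    show PowerSeries.coeff k ((-1) ^ Multiset.card S * (PowerSeries.C (ψ S.sum) *
      PowerSeries.rescale S.sum (PowerSeries.exp ℂ))) = _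
    have h1 : ((-1 : PowerSeries ℂ)) ^ Multiset.card S =
        PowerSeries.C ((-1) ^ Multiset.card S) := by
      rw [map_pow, map_neg, map_one]
    rw [h1, PowerSeries.coeff_C_mul, PowerSeries.coeff_C_mul, PowerSeries.coeff_rescale,
      PowerSeries.coeff_exp]
    simp
    ring
  have hdvd : ∀ k < Multiset.card s, PowerSeries.coeff k (s.map fun a => (1 : PowerSeries ℂ) -
        PowerSeries.C (χ a) * PowerSeries.rescale a (PowerSeries.exp ℂ)).prod = 0 := by
    intro k hk
    have h1 : PowerSeries.coeff k (s.map fun a => (1 : PowerSeries ℂ) -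
        PowerSeries.C (1 : ℂ) * PowerSeries.rescale a (PowerSeries.exp ℂ)).prod = 0 := by
      have h2 : ∀ t : Multiset ℂ, (PowerSeries.X : PowerSeries ℂ) ^ Multiset.card t ∣
          (t.map fun a => (1 : PowerSeries ℂ) -
            PowerSeries.C (1 : ℂ) * PowerSeries.rescale a (PowerSeries.exp ℂ)).prod := by
        intro t
        induction t using Multiset.induction_on with
        | empty => simp
        | cons a t ih =>
          rw [Multiset.map_cons, Multiset.prod_cons, Multiset.card_cons, pow_succ']
          refine mul_dvd_mul ?_ ih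
          rw [PowerSeries.X_dvd_iff, ← PowerSeries.coeff_zero_eq_constantCoeff_apply, map_sub,
            PowerSeries.coeff_C_mul, coeff_zero_exp]
          simp
      exact (PowerSeries.X_pow_dvd_iff.1 (h2 s)) k hk
    rw [hprod (fun _ => 1) rfl (by intro a b; simp) k] at h1
    rw [hprod χ hχ0 hχa k]
    have h3 := sum_fiber (fun S : Multiset ℂ => (-1 : ℂ) ^ Multiset.card S)
      (fun S : Multiset ℂ => S.sum)
      (fun x => (χ x - 1) * (x ^ k * (k.factorial : ℂ)⁻¹)) _ s.powerset rfl (by
        intro x
        by_cases hx : ∃ a : ℤ, x = a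
        · left
          have h5 := (hχi x).2 hx
          simp only [h5, sub_self, zero_mul]
        · right
          exact h x hx)
    have h7 : (s.powerset.map fun S => (-1 : ℂ) ^ Multiset.card S *
        (χ S.sum * S.sum ^ k * (k.factorial : ℂ)⁻¹)).sum -
        (s.powerset.map fun S => (-1 : ℂ) ^ Multiset.card S *
        (1 * S.sum ^ k * (k.factorial : ℂ)⁻¹)).sum = 0 := by
      rw [← Multiset.sum_map_sub, ← h3]
      refine congrArg Multiset.sum (Multiset.map_congr rfl fun S _ => ?_)
      ring
    rw [h1, sub_zero] at h7
    exact h7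
  obtain ⟨h1, h2⟩ := order_prod χ s hs
  have h3 : (Multiset.card s : ℕ∞) ≤ (s.map fun a => (1 : PowerSeries ℂ) -
        PowerSeries.C (χ a) * PowerSeries.rescale a (PowerSeries.exp ℂ)).prod.order :=
    PowerSeries.nat_le_order _ _ hdvd
  have h4 : Multiset.card s ≤ Multiset.card (s.filter fun a => χ a = 1) := by
    exact_mod_cast h3.trans h2
  have h5 : s.filter (fun a => χ a = 1) = s :=
    Multiset.eq_of_le_of_card_le (Multiset.filter_le _ _) h4
  intro x hx
  rw [← h5, Multiset.mem_filter] at hx
  exact (hχi x).1 hx.2

end Pool.Agent.K4H57.CI
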