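import Pool.Agent.K4H57.CI.Polar
import Pool.Agent.R920.CH.Mod

/-!
# The Chern polynomial of a smooth subvariety modulo primes
-/

set_option autoImplicit false

open Polynomial

namespace Pool.Agent.K4H57.CI

open Pool.Agent.R920.CH

lemma powerset_map' {α β : Type*} (f : α → β) (s : Multiset α) :
    (s.map f).powerset = s.powerset.map (Multiset.map f) := by
  induction s using Multiset.induction_on with
  | empty => simp
  | cons a s ih =>
    rw [Multiset.map_cons, Multiset.powerset_cons, Multiset.powerset_cons, ih, Multiset.map_add,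
      Multiset.map_map, Multiset.map_map]
    congr 1
    refine Multiset.map_congr rfl fun S _ => ?_
    simp

lemma sum_powerset_fin {K A : Type*} [AddCommMonoid A] {r : ℕ} (x : Fin r → K)
    (F : Multiset K → A) : ((Finset.univ.val.map x : Multiset K).powerset.map F).sum =
      ∑ T ∈ (Finset.univ : Finset (Fin r)).powerset, F (T.val.map x) := by
  rw [powerset_map', Multiset.map_map]
  show _ = (((Finset.univ : Finset (Fin r)).powerset).val.map fun T => F (T.val.map x)).sum
  congr 1
  rw [Finset.powerset, Multiset.map_pmap]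
  exact (Multiset.pmap_eq_map _ _ _ _).symm

/-- The alternating sum of the values of an integral polynomial is a universal expression. -/
lemma alt_roots (P g : ℤ[X]) (hP : P.Monic) : ∃ m : ℤ, ∀ (K : Type) [Field K] [IsAlgClosed K],
    ((P.map (Int.castRingHom K)).roots.powerset.map fun S =>
      (-1) ^ Multiset.card S * aeval S.sum g).sum = (m : K) := by
  classical
  set r := P.natDegree with hr
  let G : Finset (Fin r) → MvPolynomial (Fin r) ℤ := fun T =>
    (-1) ^ T.card * aeval (∑ i ∈ T, (MvPolynomial.X i : MvPolynomial (Fin r) ℤ)) g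
  let q : MvPolynomial (Fin r) ℤ := ∑ T ∈ (Finset.univ : Finset (Fin r)).powerset, G T
  have hq : q.IsSymmetric := by
    intro e
    show MvPolynomial.rename e (∑ T ∈ (Finset.univ : Finset (Fin r)).powerset, G T) =
      ∑ T ∈ (Finset.univ : Finset (Fin r)).powerset, G T
    rw [map_sum, Finset.powerset_univ]
    have h1 : ∀ T, MvPolynomial.rename e (G T) = G (T.map e.toEmbedding) := by
      intro T
      show MvPolynomial.rename e ((-1) ^ T.card *
        aeval (∑ i ∈ T, (MvPolynomial.X i : MvPolynomial (Fin r) ℤ)) g) = (-1) ^ _ * _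
      rw [map_mul, map_pow, map_neg, map_one, ← Polynomial.aeval_algHom_apply, map_sum,
        Finset.card_map, Finset.sum_map]
      simp only [MvPolynomial.rename_X]
      rfl
    simp only [h1]
    exact Equiv.sum_comp (Equiv.finsetCongr e) (fun T => G T)
  obtain ⟨Q, hQ⟩ := MvPolynomial.esymmAlgHom_surjective ℤ
    (σ := Fin r) (n := r) (Fintype.card_fin r).le ⟨q, hq⟩
  have hQ' : MvPolynomial.aeval (fun i : Fin r => MvPolynomial.esymm (Fin r) ℤ (i + 1)) Q = q := by
    rw [← MvPolynomial.esymmAlgHom_apply, hQ]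
  refine ⟨MvPolynomial.eval (fun i : Fin r => (-1) ^ ((i : ℕ) + 1) * P.coeff (r - (i + 1))) Q, ?_⟩
  intro K _ _
  have hdeg : (P.map (Int.castRingHom K)).natDegree = r := hP.natDegree_map _
  have hcard : Multiset.card (P.map (Int.castRingHom K)).roots = r := by
    rw [splits_iff_card_roots.1 (IsAlgClosed.splits _), hdeg]
  obtain ⟨x, hx⟩ := exists_fun _ hcard
  have h1 : ((P.map (Int.castRingHom K)).roots.powerset.map fun S =>
      (-1) ^ Multiset.card S * aeval S.sum g).sum = MvPolynomial.aeval x q := by
    rw [← hx, sum_powerset_fin]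
    show _ = MvPolynomial.aeval x (∑ T ∈ (Finset.univ : Finset (Fin r)).powerset, G T)
    rw [map_sum]
    refine Finset.sum_congr rfl fun T _ => ?_
    show _ = MvPolynomial.aeval x ((-1) ^ T.card *
        aeval (∑ i ∈ T, (MvPolynomial.X i : MvPolynomial (Fin r) ℤ)) g)
    rw [map_mul, map_pow, map_neg, map_one, ← Polynomial.aeval_algHom_apply, map_sum,
      Multiset.card_map]
    simp only [MvPolynomial.aeval_X]
    rfl
  rw [h1, ← hQ']
  have h2 : MvPolynomial.aeval x (MvPolynomial.aeval
      (fun i : Fin r => MvPolynomial.esymm (Fin r) ℤ (i + 1)) Q) =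
      MvPolynomial.aeval (fun i : Fin r =>
        MvPolynomial.aeval x (MvPolynomial.esymm (Fin r) ℤ (i + 1))) Q := by
    rw [← AlgHom.comp_apply]
    congr 1
    apply MvPolynomial.algHom_ext
    intro i
    simp
  rw [h2]
  have h3 : ∀ i : Fin r, MvPolynomial.aeval x (MvPolynomial.esymm (Fin r) ℤ (i + 1)) =
      (((-1) ^ ((i : ℕ) + 1) * P.coeff (r - (i + 1)) : ℤ) : K) := by
    intro i
    rw [MvPolynomial.aeval_esymm_eq_multiset_esymm, hx]
    have hi := i.2
    have h4 := coeff_eq_esymm_roots_of_card (p := P.map (Int.castRingHom K))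
      (by rw [hcard, hdeg]) (k := r - (i + 1)) (by rw [hdeg]; omega)
    rw [(hP.map _).leadingCoeff, hdeg, one_mul, coeff_map, eq_intCast,
      show r - (r - ((i : ℕ) + 1)) = i + 1 by omega] at h4
    push_cast
    rw [h4, ← mul_assoc, ← mul_pow]
    norm_num
  simp only [h3]
  have h5 : MvPolynomial.aeval (fun i : Fin r =>
      (((-1) ^ ((i : ℕ) + 1) * P.coeff (r - (i + 1)) : ℤ) : K)) Q =
      (Int.castRingHom K) (MvPolynomial.eval
        (fun i : Fin r => (-1) ^ ((i : ℕ) + 1) * P.coeff (r - (i + 1))) Q) := by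
    rw [MvPolynomial.eval₂_comp]
    rfl
  rw [h5]
  rfl

/-- A product of linear polynomials which is a constant different from `0`. -/
lemma factors_const {K : Type*} [Field K] (s : Multiset K) (y : K → K)
    (h0 : s.prod ≠ 0)
    (h : ∀ j, 1 ≤ j → j ≤ Multiset.card s →
      (s.map fun x => (C x + C (y x) * X : K[X])).prod.coeff j = 0) :
    ∀ x ∈ s, y x = 0 := by
  set Q : K[X] := (s.map fun x => (C x + C (y x) * X : K[X])).prod with hQ
  have hdeg : ∀ x, (C x + C (y x) * X : K[X]).natDegree ≤ 1 := by
    intro x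
    compute_degree
  have hd : Q.natDegree ≤ Multiset.card s := by
    rw [hQ]
    clear hQ h h0 Q
    induction s using Multiset.induction_on with
    | empty => simp
    | cons a s ih =>
      rw [Multiset.map_cons, Multiset.prod_cons, Multiset.card_cons]
      refine natDegree_mul_le.trans ?_
      have := hdeg a
      omega
  have hc0 : Q.coeff 0 = s.prod := by
    rw [coeff_zero_eq_eval_zero, hQ, eval_multiset_prod, Multiset.map_map]
    congr 1
    have : s.map (eval 0 ∘ fun x => (C x + C (y x) * X : K[X])) = s.map id := by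
      refine Multiset.map_congr rfl fun x _ => ?_
      simp
    rw [this, Multiset.map_id]
  have hQc : Q = C s.prod := by
    ext j
    rcases Nat.eq_zero_or_pos j with hj | hj
    · rw [hj, hc0, coeff_C_zero]
    · rw [coeff_C_of_ne_zero (by omega)]
      rcases Nat.lt_or_ge (Multiset.card s) j with h2 | h2
      · exact coeff_eq_zero_of_natDegree_lt (by omega)
      · exact h j hj h2
  have hu : IsUnit Q := by
    rw [hQc]
    exact isUnit_C.2 (isUnit_iff_ne_zero.2 h0)
  intro x hx
  have hdvd : (C x + C (y x) * X : K[X]) ∣ Q := by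
    rw [hQ]
    exact Multiset.dvd_prod (Multiset.mem_map_of_mem _ hx)
  have hu2 : IsUnit (C x + C (y x) * X : K[X]) := isUnit_of_dvd_unit hdvd hu
  have h3 := natDegree_eq_zero_of_isUnit hu2
  have h4 : (C x + C (y x) * X : K[X]).coeff 1 = 0 := coeff_eq_zero_of_natDegree_lt (by omega)
  simpa using h4

/-- **The Chern polynomial splits modulo primes.** -/
theorem splits_mod_sub {N r : ℕ} (P : ℤ[X]) (hP : P.Monic) (hr : P.natDegree = r)
    (hRR : RiemannRochSub N P) (p : ℕ) [hp : Fact p.Prime] (hrp : r < p) (hpN : r * p ≤ N)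
    (hd : ¬ (p : ℤ) ∣ P.coeff 0) :
    ∃ x : Fin r → ZMod p, P.map (Int.castRingHom (ZMod p)) = ∏ i, (X - C (x i)) := by
  classical
  let K := AlgebraicClosure (ZMod p)
  have hchar : CharP K p := by infer_instance
  have hp0 : (p : ℚ) ≠ 0 := by exact_mod_cast hp.out.ne_zero
  have hdeg : (P.map (Int.castRingHom K)).natDegree = r := by rw [hP.natDegree_map, hr]
  set s : Multiset K := (P.map (Int.castRingHom K)).roots with hs
  have hcard : Multiset.card s = r := by
    rw [hs, splits_iff_card_roots.1 (IsAlgClosed.splits _), hdeg]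
  have hsprod : s.prod ≠ 0 := by
    have h1 := (IsAlgClosed.splits (P.map (Int.castRingHom K))).coeff_zero_eq_prod_roots_of_monic
      (hP.map _)
    rw [coeff_map, hdeg, ← hs] at h1
    intro h0
    rw [h0, mul_zero] at h1
    apply hd
    rw [← CharP.intCast_eq_zero_iff K p]
    exact h1
  have hpow : ∀ y ∈ s, y ^ p - y = 0 := by
    apply factors_const s (fun y => y ^ p - y) hsprod
    intro j hj1 hj
    rw [hcard] at hj
    have hY : ∀ S ∈ s.powerset, S.sum ^ p - S.sum = (S.map fun y => y ^ p - y).sum := by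
      intro S _
      rw [Multiset.sum_map_sub, Multiset.map_id']
      congr 1
      have := map_multiset_sum (frobenius K p) S
      rw [frobenius_def] at this
      rw [this]
      rfl
    have hpol := polar_two s (fun y => y ^ p - y) (fun S => S.sum ^ p - S.sum) hY j
      (by rw [hcard]; exact hj)
    rw [hcard] at hpol
    set g : ℤ[X] := X ^ (r - j) * (X ^ p - X) ^ j with hg
    obtain ⟨m, hm⟩ := alt_roots P g hP
    set f : ℚ[X] := C ((p : ℚ)⁻¹ ^ j) * g.map (Int.castRingHom ℚ) with hf
    have hfi : IsIntegerValued f := by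
      intro a
      have h1 : (p : ℤ) ∣ a ^ p - a := by
        rw [← ZMod.intCast_zmod_eq_zero_iff_dvd]
        push_cast
        rw [ZMod.pow_card, sub_self]
      obtain ⟨b, hb⟩ := h1
      refine ⟨a ^ (r - j) * b ^ j, ?_⟩
      rw [hf, eval_mul, eval_C, eval_intCast_map, hg, eval_mul, eval_pow, eval_X, eval_pow,
        eval_sub, eval_pow, eval_X, Int.cast_id, hb, eq_intCast]
      push_cast
      have h9 : ((p : ℚ)⁻¹) ^ j * (p : ℚ) ^ j = 1 := by
        rw [← mul_pow, inv_mul_cancel₀ hp0, one_pow]
      linear_combination ((a : ℚ) ^ (r - j) * (b : ℚ) ^ j) * h9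
    have hfd : f.natDegree ≤ N := by
      rw [hf]
      refine (natDegree_C_mul_le _ _).trans (natDegree_map_le.trans ?_)
      rw [hg]
      refine natDegree_mul_le.trans ?_
      have h1 : (X ^ p - X : ℤ[X]).natDegree ≤ p := by
        refine (natDegree_sub_le _ _).trans ?_
        rw [natDegree_X_pow, natDegree_X]
        exact max_le le_rfl hp.out.one_le
      have h2 : (X ^ (r - j) : ℤ[X]).natDegree ≤ r - j := by rw [natDegree_X_pow]
      have h3 : ((X ^ p - X : ℤ[X]) ^ j).natDegree ≤ j * p :=
        natDegree_pow_le.trans (Nat.mul_le_mul_left _ h1)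
      have h4 : r - j ≤ (r - j) * p := Nat.le_mul_of_pos_right _ hp.out.pos
      have h5 : (r - j) * p + j * p = r * p := by
        rw [← add_mul]
        congr 1
        omega
      omega
    obtain ⟨z, hz⟩ := hRR f hfi hfd
    have hmC := hm ℂ
    have h1 : altSum P f = (p : ℂ)⁻¹ ^ j * (m : ℂ) := by
      rw [altSum, ← hmC, ← Multiset.sum_map_mul_left]
      refine congrArg Multiset.sum (Multiset.map_congr rfl fun S _ => ?_)
      have h2 : aeval S.sum f = (p : ℂ)⁻¹ ^ j * aeval S.sum g := by
        rw [hf, map_mul, aeval_C]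
        congr 1
        · simp
        · rw [aeval_def, aeval_def, eval₂_map]
          exact congrArg (fun φ : ℤ →+* ℂ => eval₂ φ S.sum g) (RingHom.ext_int _ _)
      rw [h2]
      ring
    rw [h1] at hz
    have hpC : (p : ℂ) ≠ 0 := by exact_mod_cast hp.out.ne_zero
    have h2 : m = p ^ j * z := by
      have h3 : (m : ℂ) = p ^ j * z := by
        rw [← hz, ← mul_assoc, ← mul_pow, mul_inv_cancel₀ hpC, one_pow, one_mul]
      exact_mod_cast h3
    have h3 := hm K
    have h4 : (((p : ℤ) ^ j * z : ℤ) : K) = 0 := by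
      rw [Int.cast_mul, Int.cast_pow, Int.cast_natCast, CharP.cast_eq_zero K p,
        zero_pow (by omega), zero_mul]
    rw [h2, h4] at h3
    have h5 : (s.powerset.map fun S => (-1) ^ Multiset.card S *
        (S.sum ^ (r - j) * (S.sum ^ p - S.sum) ^ j)).sum = 0 := by
      rw [← h3]
      refine congrArg Multiset.sum (Multiset.map_congr rfl fun S _ => ?_)
      rw [hg]
      simp
    rw [h5, mul_zero] at hpol
    have h6 : ((-1 : K) ^ r * (r.factorial : K)) ≠ 0 := by
      apply mul_ne_zero
      · exact pow_ne_zero _ (by simp)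
      · rw [Ne, CharP.cast_eq_zero_iff K p]
        intro h7
        exact absurd ((hp.out.dvd_factorial).1 h7) (by omega)
    exact (mul_eq_zero.1 hpol.symm).resolve_left h6
  have hbot : ∀ y ∈ s, ∃ a : ZMod p, algebraMap (ZMod p) K a = y := by
    intro y hy
    have h1 : y ∈ (⊥ : Subfield K) :=
      (Subfield.mem_bot_iff_pow_eq_self K p).2 (sub_eq_zero.1 (hpow y hy))
    rw [mem_bot_iff_intCast p K] at h1
    obtain ⟨a, ha⟩ := h1
    exact ⟨a, by rw [map_intCast]; exact ha⟩
  choose! a ha using hbot
  obtain ⟨x, hx⟩ := exists_fun (s.map a) (r := r) (by rw [Multiset.card_map, hcard])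
  refine ⟨x, ?_⟩
  apply Polynomial.map_injective (algebraMap (ZMod p) K) (algebraMap (ZMod p) K).injective
  rw [Polynomial.map_map, Polynomial.map_prod]
  have h1 : (algebraMap (ZMod p) K).comp (Int.castRingHom (ZMod p)) = Int.castRingHom K :=
    RingHom.ext_int _ _
  rw [h1]
  have h2 := (IsAlgClosed.splits (P.map (Int.castRingHom K))).eq_prod_roots
  rw [(hP.map _).leadingCoeff, C_1, one_mul] at h2
  rw [h2, ← hs]
  have h3 : ∏ i, Polynomial.map (algebraMap (ZMod p) K) (X - C (x i)) =
      ((Finset.univ.val.map x).map fun b => (X - C (algebraMap (ZMod p) K b))).prod := by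
    rw [Multiset.map_map]
    show _ = ∏ i, (X - C (algebraMap (ZMod p) K (x i)))
    refine Finset.prod_congr rfl fun i _ => ?_
    rw [Polynomial.map_sub, map_X, map_C]
  rw [h3, hx, Multiset.map_map]
  congr 1
  refine Multiset.map_congr rfl fun y hy => ?_
  show X - C y = X - C (algebraMap (ZMod p) K (a y))
  rw [ha y hy]

end Pool.Agent.K4H57.CI
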