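import Pool.Agent.K4H57.CI.Quartic
import Pool.Agent.K4H57.CI.ModP
import Pool.Agent.K4H57.CI.Fin

/-!
# Codimension three and four: subvarieties of small degree
-/

set_option autoImplicit false
set_option maxHeartbeats 4000000

open Polynomial Filter

namespace Pool.Agent.K4H57.CI

open Pool.Agent.R920.CH

lemma comp_chern (r : ℕ) (c : ℕ → ℤ) : (chernPoly r c).comp (X + 1) =
    ∑ i ∈ Finset.range (r + 1), C ((-1) ^ i * c i) * X ^ (r - i) := by
  rw [chernPoly, sum_comp]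
  refine Finset.sum_congr rfl fun i _ => ?_
  rw [mul_comp, C_comp, pow_comp, sub_comp, X_comp, one_comp]
  congr 2
  ring

lemma coeff_zero_chern (r : ℕ) (c : ℕ → ℤ) :
    (chernPoly r c).coeff 0 = (-1) ^ r * ∑ i ∈ Finset.range (r + 1), c i := by
  rw [coeff_zero_eq_eval_zero, chernPoly, eval_finsetSum, Finset.mul_sum]
  refine Finset.sum_congr rfl fun i hi => ?_
  rw [Finset.mem_range] at hi
  rw [eval_mul, eval_C, eval_pow, eval_sub, eval_X, eval_one, zero_sub]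
  have h3 : ((-1 : ℤ)) ^ r = (-1) ^ (r - i) * (-1) ^ i := by
    rw [← pow_add]
    congr 1
    omega
  rw [h3]
  ring

lemma comp_prod {R : Type*} [CommRing R] {r : ℕ} (x : Fin r → R) :
    (∏ i, (X - C (x i)) : R[X]).comp (X + 1) = ∏ i, (X - C (x i - 1)) := by
  rw [prod_comp]
  refine Finset.prod_congr rfl fun i _ => ?_
  rw [sub_comp, X_comp, C_comp, C_sub, C_1]
  ring

lemma map_comp_chern (r : ℕ) (c : ℕ → ℤ) (R : Type*) [CommRing R] :
    ((chernPoly r c).map (Int.castRingHom R)).comp (X + 1) =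
      ∑ i ∈ Finset.range (r + 1), C (((-1) ^ i * c i : ℤ) : R) * X ^ (r - i) := by
  have h1 := congrArg (Polynomial.map (Int.castRingHom R)) (comp_chern r c)
  rw [Polynomial.map_comp, Polynomial.map_add, map_X, Polynomial.map_one, Polynomial.map_sum] at h1
  rw [h1]
  refine Finset.sum_congr rfl fun i _ => ?_
  rw [Polynomial.map_mul, map_C, Polynomial.map_pow, map_X]
  rfl

lemma coeff3 {R : Type*} [CommRing R] (a b c a' b' c' : R)
    (h : (X ^ 3 - C a * X ^ 2 + C b * X - C c : R[X]) = X ^ 3 - C a' * X ^ 2 + C b' * X - C c') :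
    a = a' ∧ b = b' ∧ c = c' := by
  have k2 := congrArg (fun P : R[X] => P.coeff 2) h
  have k1 := congrArg (fun P : R[X] => P.coeff 1) h
  have k0 := congrArg (fun P : R[X] => P.coeff 0) h
  simp [coeff_X, coeff_C, coeff_X_pow] at k2 k1 k0
  exact ⟨k2, k1, k0⟩

lemma coeff4 {R : Type*} [CommRing R] (a b c d a' b' c' d' : R)
    (h : (X ^ 4 - C a * X ^ 3 + C b * X ^ 2 - C c * X + C d : R[X]) =
      X ^ 4 - C a' * X ^ 3 + C b' * X ^ 2 - C c' * X + C d') :
    a = a' ∧ b = b' ∧ c = c' ∧ d = d' := by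
  have k3 := congrArg (fun P : R[X] => P.coeff 3) h
  have k2 := congrArg (fun P : R[X] => P.coeff 2) h
  have k1 := congrArg (fun P : R[X] => P.coeff 1) h
  have k0 := congrArg (fun P : R[X] => P.coeff 0) h
  simp [coeff_X, coeff_C, coeff_X_pow] at k3 k2 k1 k0
  exact ⟨k3, k2, k1, k0⟩

lemma splitsMod3_of (c : ℕ → ℤ) (h0 : c 0 = 1) (p : ℕ) [Fact p.Prime] (x : Fin 3 → ZMod p)
    (h : (chernPoly 3 c).map (Int.castRingHom (ZMod p)) = ∏ i, (X - C (x i))) :
    SplitsMod p (c 1) (c 2) (c 3) := by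
  have h1 := congrArg (fun P : (ZMod p)[X] => P.comp (X + 1)) h
  simp only [map_comp_chern, comp_prod] at h1
  have hL : ∑ i ∈ Finset.range (3 + 1), C (((-1) ^ i * c i : ℤ) : ZMod p) * X ^ (3 - i) =
      X ^ 3 - C ((c 1 : ℤ) : ZMod p) * X ^ 2 + C ((c 2 : ℤ) : ZMod p) * X -
        C ((c 3 : ℤ) : ZMod p) := by
    simp only [Finset.sum_range_succ, Finset.sum_range_zero, h0]
    simp
    ring
  rw [hL, Fin.prod_univ_three] at h1
  obtain ⟨u, hu⟩ := ZMod.intCast_surjective (x 0 - 1)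
  obtain ⟨v, hv⟩ := ZMod.intCast_surjective (x 1 - 1)
  obtain ⟨w, hw⟩ := ZMod.intCast_surjective (x 2 - 1)
  generalize x 0 - 1 = u' at hu h1
  generalize x 1 - 1 = v' at hv h1
  generalize x 2 - 1 = w' at hw h1
  have h2 : (X - C u') * (X - C v') * (X - C w') =
      X ^ 3 - C ((u' + v' + w' : ZMod p)) * X ^ 2 + C ((u' * v' + u' * w' + v' * w' : ZMod p)) * X -
        C ((u' * v' * w' : ZMod p)) := by
    simp only [C_add, C_mul]
    ring
  rw [h2] at h1
  obtain ⟨k2, k1, k0⟩ := coeff3 _ _ _ _ _ _ h1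
  refine ⟨u, v, w, ?_, ?_, ?_⟩
  · rw [← ZMod.intCast_zmod_eq_zero_iff_dvd]
    push_cast
    rw [hu, hv, hw, k2, sub_self]
  · rw [← ZMod.intCast_zmod_eq_zero_iff_dvd]
    push_cast
    rw [hu, hv, hw, k1, sub_self]
  · rw [← ZMod.intCast_zmod_eq_zero_iff_dvd]
    push_cast
    rw [hu, hv, hw, k0, sub_self]

lemma splitsMod4_of (c : ℕ → ℤ) (h0 : c 0 = 1) (p : ℕ) [Fact p.Prime] (x : Fin 4 → ZMod p)
    (h : (chernPoly 4 c).map (Int.castRingHom (ZMod p)) = ∏ i, (X - C (x i))) :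
    SplitsMod4 p (c 1) (c 2) (c 3) (c 4) := by
  have h1 := congrArg (fun P : (ZMod p)[X] => P.comp (X + 1)) h
  simp only [map_comp_chern, comp_prod] at h1
  have hL : ∑ i ∈ Finset.range (4 + 1), C (((-1) ^ i * c i : ℤ) : ZMod p) * X ^ (4 - i) =
      X ^ 4 - C ((c 1 : ℤ) : ZMod p) * X ^ 3 + C ((c 2 : ℤ) : ZMod p) * X ^ 2 -
        C ((c 3 : ℤ) : ZMod p) * X + C ((c 4 : ℤ) : ZMod p) := by
    simp only [Finset.sum_range_succ, Finset.sum_range_zero, h0]
    simp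
    ring
  rw [hL, Fin.prod_univ_four] at h1
  obtain ⟨u, hu⟩ := ZMod.intCast_surjective (x 0 - 1)
  obtain ⟨v, hv⟩ := ZMod.intCast_surjective (x 1 - 1)
  obtain ⟨w, hw⟩ := ZMod.intCast_surjective (x 2 - 1)
  obtain ⟨t, ht⟩ := ZMod.intCast_surjective (x 3 - 1)
  generalize x 0 - 1 = u' at hu h1
  generalize x 1 - 1 = v' at hv h1
  generalize x 2 - 1 = w' at hw h1
  generalize x 3 - 1 = t' at ht h1
  have h2 : (X - C u') * (X - C v') * (X - C w') * (X - C t') =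
      X ^ 4 - C ((u' + v' + w' + t' : ZMod p)) * X ^ 3 +
        C ((u' * v' + u' * w' + u' * t' + v' * w' + v' * t' + w' * t' : ZMod p)) * X ^ 2 -
        C ((u' * v' * w' + u' * v' * t' + u' * w' * t' + v' * w' * t' : ZMod p)) * X +
        C ((u' * v' * w' * t' : ZMod p)) := by
    simp only [C_add, C_mul]
    ring
  rw [h2] at h1
  obtain ⟨k3, k2, k1, k0⟩ := coeff4 _ _ _ _ _ _ _ _ h1
  refine ⟨u, v, w, t, ?_, ?_, ?_, ?_⟩
  · rw [← ZMod.intCast_zmod_eq_zero_iff_dvd]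
    push_cast
    rw [hu, hv, hw, ht, k3, sub_self]
  · rw [← ZMod.intCast_zmod_eq_zero_iff_dvd]
    push_cast
    rw [hu, hv, hw, ht, k2, sub_self]
  · rw [← ZMod.intCast_zmod_eq_zero_iff_dvd]
    push_cast
    rw [hu, hv, hw, ht, k1, sub_self]
  · rw [← ZMod.intCast_zmod_eq_zero_iff_dvd]
    push_cast
    rw [hu, hv, hw, ht, k0, sub_self]

lemma chern3 (c : ℕ → ℤ) (h0 : c 0 = 1) (h : Splits3 (c 1) (c 2) (c 3)) :
    ∃ a : Multiset ℤ, Multiset.card a = 3 ∧ chernPoly 3 c = (a.map fun x => X - C x).prod := by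
  obtain ⟨x, y, z, h1, h2, h3⟩ := h
  refine ⟨{x + 1, y + 1, z + 1}, rfl, ?_⟩
  rw [chernPoly]
  simp only [Finset.sum_range_succ, Finset.sum_range_zero, h0, h1, h2, h3]
  simp
  ring

lemma chern4 (c : ℕ → ℤ) (h0 : c 0 = 1) (h : Splits4 (c 1) (c 2) (c 3) (c 4)) :
    ∃ a : Multiset ℤ, Multiset.card a = 4 ∧ chernPoly 4 c = (a.map fun x => X - C x).prod := by
  obtain ⟨x, y, z, t, h1, h2, h3, h4⟩ := h
  refine ⟨{x + 1, y + 1, z + 1, t + 1}, rfl, ?_⟩
  rw [chernPoly]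
  simp only [Finset.sum_range_succ, Finset.sum_range_zero, h0, h1, h2, h3, h4]
  simp
  ring

end Pool.Agent.K4H57.CI
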