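import Pool.Agent.K4H57.CI.Low

/-!
# Codimension three and four: subvarieties of small degree, conclusion
-/

set_option autoImplicit false
set_option maxHeartbeats 4000000

open Polynomial Filter

namespace Pool.Agent.K4H57.CI

open Pool.Agent.R920.CH

lemma disc_bound3 {δ b c d : ℤ} (hδ : 1 ≤ δ) (hb : |b| ≤ δ) (hc : |c| ≤ δ)
    (hd : |d| ≤ δ) : |disc3 b c d| ≤ 54 * δ ^ 4 := by
  have a0 : (0 : ℤ) ≤ δ := by linarith
  have h1 : |b ^ 2 * c ^ 2| ≤ δ ^ 4 := by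
    rw [abs_mul, abs_pow, abs_pow]
    calc |b| ^ 2 * |c| ^ 2 ≤ δ ^ 2 * δ ^ 2 := by gcongr
      _ = δ ^ 4 := by ring
  have h34 : δ ^ 3 ≤ δ ^ 4 := pow_le_pow_right₀ hδ (by norm_num)
  have h24 : δ ^ 2 ≤ δ ^ 4 := pow_le_pow_right₀ hδ (by norm_num)
  have h2 : |4 * c ^ 3| ≤ 4 * δ ^ 4 := by
    rw [abs_mul, abs_pow]
    calc |(4 : ℤ)| * |c| ^ 3 ≤ 4 * δ ^ 3 := by
          rw [abs_of_nonneg (by norm_num)]
          gcongr
      _ ≤ 4 * δ ^ 4 := by linarith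
  have h3 : |4 * b ^ 3 * d| ≤ 4 * δ ^ 4 := by
    rw [abs_mul, abs_mul, abs_pow]
    calc |(4 : ℤ)| * |b| ^ 3 * |d| ≤ 4 * δ ^ 3 * δ := by
          rw [abs_of_nonneg (by norm_num)]
          gcongr
      _ = 4 * δ ^ 4 := by ring
  have h4 : |18 * b * c * d| ≤ 18 * δ ^ 4 := by
    rw [abs_mul, abs_mul, abs_mul]
    calc |(18 : ℤ)| * |b| * |c| * |d| ≤ 18 * δ * δ * δ := by
          rw [abs_of_nonneg (by norm_num)]
          gcongr
      _ = 18 * δ ^ 3 := by ring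
      _ ≤ 18 * δ ^ 4 := by linarith
  have h5 : |27 * d ^ 2| ≤ 27 * δ ^ 4 := by
    rw [abs_mul, abs_pow]
    calc |(27 : ℤ)| * |d| ^ 2 ≤ 27 * δ ^ 2 := by
          rw [abs_of_nonneg (by norm_num)]
          gcongr
      _ ≤ 27 * δ ^ 4 := by linarith
  rw [abs_le] at h1 h2 h3 h4 h5 ⊢
  unfold disc3
  constructor <;> linarith [h1.1, h1.2, h2.1, h2.2, h3.1, h3.2, h4.1, h4.2, h5.1, h5.2]

/-- The bound for the degree in terms of `y = N / r`. -/
lemma pow_bound {N r y : ℕ} (hr : r = 3 ∨ r = 4) (hy : y = N / r) (hy1 : 1 ≤ y) {ε δ : ℝ}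
    (hε : 0 < ε) (hε1 : ε ≤ 1 / 10) (hδ0 : 0 ≤ δ) (h5 : (8 : ℝ) ^ (7 : ℝ) ≤ (y : ℝ) ^ (ε : ℝ))
    (hδ : δ ≤ (N : ℝ) ^ (2 * Real.exp (1 / 2) / (r - 1) - ε)) :
    δ ^ (2 * (r - 1)) ≤ (y : ℝ) ^ (4 * Real.exp (1 / 2) - ε) ∧ δ ≤ (y : ℝ) ^ (3 : ℝ) := by
  obtain ⟨he1, he2⟩ := Pool.Agent.R852.BC.exp_half_bounds
  set r' := Real.exp (1 / 2) with hr'
  have hyr : (1 : ℝ) ≤ y := by exact_mod_cast hy1
  have hy0 : (0 : ℝ) < y := by linarith
  have hN8 : (N : ℝ) ≤ 8 * y := by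
    have h1 : N < r * (y + 1) := by
      rw [hy]
      exact Nat.lt_mul_div_succ N (by omega)
    have h2 : N ≤ 8 * y := by
      rcases hr with rfl | rfl <;> omega
    exact_mod_cast h2
  have key : ∀ θ : ℝ, 0 ≤ θ → θ ≤ 7 → (N : ℝ) ^ θ ≤ (y : ℝ) ^ (θ + ε) := by
    intro θ h0 h7
    calc (N : ℝ) ^ θ ≤ (8 * y : ℝ) ^ θ := Real.rpow_le_rpow (Nat.cast_nonneg _) hN8 h0
      _ = (8 : ℝ) ^ θ * (y : ℝ) ^ θ := Real.mul_rpow (by norm_num) hy0.le
      _ ≤ (8 : ℝ) ^ (7 : ℝ) * (y : ℝ) ^ θ := by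
          refine mul_le_mul_of_nonneg_right ?_ (by positivity)
          exact Real.rpow_le_rpow_of_exponent_le (by norm_num) h7
      _ ≤ (y : ℝ) ^ ε * (y : ℝ) ^ θ := mul_le_mul_of_nonneg_right h5 (by positivity)
      _ = (y : ℝ) ^ (θ + ε) := by
          rw [← Real.rpow_add hy0]
          congr 1
          ring
  have hN0 : (0 : ℝ) ≤ N := Nat.cast_nonneg _
  rcases hr with rfl | rfl
  · have e1 : 2 * r' / ((3 : ℕ) - 1 : ℝ) - ε = r' - ε := by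
      push_cast
      ring
    rw [e1] at hδ
    constructor
    · calc δ ^ (2 * (3 - 1)) ≤ ((N : ℝ) ^ (r' - ε)) ^ (2 * (3 - 1)) := by gcongr
        _ = (N : ℝ) ^ (4 * r' - 4 * ε) := by
            rw [← Real.rpow_natCast, ← Real.rpow_mul hN0]
            congr 1
            push_cast
            ring
        _ ≤ (y : ℝ) ^ (4 * r' - 4 * ε + ε) := key _ (by linarith) (by linarith)
        _ ≤ (y : ℝ) ^ (4 * r' - ε) := Real.rpow_le_rpow_of_exponent_le hyr (by linarith)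
    · calc δ ≤ (N : ℝ) ^ (r' - ε) := hδ
        _ ≤ (y : ℝ) ^ (r' - ε + ε) := key _ (by linarith) (by linarith)
        _ ≤ (y : ℝ) ^ (3 : ℝ) := Real.rpow_le_rpow_of_exponent_le hyr (by linarith)
  · have e1 : 2 * r' / ((4 : ℕ) - 1 : ℝ) - ε = 2 / 3 * r' - ε := by
      push_cast
      ring
    rw [e1] at hδ
    constructor
    · calc δ ^ (2 * (4 - 1)) ≤ ((N : ℝ) ^ (2 / 3 * r' - ε)) ^ (2 * (4 - 1)) := by gcongr
        _ = (N : ℝ) ^ (4 * r' - 6 * ε) := by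
            rw [← Real.rpow_natCast, ← Real.rpow_mul hN0]
            congr 1
            push_cast
            ring
        _ ≤ (y : ℝ) ^ (4 * r' - 6 * ε + ε) := key _ (by linarith) (by linarith)
        _ ≤ (y : ℝ) ^ (4 * r' - ε) := Real.rpow_le_rpow_of_exponent_le hyr (by linarith)
    · calc δ ≤ (N : ℝ) ^ (2 / 3 * r' - ε) := hδ
        _ ≤ (y : ℝ) ^ (2 / 3 * r' - ε + ε) := key _ (by linarith) (by linarith)
        _ ≤ (y : ℝ) ^ (3 : ℝ) := Real.rpow_le_rpow_of_exponent_le hyr (by linarith)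

/-- **Small degree in codimension three and four.** -/
theorem low_codim (ε : ℝ) (hε : 0 < ε) : ∃ N₀ : ℕ, ∀ N ≥ N₀, ∀ r : ℕ, r = 3 ∨ r = 4 →
    ∀ c : ℕ → ℤ, c 0 = 1 → (∀ i ≤ r, 0 ≤ c i) → RiemannRochSub N (chernPoly r c) →
    ((∑ i ∈ Finset.range (r + 1), c i : ℤ) : ℝ) ≤
      (N : ℝ) ^ (2 * Real.exp (1 / 2) / (r - 1) - ε) →
    ∃ a : Multiset ℤ, (∀ x ∈ a, 1 ≤ x) ∧ Multiset.card a = r ∧
      chernPoly r c = (a.map fun x => X - C x).prod := by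
  wlog hε1 : ε ≤ 1 / 10 generalizing ε
  · obtain ⟨N₀, h⟩ := this (1 / 10) (by norm_num) le_rfl
    refine ⟨max N₀ 1, fun N hN r hr c h0 hpos hRR hδ => ?_⟩
    refine h N ((le_max_left _ _).trans hN) r hr c h0 hpos hRR (hδ.trans ?_)
    apply Real.rpow_le_rpow_of_exponent_le
    · exact_mod_cast (le_max_right N₀ 1).trans hN
    · linarith
  have hcub := cubic_split 4 7 (ε / 2) (by positivity)
  have hqua := quartic_split 4 7 (ε / 2) (by positivity)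
  have tc : Tendsto (fun q : ℕ => (q : ℝ)) atTop atTop := tendsto_natCast_atTop_atTop
  have f1 : ∀ᶠ x : ℝ in atTop, (8 : ℝ) ^ (7 : ℝ) ≤ x ^ (ε / 2) :=
    (tendsto_rpow_atTop (by positivity : (0 : ℝ) < ε / 2)).eventually_ge_atTop _
  have f2 : ∀ᶠ x : ℝ in atTop, (8 : ℝ) ^ (7 : ℝ) ≤ x ^ (ε : ℝ) :=
    (tendsto_rpow_atTop hε).eventually_ge_atTop _
  obtain ⟨y₀, hy₀⟩ := eventually_atTop.1
    (((hcub.and hqua).and (tc.eventually f1)).and (tc.eventually f2))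
  refine ⟨4 * (y₀ + 4), fun N hN r hr c h0 hpos hRR hδ => ?_⟩
  obtain ⟨he1, he2⟩ := Pool.Agent.R852.BC.exp_half_bounds
  set y : ℕ := N / r with hy
  have hyy : y₀ + 4 ≤ y := by
    rw [hy]
    rcases hr with rfl | rfl <;> omega
  obtain ⟨⟨⟨hcub, hqua⟩, f1⟩, f2⟩ := hy₀ y (by omega)
  obtain ⟨hM, hD⟩ := chernPoly_monic r c h0
  set δ : ℤ := ∑ i ∈ Finset.range (r + 1), c i with hδd
  have hle : ∀ i ≤ r, c i ≤ δ := by
    intro i hi
    exact Finset.single_le_sum (f := c) (fun j hj => hpos j (by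
      rw [Finset.mem_range] at hj
      omega)) (Finset.mem_range.2 (by omega))
  have hδ1 : 1 ≤ δ := by
    have := hle 0 (Nat.zero_le _)
    rwa [h0] at this
  have habs : ∀ i ≤ r, |c i| ≤ δ := by
    intro i hi
    rw [abs_of_nonneg (hpos i hi)]
    exact hle i hi
  have hδr : (0 : ℝ) ≤ (δ : ℝ) := by exact_mod_cast (by linarith : (0 : ℤ) ≤ δ)
  obtain ⟨hb1, hb2⟩ := pow_bound (δ := (δ : ℝ)) hr hy (by omega) hε hε1 hδr f2 hδ
  have hyr : (1 : ℝ) ≤ y := by exact_mod_cast (by omega : 1 ≤ y)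
  have hy0 : (0 : ℝ) < y := by linarith
  have hB : |(δ : ℝ)| ≤ (y : ℝ) ^ (7 : ℝ) := by
    rw [abs_of_nonneg hδr]
    exact hb2.trans (Real.rpow_le_rpow_of_exponent_le hyr (by norm_num))
  have hmod : ∀ p : ℕ, p.Prime → 4 < p → p ≤ y → ¬ (p : ℤ) ∣ δ → ∃ x : Fin r → ZMod p,
      (chernPoly r c).map (Int.castRingHom (ZMod p)) = ∏ i, (X - C (x i)) := by
    intro p hp h4p hpy hpδ
    haveI : Fact p.Prime := ⟨hp⟩
    apply splits_mod_sub (chernPoly r c) hM hD hRR p (by omega)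
    · rw [hy] at hpy
      calc r * p ≤ r * (N / r) := Nat.mul_le_mul_left _ hpy
        _ ≤ N := Nat.mul_div_le N r
    · rw [coeff_zero_chern, ← hδd]
      intro h
      apply hpδ
      have h1 : (p : ℤ) ∣ (-1) ^ r * ((-1) ^ r * δ) := Dvd.dvd.mul_left h _
      have h2 : ((-1 : ℤ)) ^ r * ((-1) ^ r * δ) = δ := by
        rw [← mul_assoc, ← mul_pow]
        simp
      rwa [h2] at h1
  have hfin : ∀ a : Multiset ℤ, Multiset.card a = r →
      chernPoly r c = (a.map fun x => X - C x).prod → ∃ a : Multiset ℤ, (∀ x ∈ a, 1 ≤ x) ∧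
        Multiset.card a = r ∧ chernPoly r c = (a.map fun x => X - C x).prod := by
    intro a ha hca
    refine ⟨a, fun x hx => ?_, ha, hca⟩
    apply root_pos r c h0 hpos
    rw [hca, eval_multiset_prod, Multiset.prod_eq_zero_iff, Multiset.map_map, Multiset.mem_map]
    exact ⟨x, hx, by simp⟩
  rcases hr with rfl | rfl
  · have hdisc : |((disc3 (c 1) (c 2) (c 3) : ℤ) : ℝ)| ≤
        (y : ℝ) ^ (4 * Real.exp (1 / 2) - ε / 2) := by
      have h1 := disc_bound3 hδ1 (habs 1 (by norm_num)) (habs 2 (by norm_num)) (habs 3 le_rfl)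
      have h2 : |((disc3 (c 1) (c 2) (c 3) : ℤ) : ℝ)| ≤ 54 * (δ : ℝ) ^ 4 := by exact_mod_cast h1
      have h54 : (54 : ℝ) ≤ (8 : ℝ) ^ (7 : ℝ) := by
        rw [show (7 : ℝ) = ((7 : ℕ) : ℝ) by norm_num, Real.rpow_natCast]
        norm_num
      calc |((disc3 (c 1) (c 2) (c 3) : ℤ) : ℝ)| ≤ 54 * (δ : ℝ) ^ 4 := h2
        _ ≤ (y : ℝ) ^ (ε / 2) * (y : ℝ) ^ (4 * Real.exp (1 / 2) - ε) := by
            refine mul_le_mul (h54.trans f1) hb1 (by positivity) (by positivity)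
        _ = (y : ℝ) ^ (4 * Real.exp (1 / 2) - ε / 2) := by
            rw [← Real.rpow_add hy0]
            congr 1
            ring
    have hn : |(((c 1) ^ 2 - 3 * c 2 : ℤ) : ℝ)| ≤ (y : ℝ) ^ (7 : ℝ) := by
      have h1 : |(c 1) ^ 2 - 3 * c 2| ≤ 4 * δ ^ 2 := by
        have h2 := habs 1 (by norm_num)
        have h3 := habs 2 (by norm_num)
        have h4 : |(c 1) ^ 2| ≤ δ ^ 2 := by
          rw [abs_pow]
          gcongr
        have h5 : δ ≤ δ ^ 2 := by nlinarith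
        rw [abs_le] at h3 h4 ⊢
        constructor <;> linarith [h3.1, h3.2, h4.1, h4.2]
      have h2 : |(((c 1) ^ 2 - 3 * c 2 : ℤ) : ℝ)| ≤ 4 * (δ : ℝ) ^ 2 := by exact_mod_cast h1
      have h4 : (4 : ℝ) ≤ y := by exact_mod_cast (by omega : 4 ≤ y)
      calc |(((c 1) ^ 2 - 3 * c 2 : ℤ) : ℝ)| ≤ 4 * (δ : ℝ) ^ 2 := h2
        _ ≤ y * ((y : ℝ) ^ (3 : ℝ)) ^ 2 := by gcongr
        _ = (y : ℝ) ^ (7 : ℝ) := by
            rw [← Real.rpow_natCast, ← Real.rpow_mul hy0.le]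
            nth_rewrite 1 [← Real.rpow_one (y : ℝ)]
            rw [← Real.rpow_add hy0]
            norm_num
    have h := hcub (c 1) (c 2) (c 3) δ (by omega) hB hn hdisc (by
      intro p hp h4p hpy hpδ
      haveI : Fact p.Prime := ⟨hp⟩
      obtain ⟨x, hx⟩ := hmod p hp h4p hpy hpδ
      exact splitsMod3_of c h0 p x hx)
    obtain ⟨a, ha, hca⟩ := chern3 c h0 h
    exact hfin a ha hca
  · have h := hqua (c 1) (c 2) (c 3) (c 4) δ δ (by omega) hB hδ1 (habs 1 (by norm_num))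
      (habs 2 (by norm_num)) (habs 3 (by norm_num)) (habs 4 le_rfl) (by
        refine le_trans hb1 ?_
        exact Real.rpow_le_rpow_of_exponent_le hyr (by linarith)) (by
      intro p hp h4p hpy hpδ
      haveI : Fact p.Prime := ⟨hp⟩
      obtain ⟨x, hx⟩ := hmod p hp h4p hpy hpδ
      exact splitsMod4_of c h0 p x hx)
    obtain ⟨a, ha, hca⟩ := chern4 c h0 h
    exact hfin a ha hca

end Pool.Agent.K4H57.CI
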