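import Pool.Agent.K4H57.CI.Defs

/-!
# Polarization: alternating sums of powers over subfamilies
-/

set_option autoImplicit false

open Polynomial

namespace Pool.Agent.K4H57.CI

/-- Alternating sums of powers. -/
lemma polar {R : Type*} [CommRing R] (s : Multiset R) :
    (∀ (x : R) (k : ℕ), k < Multiset.card s →
      (s.powerset.map fun S => (-1) ^ Multiset.card S * (x + S.sum) ^ k).sum = 0) ∧
    ∀ x : R, (s.powerset.map fun S => (-1) ^ Multiset.card S *
      (x + S.sum) ^ Multiset.card s).sum =
        (-1) ^ Multiset.card s * (Multiset.card s).factorial * s.prod := by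
  induction s using Multiset.induction_on with
  | empty => simp
  | cons a s ih =>
    obtain ⟨ih1, ih2⟩ := ih
    have key : ∀ (x : R) (k : ℕ),
        ((a ::ₘ s).powerset.map fun S => (-1) ^ Multiset.card S * (x + S.sum) ^ k).sum =
        - ∑ i ∈ Finset.range k, (k.choose i : R) * a ^ (k - i) *
          (s.powerset.map fun S => (-1) ^ Multiset.card S * (x + S.sum) ^ i).sum := by
      intro x k
      rw [Multiset.powerset_cons, Multiset.map_add, Multiset.sum_add, Multiset.map_map]
      have h1 : (s.powerset.map ((fun S => (-1) ^ Multiset.card S * (x + S.sum) ^ k) ∘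
          Multiset.cons a)).sum = - (s.powerset.map fun S => (-1) ^ Multiset.card S *
            (x + S.sum) ^ k).sum - ∑ i ∈ Finset.range k, (k.choose i : R) * a ^ (k - i) *
          (s.powerset.map fun S => (-1) ^ Multiset.card S * (x + S.sum) ^ i).sum := by
        have h2 : ((fun S => (-1) ^ Multiset.card S * (x + S.sum) ^ k) ∘ Multiset.cons a) =
            fun S : Multiset R => - ∑ i ∈ Finset.range (k + 1), (k.choose i : R) * a ^ (k - i) *
              ((-1) ^ Multiset.card S * (x + S.sum) ^ i) := by
          funext S
          show (-1) ^ Multiset.card (a ::ₘ S) * (x + (a ::ₘ S).sum) ^ k = _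
          rw [Multiset.card_cons, Multiset.sum_cons, show x + (a + S.sum) = (x + S.sum) + a by ring,
            add_pow, pow_succ, Finset.mul_sum, ← Finset.sum_neg_distrib]
          refine Finset.sum_congr rfl fun i _ => ?_
          ring
        rw [h2]
        have h3 : (s.powerset.map fun S : Multiset R => - ∑ i ∈ Finset.range (k + 1),
            (k.choose i : R) * a ^ (k - i) *
              ((-1) ^ Multiset.card S * (x + S.sum) ^ i)).sum =
            - ∑ i ∈ Finset.range (k + 1), (k.choose i : R) * a ^ (k - i) *
              (s.powerset.map fun S => (-1) ^ Multiset.card S * (x + S.sum) ^ i).sum := by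
          rw [Multiset.sum_map_neg, neg_inj]
          have h4 : (fun S : Multiset R => ∑ i ∈ Finset.range (k + 1),
            (k.choose i : R) * a ^ (k - i) * ((-1) ^ Multiset.card S * (x + S.sum) ^ i)) =
            fun S : Multiset R => ((Finset.range (k + 1)).val.map fun i =>
              (k.choose i : R) * a ^ (k - i) * ((-1) ^ Multiset.card S * (x + S.sum) ^ i)).sum := by
            rfl
          rw [h4, Multiset.sum_map_sum_map]
          show ∑ i ∈ Finset.range (k + 1), _ = _
          refine Finset.sum_congr rfl fun i _ => ?_
          rw [Multiset.sum_map_mul_left]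
        rw [h3, Finset.sum_range_succ, Nat.choose_self, Nat.sub_self, pow_zero, Nat.cast_one,
          one_mul, one_mul]
        ring
      rw [h1]
      ring
    constructor
    · intro x k hk
      rw [Multiset.card_cons] at hk
      rw [key, Finset.sum_eq_zero, neg_zero]
      intro i hi
      rw [Finset.mem_range] at hi
      rw [ih1 x i (by omega), mul_zero]
    · intro x
      rw [key, Multiset.card_cons, Finset.sum_range_succ, ih2, Finset.sum_eq_zero, zero_add,
        Multiset.prod_cons, Nat.factorial_succ, Nat.choose_succ_self_right,
        show Multiset.card s + 1 - Multiset.card s = 1 by omega]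
      · push_cast
        ring
      · intro i hi
        rw [Finset.mem_range] at hi
        rw [ih1 x i hi, mul_zero]

/-- Polarization: the coefficients of the product of the `x + y T`. -/
lemma polar_two {R : Type*} [CommRing R] (s : Multiset R) (y : R → R) (Y : Multiset R → R)
    (hY : ∀ S ∈ s.powerset, Y S = (S.map y).sum) (j : ℕ) (hj : j ≤ Multiset.card s) :
    ((Multiset.card s).choose j : R) * (s.powerset.map fun S => (-1) ^ Multiset.card S *
      (S.sum ^ (Multiset.card s - j) * Y S ^ j)).sum =
        (-1) ^ Multiset.card s * (Multiset.card s).factorial *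
          (s.map fun x => (C x + C (y x) * X : R[X])).prod.coeff j := by
  have h1 := (polar (s.map fun x => (C x + C (y x) * X : R[X]))).2 0
  rw [Multiset.card_map] at h1
  have h2 : (s.map fun x => (C x + C (y x) * X : R[X])).powerset =
      s.powerset.map (Multiset.map fun x => (C x + C (y x) * X : R[X])) := by
    clear h1 hj hY
    induction s using Multiset.induction_on with
    | empty => simp
    | cons a s ih =>
      rw [Multiset.map_cons, Multiset.powerset_cons, Multiset.powerset_cons, ih, Multiset.map_add,
        Multiset.map_map, Multiset.map_map]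
      congr 1
      refine Multiset.map_congr rfl fun S _ => ?_
      simp
  rw [h2, Multiset.map_map] at h1
  have h3 := congrArg (fun p : R[X] => p.coeff j) h1
  have h4 : ((s.powerset.map ((fun S : Multiset R[X] => (-1) ^ Multiset.card S *
      (0 + S.sum) ^ Multiset.card s) ∘ Multiset.map fun x => (C x + C (y x) * X : R[X]))).sum).coeff
        j = ((Multiset.card s).choose j : R) * (s.powerset.map fun S => (-1) ^ Multiset.card S *
          (S.sum ^ (Multiset.card s - j) * Y S ^ j)).sum := by
    rw [← Polynomial.lcoeff_apply, map_multiset_sum, Multiset.map_map,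
      ← Multiset.sum_map_mul_left]
    refine congrArg Multiset.sum (Multiset.map_congr rfl fun S hS => ?_)
    show ((-1) ^ Multiset.card (S.map fun x => (C x + C (y x) * X : R[X])) *
      (0 + (S.map fun x => (C x + C (y x) * X : R[X])).sum) ^ Multiset.card s).coeff j = _
    have h5 : (S.map fun x => (C x + C (y x) * X : R[X])).sum = C S.sum + C (Y S) * X := by
      rw [hY S hS]
      clear hS h1 h2 h3
      induction S using Multiset.induction_on with
      | empty => simp
      | cons a S ih =>
        rw [Multiset.map_cons, Multiset.sum_cons, ih, Multiset.sum_cons, Multiset.map_cons,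
          Multiset.sum_cons, C_add, C_add]
        ring
    have h6 : ((-1 : R[X])) ^ Multiset.card S = C ((-1) ^ Multiset.card S) := by simp
    rw [h5, Multiset.card_map, zero_add, h6, coeff_C_mul, add_comm (C S.sum), add_pow,
      finset_sum_coeff, Finset.sum_eq_single j]
    · rw [mul_pow, ← C_pow, ← C_pow]
      have h7 : (C (Y S ^ j) * X ^ j * C (S.sum ^ (Multiset.card s - j)) *
          ((Multiset.card s).choose j : R[X])) = C (Y S ^ j * S.sum ^ (Multiset.card s - j) *
            ((Multiset.card s).choose j : R)) * X ^ j := by
        rw [C_mul, C_mul]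
        simp
        ring
      rw [h7, coeff_C_mul_X_pow, if_pos rfl]
      ring
    · intro i _ hij
      rw [mul_pow, ← C_pow, ← C_pow]
      have h7 : (C (Y S ^ i) * X ^ i * C (S.sum ^ (Multiset.card s - i)) *
          ((Multiset.card s).choose i : R[X])) = C (Y S ^ i * S.sum ^ (Multiset.card s - i) *
            ((Multiset.card s).choose i : R)) * X ^ i := by
        rw [C_mul, C_mul]
        simp
        ring
      rw [h7, coeff_C_mul_X_pow, if_neg (fun h => hij h.symm)]
    · intro h
      exact absurd (Finset.mem_range.2 (by omega)) h
  rw [← h4]
  rw [h3]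
  have h8 : ((-1 : R[X])) ^ Multiset.card s * ((Multiset.card s).factorial : R[X]) =
      C ((-1) ^ Multiset.card s * ((Multiset.card s).factorial : R)) := by simp
  show ((-1 : R[X]) ^ Multiset.card s * ((Multiset.card s).factorial : R[X]) *
    (s.map fun x => (C x + C (y x) * X : R[X])).prod).coeff j = _
  rw [h8, coeff_C_mul]

end Pool.Agent.K4H57.CI
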