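import Pool.Agent.K4H57.CI.Cubic

/-!
# Quartic polynomials which split modulo all small primes
-/

set_option autoImplicit false
set_option maxHeartbeats 4000000

open Filter

namespace Pool.Agent.K4H57.CI

/-- `X⁴ - b X³ + c X² - d X + e` splits modulo `m`. -/
def SplitsMod4 (m b c d e : ℤ) : Prop := ∃ x y z t : ℤ, m ∣ b - (x + y + z + t) ∧
  m ∣ c - (x * y + x * z + x * t + y * z + y * t + z * t) ∧
  m ∣ d - (x * y * z + x * y * t + x * z * t + y * z * t) ∧ m ∣ e - x * y * z * t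

/-- `X⁴ - b X³ + c X² - d X + e` splits over the integers. -/
def Splits4 (b c d e : ℤ) : Prop := ∃ x y z t : ℤ, b = x + y + z + t ∧
  c = x * y + x * z + x * t + y * z + y * t + z * t ∧
  d = x * y * z + x * y * t + x * z * t + y * z * t ∧ e = x * y * z * t

lemma rat_root (b c d e : ℤ) (y : ℚ) (h : y ^ 4 - b * y ^ 3 + c * y ^ 2 - d * y + e = 0) :
    ∃ z : ℤ, y = z := by
  have h1 : IsIntegral ℤ y := by
    refine ⟨Polynomial.X ^ 4 - Polynomial.C b * Polynomial.X ^ 3 +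
      Polynomial.C c * Polynomial.X ^ 2 - Polynomial.C d * Polynomial.X + Polynomial.C e, ?_, ?_⟩
    · monicity!
    · simp only [Polynomial.eval₂_add, Polynomial.eval₂_sub, Polynomial.eval₂_mul,
        Polynomial.eval₂_pow, Polynomial.eval₂_X, Polynomial.eval₂_C]
      simpa using h
  obtain ⟨z, hz⟩ := IsIntegrallyClosed.isIntegral_iff.1 h1
  exact ⟨z, by rw [← hz]; simp⟩

/-- From the square roots of the resolvents. -/
lemma splits4_of (b c d e s₁ s₂ s₃ : ℤ) (h1 : s₁ ^ 2 + s₂ ^ 2 + s₃ ^ 2 = 3 * b ^ 2 - 8 * c)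
    (h2 : s₁ ^ 2 * s₂ ^ 2 + s₁ ^ 2 * s₃ ^ 2 + s₂ ^ 2 * s₃ ^ 2 =
      3 * (b ^ 2 - 4 * c) ^ 2 + 8 * (b ^ 2 - 4 * c) * c + 16 * (b * d - 4 * e))
    (h3 : s₁ * s₂ * s₃ = b ^ 3 - 4 * b * c + 8 * d) : Splits4 b c d e := by
  have q1 : (s₁ : ℚ) ^ 2 + (s₂ : ℚ) ^ 2 + (s₃ : ℚ) ^ 2 = 3 * (b : ℚ) ^ 2 - 8 * c := by
    exact_mod_cast h1
  have q2 : (s₁ : ℚ) ^ 2 * (s₂ : ℚ) ^ 2 + (s₁ : ℚ) ^ 2 * (s₃ : ℚ) ^ 2 +
      (s₂ : ℚ) ^ 2 * (s₃ : ℚ) ^ 2 =
      3 * ((b : ℚ) ^ 2 - 4 * c) ^ 2 + 8 * ((b : ℚ) ^ 2 - 4 * c) * c + 16 * (b * d - 4 * e) := by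
    exact_mod_cast h2
  have q3 : (s₁ : ℚ) * s₂ * s₃ = (b : ℚ) ^ 3 - 4 * b * c + 8 * d := by exact_mod_cast h3
  set x : ℚ := (b + s₁ + s₂ + s₃) / 4 with hx
  set y : ℚ := (b + s₁ - s₂ - s₃) / 4 with hy
  set z : ℚ := (b - s₁ + s₂ - s₃) / 4 with hz
  set t : ℚ := (b - s₁ - s₂ + s₃) / 4 with ht
  have e1 : (b : ℚ) = x + y + z + t := by
    rw [hx, hy, hz, ht]
    ring
  have e2 : (c : ℚ) = x * y + x * z + x * t + y * z + y * t + z * t := by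
    rw [hx, hy, hz, ht]
    linear_combination (1 / 8 : ℚ) * q1
  have e3 : (d : ℚ) = x * y * z + x * y * t + x * z * t + y * z * t := by
    rw [hx, hy, hz, ht]
    linear_combination (b / 16 : ℚ) * q1 - (1 / 8 : ℚ) * q3
  have e4 : (e : ℚ) = x * y * z * t := by
    rw [hx, hy, hz, ht]
    linear_combination ((2 * (b : ℚ) ^ 2 - (((s₁ : ℚ) ^ 2 + (s₂ : ℚ) ^ 2 + (s₃ : ℚ) ^ 2) +
      (3 * (b : ℚ) ^ 2 - 8 * c))) / 256) * q1 + (1 / 64 : ℚ) * q2 - (b / 32 : ℚ) * q3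
  obtain ⟨X, hX⟩ := rat_root b c d e x (by rw [e1, e2, e3, e4]; ring)
  obtain ⟨Y, hY⟩ := rat_root b c d e y (by rw [e1, e2, e3, e4]; ring)
  obtain ⟨Z, hZ⟩ := rat_root b c d e z (by rw [e1, e2, e3, e4]; ring)
  obtain ⟨T, hT⟩ := rat_root b c d e t (by rw [e1, e2, e3, e4]; ring)
  rw [hX, hY, hZ, hT] at e1 e2 e3 e4
  exact ⟨X, Y, Z, T, by exact_mod_cast e1, by exact_mod_cast e2, by exact_mod_cast e3,
    by exact_mod_cast e4⟩

/-- The congruence for the resolvent cubic. -/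
lemma resolvent_mod {m b c d e x y z t : ℤ} (h1 : m ∣ b - (x + y + z + t))
    (h2 : m ∣ c - (x * y + x * z + x * t + y * z + y * t + z * t))
    (h3 : m ∣ d - (x * y * z + x * y * t + x * z * t + y * z * t)) (h4 : m ∣ e - x * y * z * t) :
    m ∣ c - ((x * y + z * t) + (x * z + y * t) + (x * t + y * z)) ∧
    m ∣ (b * d - 4 * e) - ((x * y + z * t) * (x * z + y * t) + (x * y + z * t) * (x * t + y * z) +
      (x * z + y * t) * (x * t + y * z)) ∧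
    m ∣ (b ^ 2 * e + d ^ 2 - 4 * c * e) - (x * y + z * t) * (x * z + y * t) *
      (x * t + y * z) := by
  have m1 : x + y + z + t ≡ b [ZMOD m] := (Int.modEq_iff_dvd).2 h1
  have m2 : x * y + x * z + x * t + y * z + y * t + z * t ≡ c [ZMOD m] := (Int.modEq_iff_dvd).2 h2
  have m3 : x * y * z + x * y * t + x * z * t + y * z * t ≡ d [ZMOD m] :=
    (Int.modEq_iff_dvd).2 h3
  have m4 : x * y * z * t ≡ e [ZMOD m] := (Int.modEq_iff_dvd).2 h4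
  refine ⟨?_, ?_, ?_⟩
  · have e0 : c - ((x * y + z * t) + (x * z + y * t) + (x * t + y * z)) =
      c - (x * y + x * z + x * t + y * z + y * t + z * t) := by ring
    rw [e0]
    exact h2
  · rw [← Int.modEq_iff_dvd]
    have e0 : (x * y + z * t) * (x * z + y * t) + (x * y + z * t) * (x * t + y * z) +
      (x * z + y * t) * (x * t + y * z) = (x + y + z + t) *
        (x * y * z + x * y * t + x * z * t + y * z * t) - 4 * (x * y * z * t) := by ring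
    rw [e0]
    exact (m1.mul m3).sub (m4.mul_left 4)
  · rw [← Int.modEq_iff_dvd]
    have e0 : (x * y + z * t) * (x * z + y * t) * (x * t + y * z) = (x + y + z + t) ^ 2 *
      (x * y * z * t) + (x * y * z + x * y * t + x * z * t + y * z * t) ^ 2 -
        4 * (x * y + x * z + x * t + y * z + y * t + z * t) * (x * y * z * t) := by ring
    rw [e0]
    exact (((m1.pow 2).mul m4).add (m3.pow 2)).sub ((m2.mul_left 4).mul m4)

/-- A square modulo primes. -/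
lemma square_mod {p : ℕ} (hp : p.Prime) {b c d e x y z t θ φ ψ : ℤ}
    (h1 : (p : ℤ) ∣ b - (x + y + z + t))
    (h2 : (p : ℤ) ∣ c - (x * y + x * z + x * t + y * z + y * t + z * t))
    (h3 : (p : ℤ) ∣ d - (x * y * z + x * y * t + x * z * t + y * z * t))
    (h4 : (p : ℤ) ∣ e - x * y * z * t)
    (r1 : c = θ + φ + ψ) (r2 : b * d - 4 * e = θ * φ + θ * ψ + φ * ψ)
    (r3 : b ^ 2 * e + d ^ 2 - 4 * c * e = θ * φ * ψ) :
    ∃ r : ℤ, (p : ℤ) ∣ (b ^ 2 - 4 * c + 4 * θ) - r ^ 2 := by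
  obtain ⟨g1, g2, g3⟩ := resolvent_mod h1 h2 h3 h4
  have hprod : (p : ℤ) ∣ (θ - (x * y + z * t)) * ((θ - (x * z + y * t)) * (θ - (x * t + y * z))) := by
    have m1 : (x * y + z * t) + (x * z + y * t) + (x * t + y * z) ≡ c [ZMOD p] :=
      (Int.modEq_iff_dvd).2 g1
    have m2 := (Int.modEq_iff_dvd).2 g2
    have m3 := (Int.modEq_iff_dvd).2 g3
    have e0 : (θ - (x * y + z * t)) * ((θ - (x * z + y * t)) * (θ - (x * t + y * z))) =
      (θ ^ 3 - ((x * y + z * t) + (x * z + y * t) + (x * t + y * z)) * θ ^ 2 +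
        ((x * y + z * t) * (x * z + y * t) + (x * y + z * t) * (x * t + y * z) +
      (x * z + y * t) * (x * t + y * z)) * θ - (x * y + z * t) * (x * z + y * t) *
      (x * t + y * z)) := by ring
    have e1 : (0 : ℤ) = θ ^ 3 - c * θ ^ 2 + (b * d - 4 * e) * θ -
      (b ^ 2 * e + d ^ 2 - 4 * c * e) := by
      rw [r3, r2, r1]
      ring
    rw [← Int.modEq_zero_iff_dvd, e0, e1]
    exact (((Int.ModEq.refl (θ ^ 3)).sub (m1.mul_right _)).add (m2.mul_right _)).sub m3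
  have mb : x + y + z + t ≡ b [ZMOD p] := (Int.modEq_iff_dvd).2 h1
  have mc : x * y + x * z + x * t + y * z + y * t + z * t ≡ c [ZMOD p] :=
    (Int.modEq_iff_dvd).2 h2
  rcases Int.Prime.dvd_mul' hp hprod with h | h
  · refine ⟨x + y - z - t, ?_⟩
    rw [← Int.modEq_iff_dvd]
    have mθ : x * y + z * t ≡ θ [ZMOD p] := (Int.modEq_iff_dvd).2 h
    have e0 : (x + y - z - t) ^ 2 = (x + y + z + t) ^ 2 -
      4 * (x * y + x * z + x * t + y * z + y * t + z * t) + 4 * (x * y + z * t) := by ring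
    rw [e0]
    exact ((mb.pow 2).sub (mc.mul_left 4)).add (mθ.mul_left 4)
  · rcases Int.Prime.dvd_mul' hp h with h | h
    · refine ⟨x + z - y - t, ?_⟩
      rw [← Int.modEq_iff_dvd]
      have mθ : x * z + y * t ≡ θ [ZMOD p] := (Int.modEq_iff_dvd).2 h
      have e0 : (x + z - y - t) ^ 2 = (x + y + z + t) ^ 2 -
        4 * (x * y + x * z + x * t + y * z + y * t + z * t) + 4 * (x * z + y * t) := by ring
      rw [e0]
      exact ((mb.pow 2).sub (mc.mul_left 4)).add (mθ.mul_left 4)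
    · refine ⟨x + t - y - z, ?_⟩
      rw [← Int.modEq_iff_dvd]
      have mθ : x * t + y * z ≡ θ [ZMOD p] := (Int.modEq_iff_dvd).2 h
      have e0 : (x + t - y - z) ^ 2 = (x + y + z + t) ^ 2 -
        4 * (x * y + x * z + x * t + y * z + y * t + z * t) + 4 * (x * t + y * z) := by ring
      rw [e0]
      exact ((mb.pow 2).sub (mc.mul_left 4)).add (mθ.mul_left 4)

/-- Bounds. -/
lemma disc_bound {δ b c d : ℤ} (hδ : 1 ≤ δ) (hb : |b| ≤ δ) (hc : |c| ≤ 5 * δ ^ 2)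
    (hd : |d| ≤ 6 * δ ^ 3) : |disc3 b c d| ≤ 2100 * δ ^ 6 := by
  have a0 : (0 : ℤ) ≤ δ := by linarith
  have h1 : |b ^ 2 * c ^ 2| ≤ 25 * δ ^ 6 := by
    rw [abs_mul, abs_pow, abs_pow]
    calc |b| ^ 2 * |c| ^ 2 ≤ δ ^ 2 * (5 * δ ^ 2) ^ 2 := by gcongr
      _ = 25 * δ ^ 6 := by ring
  have h2 : |4 * c ^ 3| ≤ 500 * δ ^ 6 := by
    rw [abs_mul, abs_pow]
    calc |(4 : ℤ)| * |c| ^ 3 ≤ 4 * (5 * δ ^ 2) ^ 3 := by
          rw [abs_of_nonneg (by norm_num)]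
          gcongr
      _ = 500 * δ ^ 6 := by ring
  have h3 : |4 * b ^ 3 * d| ≤ 24 * δ ^ 6 := by
    rw [abs_mul, abs_mul, abs_pow]
    calc |(4 : ℤ)| * |b| ^ 3 * |d| ≤ 4 * δ ^ 3 * (6 * δ ^ 3) := by
          rw [abs_of_nonneg (by norm_num)]
          gcongr
      _ = 24 * δ ^ 6 := by ring
  have h4 : |18 * b * c * d| ≤ 540 * δ ^ 6 := by
    rw [abs_mul, abs_mul, abs_mul]
    calc |(18 : ℤ)| * |b| * |c| * |d| ≤ 18 * δ * (5 * δ ^ 2) * (6 * δ ^ 3) := by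
          rw [abs_of_nonneg (by norm_num)]
          gcongr
      _ = 540 * δ ^ 6 := by ring
  have h5 : |27 * d ^ 2| ≤ 972 * δ ^ 6 := by
    rw [abs_mul, abs_pow]
    calc |(27 : ℤ)| * |d| ^ 2 ≤ 27 * (6 * δ ^ 3) ^ 2 := by
          rw [abs_of_nonneg (by norm_num)]
          gcongr
      _ = 972 * δ ^ 6 := by ring
  have h6 : (0 : ℤ) ≤ δ ^ 6 := by positivity
  rw [abs_le] at h1 h2 h3 h4 h5 ⊢
  unfold disc3
  constructor <;> linarith [h1.1, h1.2, h2.1, h2.2, h3.1, h3.2, h4.1, h4.2, h5.1, h5.2]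

/-- **Quartic polynomials which split modulo all small primes split.** -/
theorem quartic_split (k : ℕ) (A ε : ℝ) (hε : 0 < ε) : ∀ᶠ y : ℕ in atTop, ∀ b c d e δ B : ℤ,
    B ≠ 0 → (|B| : ℝ) ≤ (y : ℝ) ^ A → 1 ≤ δ → |b| ≤ δ → |c| ≤ δ → |d| ≤ δ → |e| ≤ δ →
    (δ : ℝ) ^ 6 ≤ (y : ℝ) ^ (4 * Real.exp (1 / 2) - ε) →
    (∀ p : ℕ, p.Prime → k < p → p ≤ y → ¬ (p : ℤ) ∣ B → SplitsMod4 p b c d e) →
      Splits4 b c d e := by
  obtain ⟨he1, he2⟩ := Pool.Agent.R852.BC.exp_half_bounds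
  have hcub := cubic_split k (max A 8) (ε / 2) (by positivity)
  have hm2 := Pool.Agent.R852.BC.main2 k A (ε / 2) (by positivity)
  have tc : Tendsto (fun q : ℕ => (q : ℝ)) atTop atTop := tendsto_natCast_atTop_atTop
  have f1 : ∀ᶠ x : ℝ in atTop, 2100 ≤ x ^ (ε / 2) :=
    (tendsto_rpow_atTop (by positivity : (0 : ℝ) < ε / 2)).eventually_ge_atTop _
  filter_upwards [hcub, hm2, tc.eventually f1, eventually_ge_atTop 16]
    with y hcub hm2 f1 hy16 b c d e δ B hB0 hB hδ hb hc hd he hδ6 hp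
  have hyr : (16 : ℝ) ≤ y := by exact_mod_cast hy16
  have hy0 : (0 : ℝ) < y := by linarith
  have hy1 : (1 : ℝ) ≤ y := by linarith
  have hδ2 : δ ≤ δ ^ 2 := by nlinarith
  have hδ3 : δ ^ 2 ≤ δ ^ 3 := by nlinarith [sq_nonneg δ]
  have hδ26 : δ ^ 2 ≤ δ ^ 6 := pow_le_pow_right₀ hδ (by norm_num)
  have hC : |b * d - 4 * e| ≤ 5 * δ ^ 2 := by
    have h1 : |b * d| ≤ δ ^ 2 := by
      rw [abs_mul]
      calc |b| * |d| ≤ δ * δ := by gcongr
        _ = δ ^ 2 := by ring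
    rw [abs_le] at h1 he ⊢
    constructor <;> linarith [h1.1, h1.2, he.1, he.2]
  have hD : |b ^ 2 * e + d ^ 2 - 4 * c * e| ≤ 6 * δ ^ 3 := by
    have h1 : |b ^ 2 * e| ≤ δ ^ 3 := by
      rw [abs_mul, abs_pow]
      calc |b| ^ 2 * |e| ≤ δ ^ 2 * δ := by gcongr
        _ = δ ^ 3 := by ring
    have h2 : |d ^ 2| ≤ δ ^ 2 := by
      rw [abs_pow]
      gcongr
    have h3 : |c * e| ≤ δ ^ 2 := by
      rw [abs_mul]
      calc |c| * |e| ≤ δ * δ := by gcongr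
        _ = δ ^ 2 := by ring
    rw [abs_le] at h1 h2 h3 ⊢
    constructor <;> linarith [h1.1, h1.2, h2.1, h2.2, h3.1, h3.2]
  have hbig : ∀ m : ℤ, |m| ≤ 2100 * δ ^ 6 →
      |(m : ℝ)| ≤ (y : ℝ) ^ (4 * Real.exp (1 / 2) - ε / 2) := by
    intro m hm
    have h1 : |(m : ℝ)| ≤ 2100 * (δ : ℝ) ^ 6 := by exact_mod_cast hm
    calc |(m : ℝ)| ≤ 2100 * (δ : ℝ) ^ 6 := h1
      _ ≤ (y : ℝ) ^ (ε / 2) * (y : ℝ) ^ (4 * Real.exp (1 / 2) - ε) := by gcongr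
      _ = (y : ℝ) ^ (4 * Real.exp (1 / 2) - ε / 2) := by
          rw [← Real.rpow_add hy0]
          congr 1
          ring
  -- the resolvent splits
  obtain ⟨θ, φ, ψ, r1, r2, r3⟩ := hcub c (b * d - 4 * e) (b ^ 2 * e + d ^ 2 - 4 * c * e) B hB0
    (hB.trans (Real.rpow_le_rpow_of_exponent_le hy1 (le_max_left _ _))) (by
      have h1 : |c ^ 2 - 3 * (b * d - 4 * e)| ≤ 2100 * δ ^ 6 := by
        have h2 : |c ^ 2| ≤ δ ^ 2 := by
          rw [abs_pow]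
          gcongr
        rw [abs_le] at h2 hC ⊢
        constructor <;> linarith [h2.1, h2.2, hC.1, hC.2]
      refine (hbig _ h1).trans (Real.rpow_le_rpow_of_exponent_le hy1 ?_)
      refine le_trans ?_ (le_max_right _ _)
      linarith) (hbig _ (disc_bound hδ hc hC hD)) (by
      intro p hpp hkp hpy hpB
      obtain ⟨x, z, t, v, h1, h2, h3, h4⟩ := hp p hpp hkp hpy hpB
      obtain ⟨g1, g2, g3⟩ := resolvent_mod h1 h2 h3 h4
      exact ⟨_, _, _, g1, g2, g3⟩)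
  -- the bounds for the roots of the resolvent
  have hsq3 : θ ^ 2 + φ ^ 2 + ψ ^ 2 ≤ 11 * δ ^ 2 := by
    have h1 : θ ^ 2 + φ ^ 2 + ψ ^ 2 = c ^ 2 - 2 * (b * d - 4 * e) := by
      rw [r2, r1]
      ring
    have h2 : |c ^ 2| ≤ δ ^ 2 := by
      rw [abs_pow]
      gcongr
    rw [h1]
    rw [abs_le] at h2 hC
    linarith [h2.1, h2.2, hC.1, hC.2]
  have hres : ∀ θ φ ψ : ℤ, c = θ + φ + ψ → b * d - 4 * e = θ * φ + θ * ψ + φ * ψ →
      b ^ 2 * e + d ^ 2 - 4 * c * e = θ * φ * ψ → θ ^ 2 + φ ^ 2 + ψ ^ 2 ≤ 11 * δ ^ 2 →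
      ∃ s : ℤ, b ^ 2 - 4 * c + 4 * θ = s ^ 2 := by
    intro θ φ ψ r1 r2 r3 hsq3
    have hθ : |θ| ≤ 4 * δ := by
      apply abs_le_of_sq_le_sq _ (by linarith)
      nlinarith [sq_nonneg φ, sq_nonneg ψ]
    have h1 : |b ^ 2 - 4 * c + 4 * θ| ≤ 2100 * δ ^ 6 := by
      have h2 : |b ^ 2| ≤ δ ^ 2 := by
        rw [abs_pow]
        gcongr
      rw [abs_le] at h2 hc hθ ⊢
      constructor <;> linarith [h2.1, h2.2, hc.1, hc.2, hθ.1, hθ.2]
    have h2 := hm2 (b ^ 2 - 4 * c + 4 * θ) B hB0 hB (hbig _ h1) (by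
      intro p hpp hkp hpy hpB
      obtain ⟨x, z, t, v, h1, h2, h3, h4⟩ := hp p hpp hkp hpy hpB
      exact square_mod hpp h1 h2 h3 h4 r1 r2 r3)
    obtain ⟨s, hs⟩ := h2
    exact ⟨s, by rw [hs]; ring⟩
  obtain ⟨s₁, hs₁⟩ := hres θ φ ψ r1 r2 r3 hsq3
  obtain ⟨s₂, hs₂⟩ := hres φ θ ψ (by rw [r1]; ring) (by rw [r2]; ring) (by rw [r3]; ring)
    (by linarith)
  obtain ⟨s₃, hs₃⟩ := hres ψ θ φ (by rw [r1]; ring) (by rw [r2]; ring) (by rw [r3]; ring)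
    (by linarith)
  have hK : (s₁ * s₂ * s₃) ^ 2 = (b ^ 3 - 4 * b * c + 8 * d) ^ 2 := by
    rw [mul_pow, mul_pow, ← hs₁, ← hs₂, ← hs₃]
    have e1 : (b ^ 2 - 4 * c + 4 * θ) * (b ^ 2 - 4 * c + 4 * φ) * (b ^ 2 - 4 * c + 4 * ψ) =
      (b ^ 2 - 4 * c) ^ 3 + 4 * (b ^ 2 - 4 * c) ^ 2 * (θ + φ + ψ) +
        16 * (b ^ 2 - 4 * c) * (θ * φ + θ * ψ + φ * ψ) + 64 * (θ * φ * ψ) := by ring
    rw [e1, ← r1, ← r2, ← r3]
    ring
  have hS1 : s₁ ^ 2 + s₂ ^ 2 + s₃ ^ 2 = 3 * b ^ 2 - 8 * c := by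
    rw [← hs₁, ← hs₂, ← hs₃]
    linear_combination -4 * r1
  have hS2 : s₁ ^ 2 * s₂ ^ 2 + s₁ ^ 2 * s₃ ^ 2 + s₂ ^ 2 * s₃ ^ 2 =
      3 * (b ^ 2 - 4 * c) ^ 2 + 8 * (b ^ 2 - 4 * c) * c + 16 * (b * d - 4 * e) := by
    rw [← hs₁, ← hs₂, ← hs₃]
    linear_combination -8 * (b ^ 2 - 4 * c) * r1 - 16 * r2
  rcases sq_eq_sq_iff_eq_or_eq_neg.1 hK with h | h
  · exact splits4_of b c d e s₁ s₂ s₃ hS1 hS2 h
  · exact splits4_of b c d e s₁ s₂ (-s₃) (by rw [← hS1]; ring) (by rw [← hS2]; ring)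
      (by linear_combination -h)

end Pool.Agent.K4H57.CI
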