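import Pool.Agent.K4H57.CI.Core

/-!
# The support of the signed family of the sums of the Chern roots
-/

set_option autoImplicit false

open Polynomial

namespace Pool.Agent.K4H57.CI

open Pool.Agent.R920.CH

/-- If `N` is large compared with `2 ^ r` and the distances of the sums `a_S` from the integer `c`,
then the sums of the signs over all `S` with given `a_S` are `0`, unless this value is an
integer. -/
theorem support_int {N r h R : ℕ} (P : ℤ[X]) (hP : P.Monic) (hr : P.natDegree = r)
    (hRR : RiemannRochSub N P) (h30 : 30 * 2 ^ r ≤ h) (hR : 5 * R ≤ h)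
    (hn : 2 * h + 2 ^ r ≤ N + 1) (c : ℤ)
    (hx : ∀ S ∈ (rootsOf P).powerset, ‖S.sum - c‖ ≤ R) (x : ℂ) (hxZ : ¬ ∃ a : ℤ, x = a) :
    (((rootsOf P).powerset.filter fun S => S.sum = x).map
      fun S => (-1 : ℂ) ^ Multiset.card S).sum = 0 := by
  have hcard : Multiset.card (rootsOf P) = r := by
    rw [rootsOf, splits_iff_card_roots.1 (IsAlgClosed.splits _), hP.natDegree_map, hr]
  set s : Multiset (Multiset ℂ) := (rootsOf P).powerset with hs
  set v : Multiset ℂ → ℂ := fun S => S.sum - c with hv
  set W : ℂ → ℂ := fun y => ((2 * h).factorial : ℂ)⁻¹ *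
    ∏ j ∈ Finset.range (2 * h), (y + h - j) with hW
  set w : Multiset ℂ → ℂ := fun S => (-1) ^ Multiset.card S * W (v S) with hw
  have hcs : Multiset.card s = 2 ^ r := by rw [hs, Multiset.card_powerset, hcard]
  have hsR : ∀ y ∈ s, ‖v y‖ ≤ R := hx
  have hC : (0 : ℝ) < (2 * h).choose h := by
    exact_mod_cast Nat.choose_pos (by omega : h ≤ 2 * h)
  have hsign : ∀ S : Multiset ℂ, ‖(-1 : ℂ) ^ Multiset.card S‖ = 1 := by
    intro S
    rw [norm_pow, norm_neg, norm_one, one_pow]
  have key : ∀ t < Multiset.card s,
      (s.map fun y => w y * (descPochhammer ℂ t).eval (v y)).sum = 0 := by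
    intro t ht
    rw [hcs] at ht
    -- the integer-valued polynomial
    set f : ℚ[X] := (bin (2 * h)).comp (X + C ((h - c : ℤ) : ℚ)) *
      (bin t).comp (X + C ((-c : ℤ) : ℚ)) with hf
    have hfi : IsIntegerValued f := intVal_mul (intVal_comp (bin_int _) _)
      (intVal_comp (bin_int _) _)
    have hfd : f.natDegree ≤ N := by
      rw [hf]
      refine natDegree_mul_le.trans ?_
      rw [natDegree_comp, natDegree_comp, natDegree_X_add_C, natDegree_X_add_C, mul_one, mul_one]
      have h1 := natDegree_bin (2 * h)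
      have h2 := natDegree_bin t
      omega
    obtain ⟨z, hz⟩ := hRR f hfi hfd
    have hval : ∀ x : ℂ, aeval x f = W (x - c) * ((t.factorial : ℂ)⁻¹ *
        ∏ j ∈ Finset.range t, ((x - c) - j)) := by
      intro x
      rw [hf, map_mul, aeval_comp, aeval_comp, map_add, map_add, aeval_X, aeval_C, aeval_C,
        aeval_bin, aeval_bin]
      congr 1
      · rw [hW]
        show _ = ((2 * h).factorial : ℂ)⁻¹ * ∏ j ∈ Finset.range (2 * h), (x - c + h - j)
        congr 1
        refine Finset.prod_congr rfl fun j _ => ?_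
        simp only [eq_ratCast, Rat.cast_intCast]
        push_cast
        ring
      · congr 1
        refine Finset.prod_congr rfl fun j _ => ?_
        simp only [eq_ratCast, Rat.cast_intCast]
        push_cast
        ring
    have hsum : altSum P f =
        (s.map fun y => w y * ((t.factorial : ℂ)⁻¹ * ∏ j ∈ Finset.range t, (v y - j))).sum := by
      rw [altSum]
      congr 1
      refine Multiset.map_congr rfl fun S _ => ?_
      rw [hval, hw, hv]
      ring
    rw [hsum] at hz
    have hsmall : ‖(s.map fun y => w y * ((t.factorial : ℂ)⁻¹ *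
        ∏ j ∈ Finset.range t, (v y - j))).sum‖ < 1 := by
      have h1 : ‖(s.map fun y => w y * ((t.factorial : ℂ)⁻¹ *
          ∏ j ∈ Finset.range t, (v y - j))).sum‖ ≤ Multiset.card s *
          (((R + h).choose h : ℝ) ^ 2 / (2 * h).choose h * ((R + 2 ^ r).choose (2 ^ r) : ℝ)) := by
        have h2 := sum_norm_le (s.map fun y => w y * ((t.factorial : ℂ)⁻¹ *
          ∏ j ∈ Finset.range t, (v y - j))) id
          (((R + h).choose h : ℝ) ^ 2 / (2 * h).choose h * ((R + 2 ^ r).choose (2 ^ r) : ℝ)) (by
            intro u hu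
            obtain ⟨y, hy, rfl⟩ := Multiset.mem_map.1 hu
            rw [id, norm_mul, hw]
            have h3 : ‖(-1 : ℂ) ^ Multiset.card y * W (v y)‖ = ‖W (v y)‖ := by
              rw [norm_mul, hsign, one_mul]
            show ‖(-1 : ℂ) ^ Multiset.card y * W (v y)‖ * _ ≤ _
            rw [h3]
            exact mul_le_mul (norm_central (v y) R h (hsR y hy))
              (norm_small (v y) R t (2 ^ r) (hsR y hy) ht.le) (norm_nonneg _) (by positivity))
        rw [Multiset.map_id, Multiset.card_map] at h2
        exact h2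
      refine h1.trans_lt ?_
      rw [hcs]
      have h2 := main_bound (2 ^ r) h R (Nat.one_le_two_pow) h30 hR
      have h3 : ((2 ^ r : ℕ) : ℝ) * (((R + h).choose h : ℝ) ^ 2 / (2 * h).choose h *
          ((R + 2 ^ r).choose (2 ^ r) : ℝ)) =
          ((2 ^ r : ℕ) : ℝ) * ((R + 2 ^ r).choose (2 ^ r) : ℝ) * ((R + h).choose h : ℝ) ^ 2 /
            (2 * h).choose h := by ring
      rw [h3, div_lt_one hC]
      exact h2
    have h0 := int_of_small hz hsmall
    have h1 : (fun y => w y * (descPochhammer ℂ t).eval (v y)) =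
        fun y => (t.factorial : ℂ) * (w y * ((t.factorial : ℂ)⁻¹ *
          ∏ j ∈ Finset.range t, (v y - j))) := by
      funext y
      rw [descPochhammer_eval_eq_prod_range]
      have : (t.factorial : ℂ) ≠ 0 := by exact_mod_cast t.factorial_ne_zero
      field_simp
    rw [h1, Multiset.sum_map_mul_left, h0, mul_zero]
  have hcore := signed_core s w v key (x - c)
  have h1 : (s.filter fun y => v y = x - c) = s.filter fun S => S.sum = x := by
    refine Multiset.filter_congr fun S _ => ?_
    rw [hv]
    constructor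
    · intro h
      simpa using h
    · intro h
      show S.sum - c = x - c
      rw [h]
  rw [h1] at hcore
  have h2 : ((s.filter fun S => S.sum = x).map w).sum =
      ((s.filter fun S => S.sum = x).map fun S => (-1 : ℂ) ^ Multiset.card S).sum *
        W (x - c) := by
    rw [← Multiset.sum_map_mul_right]
    refine congrArg Multiset.sum (Multiset.map_congr rfl fun y hy => ?_)
    rw [hw, hv]
    show (-1 : ℂ) ^ Multiset.card y * W (y.sum - c) = _
    rw [(Multiset.mem_filter.1 hy).2]
  rw [h2] at hcore
  refine (mul_eq_zero.1 hcore).resolve_right fun h3 => hxZ ?_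
  have h4 : ((2 * h).factorial : ℂ)⁻¹ * ∏ j ∈ Finset.range (2 * h), (x - c + h - j) = 0 := h3
  rw [mul_eq_zero] at h4
  rcases h4 with h4 | h4
  · exfalso
    rw [inv_eq_zero] at h4
    exact (Nat.factorial_ne_zero _) (by exact_mod_cast h4)
  · rw [Finset.prod_eq_zero_iff] at h4
    obtain ⟨j, _, hj⟩ := h4
    refine ⟨c - h + j, ?_⟩
    push_cast
    linear_combination hj

end Pool.Agent.K4H57.CI
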