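import Pool.Agent.K4H57.CI.LowFin

/-!
# Codimension three
-/

set_option autoImplicit false
set_option maxHeartbeats 4000000

open Polynomial Filter

namespace Pool.Agent.K4H57.CI

open Pool.Agent.R920.CH

/-- Codimension three: polynomial degree and bounded discriminant. -/
theorem three_core (A ε : ℝ) (hε : 0 < ε) : ∃ N₀ : ℕ, ∀ N ≥ N₀, ∀ c : ℕ → ℤ, c 0 = 1 →
    (∀ i ≤ 3, 0 ≤ c i) → RiemannRochSub N (chernPoly 3 c) →
    ((∑ i ∈ Finset.range 4, c i : ℤ) : ℝ) ≤ (N : ℝ) ^ A →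
    |((disc3 (c 1) (c 2) (c 3) : ℤ) : ℝ)| ≤ (N : ℝ) ^ (4 * Real.exp (1 / 2) - ε) →
    ∃ a : Multiset ℤ, (∀ x ∈ a, 1 ≤ x) ∧ Multiset.card a = 3 ∧
      chernPoly 3 c = (a.map fun x => X - C x).prod := by
  wlog hε1 : ε ≤ 1 / 10 generalizing ε
  · obtain ⟨N₀, h⟩ := this (1 / 10) (by norm_num) le_rfl
    refine ⟨max N₀ 1, fun N hN c h0 hpos hRR hδ hD => ?_⟩
    refine h N ((le_max_left _ _).trans hN) c h0 hpos hRR hδ (hD.trans ?_)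
    apply Real.rpow_le_rpow_of_exponent_le
    · exact_mod_cast (le_max_right N₀ 1).trans hN
    · linarith
  wlog hA : 0 ≤ A generalizing A
  · obtain ⟨N₀, h⟩ := this 0 le_rfl
    refine ⟨max N₀ 1, fun N hN c h0 hpos hRR hδ hD => ?_⟩
    refine h N ((le_max_left _ _).trans hN) c h0 hpos hRR (hδ.trans ?_) hD
    apply Real.rpow_le_rpow_of_exponent_le
    · exact_mod_cast (le_max_right N₀ 1).trans hN
    · linarith
  have hcub := cubic_split 3 (2 * A + 3) (ε / 2) (by positivity)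
  have tc : Tendsto (fun q : ℕ => (q : ℝ)) atTop atTop := tendsto_natCast_atTop_atTop
  have f1 : ∀ᶠ x : ℝ in atTop, (4 : ℝ) ^ (7 : ℝ) ≤ x ^ (ε / 2) :=
    (tendsto_rpow_atTop (by positivity : (0 : ℝ) < ε / 2)).eventually_ge_atTop _
  have f2 : ∀ᶠ x : ℝ in atTop, (4 : ℝ) ^ (A + 1) ≤ x := eventually_ge_atTop _
  obtain ⟨y₀, hy₀⟩ := eventually_atTop.1 ((hcub.and (tc.eventually f1)).and (tc.eventually f2))
  refine ⟨3 * (y₀ + 4), fun N hN c h0 hpos hRR hδ hD => ?_⟩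
  obtain ⟨he1, he2⟩ := Pool.Agent.R852.BC.exp_half_bounds
  set y : ℕ := N / 3 with hy
  have hyy : y₀ + 4 ≤ y := by
    rw [hy]
    omega
  obtain ⟨⟨hcub, f1⟩, f2⟩ := hy₀ y (by omega)
  obtain ⟨hM, hdeg⟩ := chernPoly_monic 3 c h0
  set δ : ℤ := ∑ i ∈ Finset.range 4, c i with hδd
  have hle : ∀ i ≤ 3, c i ≤ δ := by
    intro i hi
    exact Finset.single_le_sum (f := c) (fun j hj => hpos j (by
      rw [Finset.mem_range] at hj
      omega)) (Finset.mem_range.2 (by omega))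
  have hδ1 : 1 ≤ δ := by
    have := hle 0 (Nat.zero_le _)
    rwa [h0] at this
  have habs : ∀ i ≤ 3, |c i| ≤ δ := by
    intro i hi
    rw [abs_of_nonneg (hpos i hi)]
    exact hle i hi
  have hδr : (0 : ℝ) ≤ (δ : ℝ) := by exact_mod_cast (by linarith : (0 : ℤ) ≤ δ)
  have hyr : (4 : ℝ) ≤ y := by exact_mod_cast (by omega : 4 ≤ y)
  have hy0 : (0 : ℝ) < y := by linarith
  have hy1 : (1 : ℝ) ≤ y := by linarith
  have hN4 : (N : ℝ) ≤ 4 * y := by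
    have h2 : N ≤ 4 * y := by omega
    exact_mod_cast h2
  have hN0 : (0 : ℝ) ≤ N := Nat.cast_nonneg _
  have hδy : (δ : ℝ) ≤ (y : ℝ) ^ (A + 1) := by
    calc (δ : ℝ) ≤ (N : ℝ) ^ A := hδ
      _ ≤ (4 * y : ℝ) ^ A := Real.rpow_le_rpow hN0 hN4 hA
      _ = (4 : ℝ) ^ A * (y : ℝ) ^ A := Real.mul_rpow (by norm_num) hy0.le
      _ ≤ y * (y : ℝ) ^ A := by
          refine mul_le_mul_of_nonneg_right (le_trans ?_ f2) (by positivity)
          exact Real.rpow_le_rpow_of_exponent_le (by norm_num) (by linarith)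
      _ = (y : ℝ) ^ (A + 1) := by
          rw [Real.rpow_add hy0, Real.rpow_one]
          ring
  have hB : |(δ : ℝ)| ≤ (y : ℝ) ^ (2 * A + 3) := by
    rw [abs_of_nonneg hδr]
    exact hδy.trans (Real.rpow_le_rpow_of_exponent_le hy1 (by linarith))
  have hdisc : |((disc3 (c 1) (c 2) (c 3) : ℤ) : ℝ)| ≤
      (y : ℝ) ^ (4 * Real.exp (1 / 2) - ε / 2) := by
    calc |((disc3 (c 1) (c 2) (c 3) : ℤ) : ℝ)| ≤ (N : ℝ) ^ (4 * Real.exp (1 / 2) - ε) := hD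
      _ ≤ (4 * y : ℝ) ^ (4 * Real.exp (1 / 2) - ε) := Real.rpow_le_rpow hN0 hN4 (by linarith)
      _ = (4 : ℝ) ^ (4 * Real.exp (1 / 2) - ε) * (y : ℝ) ^ (4 * Real.exp (1 / 2) - ε) :=
          Real.mul_rpow (by norm_num) hy0.le
      _ ≤ (4 : ℝ) ^ (7 : ℝ) * (y : ℝ) ^ (4 * Real.exp (1 / 2) - ε) := by
          refine mul_le_mul_of_nonneg_right ?_ (by positivity)
          exact Real.rpow_le_rpow_of_exponent_le (by norm_num) (by linarith)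
      _ ≤ (y : ℝ) ^ (ε / 2) * (y : ℝ) ^ (4 * Real.exp (1 / 2) - ε) :=
          mul_le_mul_of_nonneg_right f1 (by positivity)
      _ = (y : ℝ) ^ (4 * Real.exp (1 / 2) - ε / 2) := by
          rw [← Real.rpow_add hy0]
          congr 1
          ring
  have hn : |(((c 1) ^ 2 - 3 * c 2 : ℤ) : ℝ)| ≤ (y : ℝ) ^ (2 * A + 3) := by
    have h1 : |(c 1) ^ 2 - 3 * c 2| ≤ 4 * δ ^ 2 := by
      have h3 := habs 2 (by norm_num)
      have h4 : |(c 1) ^ 2| ≤ δ ^ 2 := by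
        have h2 := habs 1 (by norm_num)
        rw [abs_pow]
        gcongr
      have h5 : δ ≤ δ ^ 2 := by nlinarith
      rw [abs_le] at h3 h4 ⊢
      constructor <;> linarith [h3.1, h3.2, h4.1, h4.2]
    have h2 : |(((c 1) ^ 2 - 3 * c 2 : ℤ) : ℝ)| ≤ 4 * (δ : ℝ) ^ 2 := by exact_mod_cast h1
    calc |(((c 1) ^ 2 - 3 * c 2 : ℤ) : ℝ)| ≤ 4 * (δ : ℝ) ^ 2 := h2
      _ ≤ y * ((y : ℝ) ^ (A + 1)) ^ 2 := by gcongr
      _ = (y : ℝ) ^ (2 * A + 3) := by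
          rw [← Real.rpow_natCast, ← Real.rpow_mul hy0.le]
          nth_rewrite 1 [← Real.rpow_one (y : ℝ)]
          rw [← Real.rpow_add hy0]
          congr 1
          push_cast
          ring
  have h := hcub (c 1) (c 2) (c 3) δ (by omega) hB hn hdisc (by
    intro p hp h3p hpy hpδ
    haveI : Fact p.Prime := ⟨hp⟩
    obtain ⟨x, hx⟩ := splits_mod_sub (chernPoly 3 c) hM hdeg hRR p h3p (by omega) (by
      rw [coeff_zero_chern, ← hδd]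
      intro h
      apply hpδ
      have h2 : ((-1 : ℤ)) ^ 3 * δ = -δ := by ring
      rw [h2] at h
      exact (dvd_neg).1 h)
    exact splitsMod3_of c h0 p x hx)
  obtain ⟨a, ha, hca⟩ := chern3 c h0 h
  refine ⟨a, fun x hx => ?_, ha, hca⟩
  apply root_pos 3 c h0 hpos
  rw [hca, eval_multiset_prod, Multiset.prod_eq_zero_iff, Multiset.map_map, Multiset.mem_map]
  exact ⟨x, hx, by simp⟩

lemma disc_bound_c {c₁ c₂ c₃ : ℤ} (h1 : 0 ≤ c₁) (h2 : 0 ≤ c₂) (h3 : 0 ≤ c₃) (h2' : c₂ ≤ c₁ ^ 2)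
    (h3' : c₃ ≤ c₁ ^ 3) : |disc3 c₁ c₂ c₃| ≤ 54 * c₁ ^ 6 := by
  have e1 : 0 ≤ c₁ ^ 2 * c₂ ^ 2 ∧ c₁ ^ 2 * c₂ ^ 2 ≤ c₁ ^ 6 := by
    refine ⟨by positivity, ?_⟩
    calc c₁ ^ 2 * c₂ ^ 2 ≤ c₁ ^ 2 * (c₁ ^ 2) ^ 2 := by gcongr
      _ = c₁ ^ 6 := by ring
  have e2 : 0 ≤ c₂ ^ 3 ∧ c₂ ^ 3 ≤ c₁ ^ 6 := by
    refine ⟨by positivity, ?_⟩
    calc c₂ ^ 3 ≤ (c₁ ^ 2) ^ 3 := by gcongr
      _ = c₁ ^ 6 := by ring
  have e3 : 0 ≤ c₁ ^ 3 * c₃ ∧ c₁ ^ 3 * c₃ ≤ c₁ ^ 6 := by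
    refine ⟨by positivity, ?_⟩
    calc c₁ ^ 3 * c₃ ≤ c₁ ^ 3 * c₁ ^ 3 := by gcongr
      _ = c₁ ^ 6 := by ring
  have e4 : 0 ≤ c₁ * c₂ * c₃ ∧ c₁ * c₂ * c₃ ≤ c₁ ^ 6 := by
    refine ⟨by positivity, ?_⟩
    calc c₁ * c₂ * c₃ ≤ c₁ * c₁ ^ 2 * c₁ ^ 3 := by gcongr
      _ = c₁ ^ 6 := by ring
  have e5 : 0 ≤ c₃ ^ 2 ∧ c₃ ^ 2 ≤ c₁ ^ 6 := by
    refine ⟨by positivity, ?_⟩
    calc c₃ ^ 2 ≤ (c₁ ^ 3) ^ 2 := by gcongr
      _ = c₁ ^ 6 := by ring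
  unfold disc3
  rw [abs_le]
  constructor <;> linarith [e1.1, e1.2, e2.1, e2.2, e3.1, e3.2, e4.1, e4.2, e5.1, e5.2]

/-- **Codimension three.** -/
theorem three (A ε : ℝ) (hε : 0 < ε) : ∃ N₀ : ℕ, ∀ N ≥ N₀, ∀ c : ℕ → ℤ, c 0 = 1 →
    (∀ i ≤ 3, 0 ≤ c i) → (∀ i ≤ 3, c i ≤ c 1 ^ i) → RiemannRochSub N (chernPoly 3 c) →
    ((c 1 : ℝ) ≤ (N : ℝ) ^ (2 / 3 * Real.exp (1 / 2) - ε) ∨
      ((∑ i ∈ Finset.range 4, c i : ℤ) : ℝ) ≤ (N : ℝ) ^ (Real.exp (1 / 2) - ε) ∨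
      (((∑ i ∈ Finset.range 4, c i : ℤ) : ℝ) ≤ (N : ℝ) ^ A ∧
        |((disc3 (c 1) (c 2) (c 3) : ℤ) : ℝ)| ≤ (N : ℝ) ^ (4 * Real.exp (1 / 2) - ε))) →
    ∃ a : Multiset ℤ, (∀ x ∈ a, 1 ≤ x) ∧ Multiset.card a = 3 ∧
      chernPoly 3 c = (a.map fun x => X - C x).prod := by
  obtain ⟨N₁, hN₁⟩ := three_core (max A 7) ε hε
  obtain ⟨he1, he2⟩ := Pool.Agent.R852.BC.exp_half_bounds
  have tc : Tendsto (fun q : ℕ => (q : ℝ)) atTop atTop := tendsto_natCast_atTop_atTop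
  have f1 : ∀ᶠ x : ℝ in atTop, (54 : ℝ) ≤ x ^ (3 * ε) :=
    (tendsto_rpow_atTop (by positivity : (0 : ℝ) < 3 * ε)).eventually_ge_atTop _
  obtain ⟨N₂, hN₂⟩ := eventually_atTop.1 (tc.eventually f1)
  refine ⟨max (max N₁ N₂) 4, fun N hN c h0 hpos hle hRR hcase => ?_⟩
  have hNN₁ : N₁ ≤ N := ((le_max_left _ _).trans (le_max_left _ _)).trans hN
  have hNN₂ : N₂ ≤ N := ((le_max_right _ _).trans (le_max_left _ _)).trans hN
  have hN4 : 4 ≤ N := (le_max_right _ _).trans hN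
  have f1 := hN₂ N hNN₂
  have hNr : (4 : ℝ) ≤ N := by exact_mod_cast hN4
  have hN0 : (0 : ℝ) < N := by linarith
  have hN1 : (1 : ℝ) ≤ N := by linarith
  have hp1 := hpos 1 (by norm_num)
  have hp2 := hpos 2 (by norm_num)
  have hp3 := hpos 3 (by norm_num)
  have hl2 := hle 2 (by norm_num)
  have hl3 := hle 3 (by norm_num)
  have hp1r : (0 : ℝ) ≤ c 1 := by exact_mod_cast hp1
  set δ : ℤ := ∑ i ∈ Finset.range 4, c i with hδd
  rcases hcase with h | h | ⟨h, h'⟩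
  · apply hN₁ N hNN₁ c h0 hpos hRR
    · have h2 : (c 1 : ℝ) ≤ (N : ℝ) ^ (2 : ℝ) :=
        h.trans (Real.rpow_le_rpow_of_exponent_le hN1 (by linarith))
      have h3 : δ ≤ 1 + c 1 + c 1 ^ 2 + c 1 ^ 3 := by
        rw [hδd]
        simp only [Finset.sum_range_succ, Finset.sum_range_zero, h0]
        linarith
      have h4 : (δ : ℝ) ≤ 1 + (c 1 : ℝ) + (c 1 : ℝ) ^ 2 + (c 1 : ℝ) ^ 3 := by exact_mod_cast h3
      have h5 : (N : ℝ) ^ (2 : ℝ) = (N : ℝ) ^ 2 := by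
        rw [← Real.rpow_natCast]
        norm_num
      rw [h5] at h2
      have h6 : (δ : ℝ) ≤ (N : ℝ) ^ (7 : ℝ) := by
        have h7 : (N : ℝ) ^ (7 : ℝ) = (N : ℝ) ^ 7 := by
          rw [← Real.rpow_natCast]
          norm_num
        rw [h7]
        calc (δ : ℝ) ≤ 1 + (c 1 : ℝ) + (c 1 : ℝ) ^ 2 + (c 1 : ℝ) ^ 3 := h4
          _ ≤ 1 + (N : ℝ) ^ 2 + ((N : ℝ) ^ 2) ^ 2 + ((N : ℝ) ^ 2) ^ 3 := by gcongr
          _ ≤ (N : ℝ) ^ 6 + (N : ℝ) ^ 6 + (N : ℝ) ^ 6 + (N : ℝ) ^ 6 := by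
              have a1 : (1 : ℝ) ≤ (N : ℝ) ^ 6 := one_le_pow₀ hN1
              have a2 : (N : ℝ) ^ 2 ≤ (N : ℝ) ^ 6 := pow_le_pow_right₀ hN1 (by norm_num)
              have a3 : ((N : ℝ) ^ 2) ^ 2 ≤ (N : ℝ) ^ 6 := by
                rw [← pow_mul]
                exact pow_le_pow_right₀ hN1 (by norm_num)
              have a4 : ((N : ℝ) ^ 2) ^ 3 = (N : ℝ) ^ 6 := by rw [← pow_mul]
              linarith
          _ = 4 * (N : ℝ) ^ 6 := by ring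
          _ ≤ N * (N : ℝ) ^ 6 := by gcongr
          _ = (N : ℝ) ^ 7 := by ring
      exact h6.trans (Real.rpow_le_rpow_of_exponent_le hN1 (le_max_right _ _))
    · have h1 := disc_bound_c hp1 hp2 hp3 hl2 hl3
      have h2 : |((disc3 (c 1) (c 2) (c 3) : ℤ) : ℝ)| ≤ 54 * (c 1 : ℝ) ^ 6 := by exact_mod_cast h1
      calc |((disc3 (c 1) (c 2) (c 3) : ℤ) : ℝ)| ≤ 54 * (c 1 : ℝ) ^ 6 := h2
        _ ≤ (N : ℝ) ^ (3 * ε) * ((N : ℝ) ^ (2 / 3 * Real.exp (1 / 2) - ε)) ^ 6 := by gcongr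
        _ = (N : ℝ) ^ (4 * Real.exp (1 / 2) - 3 * ε) := by
            rw [← Real.rpow_natCast ((N : ℝ) ^ (2 / 3 * Real.exp (1 / 2) - ε)),
              ← Real.rpow_mul hN0.le, ← Real.rpow_add hN0]
            congr 1
            push_cast
            ring
        _ ≤ (N : ℝ) ^ (4 * Real.exp (1 / 2) - ε) :=
            Real.rpow_le_rpow_of_exponent_le hN1 (by linarith)
  · have hle' : ∀ i ≤ 3, c i ≤ δ := by
      intro i hi
      exact Finset.single_le_sum (f := c) (fun j hj => hpos j (by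
        rw [Finset.mem_range] at hj
        omega)) (Finset.mem_range.2 (by omega))
    have hδ1 : 1 ≤ δ := by
      have := hle' 0 (Nat.zero_le _)
      rwa [h0] at this
    have habs : ∀ i ≤ 3, |c i| ≤ δ := by
      intro i hi
      rw [abs_of_nonneg (hpos i hi)]
      exact hle' i hi
    have hδr : (0 : ℝ) ≤ (δ : ℝ) := by exact_mod_cast (by linarith : (0 : ℤ) ≤ δ)
    apply hN₁ N hNN₁ c h0 hpos hRR
    · refine h.trans (Real.rpow_le_rpow_of_exponent_le hN1 ?_)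
      refine le_trans ?_ (le_max_right _ _)
      linarith
    · have h1 := disc_bound3 hδ1 (habs 1 (by norm_num)) (habs 2 (by norm_num)) (habs 3 le_rfl)
      have h2 : |((disc3 (c 1) (c 2) (c 3) : ℤ) : ℝ)| ≤ 54 * (δ : ℝ) ^ 4 := by exact_mod_cast h1
      calc |((disc3 (c 1) (c 2) (c 3) : ℤ) : ℝ)| ≤ 54 * (δ : ℝ) ^ 4 := h2
        _ ≤ (N : ℝ) ^ (3 * ε) * ((N : ℝ) ^ (Real.exp (1 / 2) - ε)) ^ 4 := by gcongr
        _ = (N : ℝ) ^ (4 * Real.exp (1 / 2) - ε) := by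
            rw [← Real.rpow_natCast ((N : ℝ) ^ (Real.exp (1 / 2) - ε)),
              ← Real.rpow_mul hN0.le, ← Real.rpow_add hN0]
            congr 1
            push_cast
            ring
  · apply hN₁ N hNN₁ c h0 hpos hRR
    · exact h.trans (Real.rpow_le_rpow_of_exponent_le hN1 (le_max_left _ _))
    · exact h'

end Pool.Agent.K4H57.CI
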